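import Pool.Agent.Helper82K9.PR.PR7

set_option autoImplicit false

/-! The number of the arguments at which all values are prime to the small primes. -/

namespace Pool.Agent.Helper82K9.PR

open Finset Filter

lemma crt2 (a b : ℕ) (ha : 0 < a) (hb : 0 < b) (hab : Nat.Coprime a b) (A B : ℕ → Prop) [DecidablePred A] [DecidablePred B]
    (hA : ∀ n m : ℕ, n ≡ m [MOD a] → (A n ↔ A m)) (hB : ∀ n m : ℕ, n ≡ m [MOD b] → (B n ↔ B m)) :
    ((range (a * b)).filter (fun n => A n ∧ B n)).card = ((range a).filter A).card * ((range b).filter B).card := by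
  rw [← card_product]
  apply card_bij' (fun n _ => (n % a, n % b)) (fun q _ => (Nat.chineseRemainder hab q.1 q.2 : ℕ))
  · intro n hn
    rw [mem_filter] at hn
    rw [mem_product, mem_filter, mem_filter, mem_range, mem_range]
    exact ⟨⟨Nat.mod_lt _ ha, (hA _ _ (Nat.mod_modEq n a)).2 hn.2.1⟩, ⟨Nat.mod_lt _ hb, (hB _ _ (Nat.mod_modEq n b)).2 hn.2.2⟩⟩
  · intro q hq
    rw [mem_product, mem_filter, mem_filter] at hq
    rw [mem_filter, mem_range]
    have h1 := (Nat.chineseRemainder hab q.1 q.2).2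
    exact ⟨Nat.chineseRemainder_lt_mul hab _ _ ha.ne' hb.ne', (hA _ _ h1.1).2 hq.1.2, (hB _ _ h1.2).2 hq.2.2⟩
  · intro n hn
    rw [mem_filter, mem_range] at hn
    simp only
    have h1 := (Nat.chineseRemainder hab (n % a) (n % b)).2
    have h2 : (Nat.chineseRemainder hab (n % a) (n % b) : ℕ) ≡ n [MOD a * b] :=
      (Nat.modEq_and_modEq_iff_modEq_mul hab).1 ⟨h1.1.trans (Nat.mod_modEq n a), h1.2.trans (Nat.mod_modEq n b)⟩
    exact Nat.ModEq.eq_of_lt_of_lt h2 (Nat.chineseRemainder_lt_mul hab _ _ ha.ne' hb.ne') hn.1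
  · intro q hq
    rw [mem_product, mem_filter, mem_filter, mem_range, mem_range] at hq
    have h1 := (Nat.chineseRemainder hab q.1 q.2).2
    apply Prod.ext
    · have h2 := h1.1
      unfold Nat.ModEq at h2
      simp only
      rw [h2, Nat.mod_eq_of_lt hq.1.1]
    · have h2 := h1.2
      unfold Nat.ModEq at h2
      simp only
      rw [h2, Nat.mod_eq_of_lt hq.2.1]

lemma crtN (P : Finset ℕ) (hP : ∀ p ∈ P, p.Prime) (A : ℕ → ℕ → Prop) [∀ p, DecidablePred (A p)]
    (hA : ∀ p n m : ℕ, n ≡ m [MOD p] → (A p n ↔ A p m)) :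
    ((range (∏ p ∈ P, p)).filter (fun n => ∀ p ∈ P, A p n)).card = ∏ p ∈ P, ((range p).filter (A p)).card := by
  classical
  induction P using Finset.induction_on with
  | empty => simp
  | insert q P hq ih =>
    have ih' := ih (fun p hp => hP p (mem_insert_of_mem hp))
    rw [prod_insert hq, prod_insert hq, ← ih']
    have hq0 : 0 < q := (hP q (mem_insert_self _ _)).pos
    have hP0 : 0 < ∏ p ∈ P, p := prod_pos fun p hp => (hP p (mem_insert_of_mem hp)).pos
    have hcop : Nat.Coprime q (∏ p ∈ P, p) := by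
      apply Nat.Coprime.prod_right
      intro p hp
      rw [Nat.coprime_primes (hP q (mem_insert_self _ _)) (hP p (mem_insert_of_mem hp))]
      intro h
      rw [h] at hq
      exact hq hp
    have h1 := crt2 q (∏ p ∈ P, p) hq0 hP0 hcop (A q) (fun n => ∀ p ∈ P, A p n) (hA q) (by
      intro n m h
      apply forall₂_congr
      intro p hp
      exact hA p n m (h.of_dvd (dvd_prod_of_mem _ hp)))
    rw [← h1]
    congr 1
    apply filter_congr
    intro n _
    simp only [mem_insert, forall_eq_or_imp]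

lemma count_periodic (W : ℕ) (hW : 0 < W) (Q : ℕ → Prop) [DecidablePred Q] (hQ : ∀ n, Q (n + W) ↔ Q n) (y : ℕ) :
    |((((Icc 1 y).filter Q).card : ℕ) : ℝ) - y * ((((range W).filter Q).card : ℝ) / W)| ≤ W := by
  have hper : Function.Periodic Q W := fun n => propext (hQ n)
  have hcW : ((range W).filter Q).card = W.count Q := (Nat.count_eq_card_filter_range Q W).symm
  have hbl : ∀ t : ℕ, ((Ico 1 (1 + W * t)).filter Q).card = t * W.count Q := by
    intro t
    induction t with
    | zero => simp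
    | succ t ih =>
      have e1 : Ico 1 (1 + W * (t + 1)) = Ico 1 (1 + W * t) ∪ Ico (1 + W * t) (1 + W * t + W) := by
        rw [Ico_union_Ico_eq_Ico (by omega) (by omega)]
        congr 1
        ring
      rw [e1, filter_union, card_union_of_disjoint, ih, Nat.filter_Ico_card_eq_of_periodic _ _ _ hper]
      · ring
      · apply disjoint_filter_filter
        exact Ico_disjoint_Ico_consecutive _ _ _
  set c := W.count Q with hc
  set t := y / W with ht
  have h1 : t * c ≤ ((Icc 1 y).filter Q).card := by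
    rw [← hbl t]
    apply card_le_card
    apply filter_subset_filter
    intro n hn
    rw [mem_Ico] at hn
    rw [mem_Icc]
    have := Nat.mul_div_le y W
    rw [← ht] at this
    omega
  have h2 : ((Icc 1 y).filter Q).card ≤ (t + 1) * c := by
    rw [← hbl (t + 1)]
    apply card_le_card
    apply filter_subset_filter
    intro n hn
    rw [mem_Icc] at hn
    rw [mem_Ico]
    have := Nat.lt_mul_div_succ y hW
    rw [← ht] at this
    omega
  have hcW2 : c ≤ W := by
    rw [← hcW]
    exact (card_filter_le _ _).trans (le_of_eq (card_range W))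
  have hWr : (0 : ℝ) < W := by exact_mod_cast hW
  have hcr : (0 : ℝ) ≤ c := Nat.cast_nonneg _
  rw [hcW]
  have h3 : (t : ℝ) ≤ y / W := Nat.cast_div_le
  have h4 : (y : ℝ) / W ≤ t + 1 := by
    rw [div_le_iff₀ hWr]
    have := Nat.lt_mul_div_succ y hW
    have h5 : (y : ℝ) ≤ W * (t + 1) := by exact_mod_cast this.le
    linarith
  have h5 : (t : ℝ) * c ≤ ((((Icc 1 y).filter Q).card : ℕ) : ℝ) := by exact_mod_cast h1
  have h6 : ((((Icc 1 y).filter Q).card : ℕ) : ℝ) ≤ (t + 1) * c := by exact_mod_cast h2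
  have h7 : (y : ℝ) * (c / W) = y / W * c := by ring
  rw [h7]
  have h8 : (t : ℝ) * c ≤ y / W * c := mul_le_mul_of_nonneg_right h3 hcr
  have h9 : (y : ℝ) / W * c ≤ (t + 1) * c := mul_le_mul_of_nonneg_right h4 hcr
  have h10 : (c : ℝ) ≤ W := by exact_mod_cast hcW2
  rw [abs_le]
  constructor <;> linarith

/-- the number of the classes `n` modulo `p` for which `p` divides one of the values at `n + h i` -/
noncomputable def nu {k d : ℕ} (h : Fin k → ℕ) (v : Fin (d + 1) → ℤ) (p : ℕ) : ℕ := by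
  classical exact ((range p).filter (fun n => ∃ i, (p : ℤ) ∣ pv v (n + h i))).card

/-- the product of the local densities at the primes `p ≤ z` -/
noncomputable def SS {k d : ℕ} (z : ℕ) (h : Fin k → ℕ) (v : Fin (d + 1) → ℤ) : ℝ :=
  ∏ p ∈ (Icc 1 z).filter Nat.Prime, (1 - (nu h v p : ℝ) / p) / (1 - 1 / (p : ℝ)) ^ k

lemma pv_mod {d : ℕ} (v : Fin (d + 1) → ℤ) (p n m : ℕ) (h : n ≡ m [MOD p]) : (p : ℤ) ∣ pv v n ↔ (p : ℤ) ∣ pv v m := by
  have h1 : (pv v n) ≡ (pv v m) [ZMOD p] := by
    unfold pv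
    apply Int.ModEq.sum
    intro i _
    apply Int.ModEq.mul_left
    apply Int.ModEq.pow
    exact (Int.natCast_modEq_iff).2 h
  exact Int.ModEq.dvd_iff h1

lemma primes_eq (z : ℕ) : (Icc 1 z).filter Nat.Prime = Nat.primesLE z := by
  ext p
  rw [mem_filter, mem_Icc, Nat.mem_primesLE]
  constructor
  · rintro ⟨⟨h1, h2⟩, h3⟩; exact ⟨h2, h3⟩
  · rintro ⟨h1, h2⟩; exact ⟨⟨h2.one_le, h1⟩, h2⟩

lemma Cz_eq (z : ℕ) : Cz z = ∏ p ∈ (Icc 1 z).filter Nat.Prime, (1 - 1 / (p : ℝ))⁻¹ := by
  unfold Cz
  rw [ratio _ (primorial_pos z), primeFactors_primorial, primes_eq]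

lemma RR_sum {k d : ℕ} (z : ℕ) (h : Fin k → ℕ) (v : Fin (d + 1) → ℤ) (y : ℕ) :
    |∑ n ∈ Icc 1 y, RR z h (fun _ _ => 0) v n - SS z h v * y| ≤ Cz z ^ k * primorial z := by
  classical
  set P := (Icc 1 z).filter Nat.Prime with hP
  have hPp : ∀ p ∈ P, p.Prime := fun p hp => (mem_filter.1 hp).2
  set A : ℕ → ℕ → Prop := fun p n => ¬ ∃ i, (p : ℤ) ∣ pv v (n + h i) with hA
  have hAper : ∀ p n m : ℕ, n ≡ m [MOD p] → (A p n ↔ A p m) := by
    intro p n m hnm
    rw [hA]
    simp only
    rw [not_iff_not]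
    apply exists_congr
    intro i
    exact pv_mod v p _ _ (Nat.ModEq.add_right _ hnm)
  have hprod : ∏ p ∈ P, p = primorial z := by
    rw [hP, primes_eq]; rfl
  have hW := primorial_pos z
  have hRR : ∀ n, RR z h (fun _ _ => 0) v n = if (∀ p ∈ P, A p n) then Cz z ^ k else 0 := by
    intro n
    unfold RR MM
    by_cases hall : ∀ p ∈ P, A p n
    · rw [if_pos hall]
      have h1 : ∀ i ∈ (univ : Finset (Fin k)), (if Int.gcd (pv v (n + h i) + 0) ((primorial z : ℕ) : ℤ) = 1 then
          (primorial z : ℝ) / Nat.totient (primorial z) else 0) = Cz z := by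
        intro i _
        rw [if_pos]
        · rfl
        · rw [add_zero, Int.gcd_def, Int.natAbs_natCast]
          by_contra hcon
          obtain ⟨p, hp, hpd⟩ := Nat.exists_prime_and_dvd hcon
          have h2 := hpd.trans (Nat.gcd_dvd_left _ _)
          have h3 := hpd.trans (Nat.gcd_dvd_right _ _)
          have h4 := hp.dvd_primorial_iff.1 h3
          apply hall p (mem_filter.2 ⟨mem_Icc.2 ⟨hp.one_le, h4⟩, hp⟩)
          exact ⟨i, Int.natCast_dvd.2 h2⟩
      rw [prod_congr rfl h1, prod_const, card_univ, Fintype.card_fin]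
    · rw [if_neg hall]
      push Not at hall
      obtain ⟨p, hp, hA1⟩ := hall
      rw [hA] at hA1
      simp only [not_not] at hA1
      obtain ⟨i, hi⟩ := hA1
      apply prod_eq_zero (mem_univ i)
      rw [if_neg]
      intro h1
      rw [add_zero, Int.gcd_def, Int.natAbs_natCast] at h1
      have hpp := hPp p hp
      have h2 : p ∣ primorial z := hpp.dvd_primorial_iff.2 (mem_Icc.1 (mem_filter.1 hp).1).2
      have h3 : p ∣ Nat.gcd (pv v (n + h i)).natAbs (primorial z) := Nat.dvd_gcd (Int.natCast_dvd.1 hi) h2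
      rw [h1] at h3
      exact hpp.one_lt.ne' (Nat.dvd_one.1 h3)
  have e1 : ∑ n ∈ Icc 1 y, RR z h (fun _ _ => 0) v n =
      Cz z ^ k * ((((Icc 1 y).filter (fun n => ∀ p ∈ P, A p n)).card : ℕ) : ℝ) := by
    rw [sum_congr rfl (fun n _ => hRR n), ← sum_filter, sum_const, nsmul_eq_mul, mul_comm]
  have h2 := count_periodic (primorial z) hW (fun n => ∀ p ∈ P, A p n) (by
    intro n
    apply forall₂_congr
    intro p hp
    apply hAper
    have h3 : p ∣ primorial z := (hPp p hp).dvd_primorial_iff.2 (mem_Icc.1 (mem_filter.1 hp).1).2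
    have h4 : primorial z ≡ 0 [MOD p] := Nat.modEq_zero_iff_dvd.2 h3
    have h5 := Nat.ModEq.add_left n h4
    rwa [add_zero] at h5) y
  have h3 := crtN P hPp A hAper
  rw [hprod] at h3
  rw [h3] at h2
  have e2 : SS z h v = Cz z ^ k * (((∏ p ∈ P, ((range p).filter (A p)).card : ℕ) : ℝ) / (primorial z : ℝ)) := by
    unfold SS
    rw [Cz_eq, ← prod_pow, ← hprod]
    push_cast
    rw [← prod_div_distrib, ← prod_mul_distrib]
    apply prod_congr rfl
    intro p hp
    have hp0 : (0 : ℝ) < p := by exact_mod_cast (hPp p hp).pos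
    have h4 : ((range p).filter (A p)).card + nu h v p = p := by
      have h4' : nu h v p = ((range p).filter (fun n => ¬ A p n)).card := by
        unfold nu
        congr 1
        ext n
        simp only [mem_filter, hA, not_not]
      have := card_filter_add_card_filter_not (s := range p) (A p)
      rw [card_range] at this
      rw [h4']
      exact this
    have h5 : ((((range p).filter (A p)).card : ℕ) : ℝ) = p - nu h v p := by
      have : ((((range p).filter (A p)).card : ℕ) : ℝ) + nu h v p = p := by exact_mod_cast h4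
      linarith
    rw [h5, inv_pow, div_eq_inv_mul, sub_div (p : ℝ), div_self hp0.ne']
  rw [e1, e2]
  have hC0 : 0 ≤ Cz z ^ k := by have := Cz_ge z; positivity
  have e3 : Cz z ^ k * ((((Icc 1 y).filter (fun n => ∀ p ∈ P, A p n)).card : ℕ) : ℝ) -
      Cz z ^ k * (((∏ p ∈ P, ((range p).filter (A p)).card : ℕ) : ℝ) / (primorial z : ℝ)) * y =
      Cz z ^ k * (((((Icc 1 y).filter (fun n => ∀ p ∈ P, A p n)).card : ℕ) : ℝ) -
      y * (((∏ p ∈ P, ((range p).filter (A p)).card : ℕ) : ℝ) / (primorial z : ℝ))) := by ring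
  rw [e3, abs_mul, abs_of_nonneg hC0]
  exact mul_le_mul_of_nonneg_left h2 hC0

end Pool.Agent.Helper82K9.PR
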