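import Pool.Agent.H343R2.EH.Psi
import Pool.Agent.H343R2.EH.Primes
import Pool.Agent.H442R2.EHI.PntErr

set_option autoImplicit false

/-! Primes in progressions with small moduli in intervals, counted with the weight `log H`. -/

namespace Pool.Agent.Helper82K9.PR

open Finset Filter H343E
open Pool.Agent.H442R2.EHI (lis)

/-- the theorem of Siegel and Walfisz -/
theorem swL (A B : ℕ) : ∃ C : ℝ, 0 ≤ C ∧ ∃ x0 : ℕ, ∀ x : ℕ, x0 ≤ x → ∀ q a : ℕ, 1 ≤ q →
    (q : ℝ) ≤ Real.log x ^ B → a < q → a.Coprime q →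
    |piAP x q a - lis x / (Nat.totient q : ℝ)| ≤ C * (x / Real.log x ^ A) := by
  obtain ⟨C, hpi⟩ := Pool.Agent.H442R2.EHI.pnt_err A
  obtain ⟨B1, x0, hBV⟩ := primes_of A (unsmoothed (A + 2))
  have h1 := (Real.isLittleO_pow_log_id_atTop (n := 2 * B + B1)).def (show (0 : ℝ) < 1 by norm_num)
  have h2 := (tendsto_natCast_atTop_atTop (R := ℝ)).eventually h1
  have h3 := (Real.tendsto_log_atTop.comp (tendsto_natCast_atTop_atTop (R := ℝ))).eventually_ge_atTop 1
  obtain ⟨x1, h4⟩ := (h2.and h3).exists_forall_of_atTop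
  refine ⟨|C| + 1, by positivity, max (max x0 x1) 2, ?_⟩
  intro x hx q a hq hqx haq hcop
  have hx0 : x0 ≤ x := (le_max_left _ _).trans ((le_max_left _ _).trans hx)
  have hx1 : x1 ≤ x := (le_max_right _ _).trans ((le_max_left _ _).trans hx)
  have hx2 : 2 ≤ x := (le_max_right _ _).trans hx
  obtain ⟨h5, h6⟩ := h4 x hx1
  have hL : 1 ≤ Real.log x := h6
  have hL0 : 0 < Real.log x := by linarith
  have hxp : (0 : ℝ) < x := by exact_mod_cast (by omega : 0 < x)
  have h7 : Real.log x ^ (2 * B + B1) ≤ x := by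
    have h := h5
    simp only [id, Real.norm_eq_abs, one_mul] at h
    rwa [abs_of_nonneg (by positivity), abs_of_nonneg hxp.le] at h
  have hq1 : (1 : ℝ) ≤ q := by exact_mod_cast hq
  have h8 : (q : ℝ) ^ 2 ≤ 1 * x / Real.log x ^ B1 := by
    rw [one_mul, le_div_iff₀ (by positivity)]
    calc (q : ℝ) ^ 2 * Real.log x ^ B1 ≤ (Real.log x ^ B) ^ 2 * Real.log x ^ B1 := by gcongr
      _ = Real.log x ^ (2 * B + B1) := by ring
      _ ≤ x := h7
  have h9 : (q : ℝ) ≤ x / Real.log x ^ B1 := by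
    have h : (q : ℝ) ≤ (q : ℝ) ^ 2 := by nlinarith
    rw [one_mul] at h8
    linarith
  have hfam : Fam 1 (fun d => if d = q then {a} else ∅) := by
    refine ⟨?_, ?_⟩
    · intro d b hb
      by_cases hd : d = q
      · rw [if_pos hd, mem_singleton] at hb
        rw [hb, hd]
        exact ⟨haq, hcop⟩
      · rw [if_neg hd] at hb
        exact absurd hb (notMem_empty _)
    · intro d
      by_cases hd : d = q
      · simp only [if_pos hd, card_singleton, Nat.cast_one, le_refl]
      · simp only [if_neg hd, card_empty, Nat.cast_zero, zero_le_one]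
  have h10 := hBV x hx0 1 le_rfl q h9 h8 _ hfam
  have h11 : |piAP x q a - pi1 x / (Nat.totient q : ℝ)| ≤
      ∑ d ∈ Icc 1 q, ∑ b ∈ (if d = q then {a} else ∅ : Finset ℕ),
        |piAP x d b - pi1 x / (Nat.totient d : ℝ)| := by
    refine le_trans ?_ (single_le_sum (f := fun d => ∑ b ∈ (if d = q then {a} else ∅ : Finset ℕ),
      |piAP x d b - pi1 x / (Nat.totient d : ℝ)|)
      (fun d _ => sum_nonneg (fun _ _ => abs_nonneg _)) (mem_Icc.2 ⟨hq, le_rfl⟩))
    simp only [if_true, sum_singleton, le_refl]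
  have hφ0 : (0 : ℝ) < (Nat.totient q : ℝ) := by exact_mod_cast Nat.totient_pos.2 hq
  have hφ1 : (1 : ℝ) ≤ (Nat.totient q : ℝ) := by exact_mod_cast Nat.totient_pos.2 hq
  have h13 : |pi1 x / (Nat.totient q : ℝ) - lis x / (Nat.totient q : ℝ)| ≤ |C| * (x / Real.log x ^ A) := by
    rw [← sub_div, abs_div, abs_of_pos hφ0, div_le_iff₀ hφ0]
    have h14 := hpi x hx2
    have h15 : 0 ≤ |C| * (x / Real.log x ^ A) := by positivity
    calc |pi1 x - lis x| ≤ C * x / Real.log x ^ A := h14
      _ ≤ |C| * (x / Real.log x ^ A) := by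
          rw [mul_div_assoc]
          exact mul_le_mul_of_nonneg_right (le_abs_self C) (by positivity)
      _ = |C| * (x / Real.log x ^ A) * 1 := by ring
      _ ≤ _ := mul_le_mul_of_nonneg_left hφ1 h15
  calc |piAP x q a - lis x / (Nat.totient q : ℝ)|
      = |(piAP x q a - pi1 x / (Nat.totient q : ℝ)) +
        (pi1 x / (Nat.totient q : ℝ) - lis x / (Nat.totient q : ℝ))| := by ring_nf
    _ ≤ |piAP x q a - pi1 x / (Nat.totient q : ℝ)| +
        |pi1 x / (Nat.totient q : ℝ) - lis x / (Nat.totient q : ℝ)| := abs_add_le _ _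
    _ ≤ 1 * x / Real.log x ^ A + |C| * (x / Real.log x ^ A) :=
        add_le_add (h11.trans h10) h13
    _ = (|C| + 1) * (x / Real.log x ^ A) := by ring

/-- the sum of `log H / log n` over an interval -/
lemma lis_window (A B : ℕ) (δ : ℝ) (hδ : 0 < δ) (hδ1 : δ ≤ 1) : ∃ H0 : ℕ, ∀ H : ℕ, H0 ≤ H → ∀ y1 y2 : ℕ, y1 ≤ y2 →
    (y2 : ℝ) ≤ H * Real.log H ^ B →
    |Real.log H * (lis y2 - lis y1) - ((y2 : ℝ) - y1)| ≤ δ * ((y2 : ℝ) - y1) + H / Real.log H ^ A := by
  have hlog : Tendsto (fun n : ℕ => Real.log n) atTop atTop := Real.tendsto_log_atTop.comp tendsto_natCast_atTop_atTop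
  have e1 := (isLittleO_log_rpow_rpow_atTop (s := δ / 2) (A + 1 : ℝ) (by positivity)).def (show (0 : ℝ) < 1 / 6 by norm_num)
  have e2 := (tendsto_natCast_atTop_atTop (R := ℝ)).eventually e1
  have e3 := (Real.isLittleO_log_id_atTop).def (show (0:ℝ) < δ / (B + 1) by positivity)
  have e4 := hlog.eventually e3
  have e5 := hlog.eventually_ge_atTop 4
  obtain ⟨H0, h0⟩ := (((e2.and e4).and e5).and (eventually_ge_atTop 2)).exists_forall_of_atTop
  refine ⟨H0, fun H hH y1 y2 hy hyH => ?_⟩
  obtain ⟨⟨⟨h1, h2⟩, h3⟩, h4⟩ := h0 H hH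
  set L := Real.log H with hL
  have hL0 : 0 < L := by linarith
  have hHr : (0 : ℝ) < H := by exact_mod_cast (by omega : 0 < H)
  have hH1 : (1 : ℝ) ≤ H := by exact_mod_cast (by omega : 1 ≤ H)
  -- small `n`
  set N1 : ℝ := (H : ℝ) ^ (1 - δ / 2) with hN1
  have hN1p : 0 < N1 := Real.rpow_pos_of_pos hHr _
  have h5 : 6 * L * L ^ A * N1 ≤ H := by
    simp only [id, Real.norm_eq_abs] at h1
    rw [abs_of_nonneg (by positivity), abs_of_nonneg (by positivity)] at h1
    have h6 : L ^ ((A : ℝ) + 1) = L * L ^ A := by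
      rw [Real.rpow_add hL0, Real.rpow_natCast, Real.rpow_one, mul_comm]
    rw [h6] at h1
    have h7 : (H : ℝ) = (H : ℝ) ^ (δ / 2) * N1 := by
      rw [hN1, ← Real.rpow_add hHr]; ring_nf; rw [Real.rpow_one]
    calc 6 * L * L ^ A * N1 = 6 * (L * L ^ A) * N1 := by ring
      _ ≤ 6 * (1 / 6 * (H : ℝ) ^ (δ / 2)) * N1 := by gcongr
      _ = (H : ℝ) ^ (δ / 2) * N1 := by ring
      _ = H := h7.symm
  have h8 : B * Real.log L ≤ δ * L := by
    simp only [id, Real.norm_eq_abs] at h2
    have h9 : 0 ≤ Real.log L := Real.log_nonneg (by linarith)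
    rw [abs_of_nonneg h9, abs_of_nonneg hL0.le] at h2
    have hB : (0:ℝ) ≤ B := Nat.cast_nonneg _
    calc (B:ℝ) * Real.log L ≤ (B + 1) * Real.log L := by nlinarith
      _ ≤ (B + 1) * (δ / (B + 1) * L) := by gcongr
      _ = δ * L := by field_simp
  -- the sum
  have e6 : lis y2 - lis y1 = ∑ n ∈ Ioc y1 y2, (if 2 ≤ n then 1 / Real.log n else 0) := by
    have e7 : ∀ y : ℕ, lis y = ∑ n ∈ Ioc 0 y, (if 2 ≤ n then 1 / Real.log n else 0) := by
      intro y
      unfold lis
      rw [← sum_filter]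
      apply sum_congr _ (fun _ _ => rfl)
      ext n
      simp only [mem_Icc, mem_filter, mem_Ioc]
      omega
    rw [e7, e7, sub_eq_iff_eq_add, add_comm]
    have : Ioc 0 y2 = Ioc 0 y1 ∪ Ioc y1 y2 := (Ioc_union_Ioc_eq_Ioc (Nat.zero_le _) hy).symm
    rw [this, sum_union]
    rw [disjoint_left]
    intro n h1 h2
    rw [mem_Ioc] at h1 h2
    omega
  have e8 : ((y2 : ℝ) - y1) = ∑ n ∈ Ioc y1 y2, (1 : ℝ) := by
    rw [sum_const, Nat.card_Ioc, nsmul_eq_mul, mul_one, Nat.cast_sub hy]
  have key : ∀ n ∈ Ioc y1 y2, |L * (if 2 ≤ n then 1 / Real.log n else 0) - 1| ≤ δ + if (n : ℝ) ≤ N1 then 3 * L else 0 := by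
    intro n hn
    rw [mem_Ioc] at hn
    have hn1 : 1 ≤ n := by omega
    have hnr : (0 : ℝ) < n := by exact_mod_cast hn1
    by_cases hN : (n : ℝ) ≤ N1
    · rw [if_pos hN]
      split_ifs with h2n
      · have h10 : Real.log 2 ≤ Real.log n := Real.log_le_log (by norm_num) (by exact_mod_cast h2n)
        have h11 : (1:ℝ) / 2 ≤ Real.log n := by have := Real.log_two_gt_d9; linarith
        have h12 : L * (1 / Real.log n) ≤ 2 * L := by
          rw [mul_one_div, div_le_iff₀ (by linarith)]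
          nlinarith
        have h13 : 0 ≤ L * (1 / Real.log n) := by positivity
        rw [abs_le]
        constructor <;> linarith
      · rw [mul_zero, zero_sub, abs_neg, abs_one]
        linarith
    · rw [if_neg hN, add_zero]
      push Not at hN
      have hge : (1 - δ / 2) * L ≤ Real.log n := by
        have := Real.log_le_log hN1p hN.le
        rw [hN1, Real.log_rpow hHr] at this
        exact this
      have hgt : 0 < (1 - δ / 2) * L := by
        apply mul_pos _ hL0; linarith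
      have hlogn : 0 < Real.log n := lt_of_lt_of_le hgt hge
      have h2n : 2 ≤ n := by
        by_contra hcon
        have : n = 1 := by omega
        rw [this, Nat.cast_one, Real.log_one] at hlogn
        exact lt_irrefl _ hlogn
      rw [if_pos h2n]
      have hle : Real.log n ≤ L + δ * L := by
        have h14 : (n : ℝ) ≤ H * L ^ B := le_trans (by exact_mod_cast hn.2) hyH
        have h15 := Real.log_le_log hnr h14
        rw [Real.log_mul hHr.ne' (by positivity), Real.log_pow] at h15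
        linarith
      have h16 : L * (1 / Real.log n) ≤ 1 + δ := by
        rw [mul_one_div, div_le_iff₀ hlogn]
        nlinarith
      have h17 : 1 - δ ≤ L * (1 / Real.log n) := by
        rw [mul_one_div, le_div_iff₀ hlogn]
        have : (1 - δ) * Real.log n ≤ (1 - δ) * (L + δ * L) := mul_le_mul_of_nonneg_left hle (by linarith)
        nlinarith [mul_pos hδ hL0]
      rw [abs_le]
      constructor <;> linarith
  have e9 : Real.log H * (lis y2 - lis y1) - ((y2 : ℝ) - y1) =
      ∑ n ∈ Ioc y1 y2, (L * (if 2 ≤ n then 1 / Real.log n else 0) - 1) := by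
    rw [sum_sub_distrib, ← mul_sum, ← e6, ← e8]
  rw [e9]
  have hcount : ∑ n ∈ Ioc y1 y2, (if (n : ℝ) ≤ N1 then 3 * L else 0) ≤ 3 * L * N1 := by
    rw [← sum_filter, sum_const, nsmul_eq_mul, mul_comm]
    apply mul_le_mul_of_nonneg_left _ (by positivity)
    have : (Ioc y1 y2).filter (fun n : ℕ => (n : ℝ) ≤ N1) ⊆ Ioc 0 ⌊N1⌋₊ := by
      intro n hn
      rw [mem_filter, mem_Ioc] at hn
      rw [mem_Ioc]
      exact ⟨by omega, Nat.le_floor hn.2⟩
    calc ((((Ioc y1 y2).filter (fun n : ℕ => (n : ℝ) ≤ N1)).card : ℕ) : ℝ) ≤ ((Ioc 0 ⌊N1⌋₊).card : ℝ) := by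
          exact_mod_cast card_le_card this
      _ ≤ N1 := by
          rw [Nat.card_Ioc, Nat.sub_zero]
          exact Nat.floor_le hN1p.le
  calc |∑ n ∈ Ioc y1 y2, (L * (if 2 ≤ n then 1 / Real.log n else 0) - 1)|
      ≤ ∑ n ∈ Ioc y1 y2, (δ + if (n : ℝ) ≤ N1 then 3 * L else 0) := (abs_sum_le_sum_abs _ _).trans (sum_le_sum key)
    _ = δ * ((y2 : ℝ) - y1) + ∑ n ∈ Ioc y1 y2, (if (n : ℝ) ≤ N1 then 3 * L else 0) := by
        rw [sum_add_distrib, e8, mul_sum, mul_one]
    _ ≤ δ * ((y2 : ℝ) - y1) + H / L ^ A := by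
        have : 3 * L * N1 ≤ H / L ^ A := by
          rw [le_div_iff₀ (by positivity)]
          have : 0 ≤ 3 * L * L ^ A * N1 := by positivity
          nlinarith
        linarith

/-- primes in a progression in an interval, with the weight `log H` -/
theorem window (A B : ℕ) (δ : ℝ) (hδ : 0 < δ) (hδ1 : δ ≤ 1) : ∃ H0 : ℕ, ∀ H : ℕ, H0 ≤ H → ∀ q a : ℕ, 1 ≤ q →
    (q : ℝ) ≤ Real.log H ^ B → a < q → a.Coprime q → ∀ y1 y2 : ℕ, y1 ≤ y2 → (y2 : ℝ) ≤ H * Real.log H ^ B →
    |Real.log H * (piAP y2 q a - piAP y1 q a) - ((y2 : ℝ) - y1) / (Nat.totient q : ℝ)| ≤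
      δ * (((y2 : ℝ) - y1) / (Nat.totient q : ℝ)) + H / Real.log H ^ A := by
  obtain ⟨C, hC, x0, hsw⟩ := swL (A + B + 2) (B + 1)
  obtain ⟨H1, hlis⟩ := lis_window (A + 1) B δ hδ hδ1
  have hlog : Tendsto (fun n : ℕ => Real.log n) atTop atTop := Real.tendsto_log_atTop.comp tendsto_natCast_atTop_atTop
  have e1 := (isLittleO_log_rpow_rpow_atTop (s := (1 / 2 : ℝ)) (A + 1 : ℝ) (by norm_num)).def (show (0 : ℝ) < 1 / 24 by norm_num)
  have e2 := (tendsto_natCast_atTop_atTop (R := ℝ)).eventually e1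
  have e5 := hlog.eventually_ge_atTop (max 4 (max (2 ^ (B + 1)) (8 * C * 2 ^ (A + B + 2))))
  obtain ⟨H0, h0⟩ := ((e2.and e5).and (eventually_ge_atTop (max H1 (x0 ^ 2 + 2)))).exists_forall_of_atTop
  refine ⟨H0, fun H hH q a hq hqH haq hcop y1 y2 hy hyH => ?_⟩
  obtain ⟨⟨h1, h2⟩, h3⟩ := h0 H hH
  have hl := hlis H ((le_max_left _ _).trans h3) y1 y2 hy hyH
  set L := Real.log H with hL
  have hL4 : 4 ≤ L := (le_max_left _ _).trans h2
  have hL0 : 0 < L := by linarith
  have hLB : 2 ^ (B + 1) ≤ L := (le_max_left _ _).trans ((le_max_right _ _).trans h2)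
  have hLC : 8 * C * 2 ^ (A + B + 2) ≤ L := (le_max_right _ _).trans ((le_max_right _ _).trans h2)
  have hHx : x0 ^ 2 + 2 ≤ H := (le_max_right _ _).trans h3
  have hHr : (0 : ℝ) < H := by exact_mod_cast (by omega : 0 < H)
  have hφ0 : (0 : ℝ) < (Nat.totient q : ℝ) := by exact_mod_cast Nat.totient_pos.2 hq
  have hφ1 : (1 : ℝ) ≤ (Nat.totient q : ℝ) := by exact_mod_cast Nat.totient_pos.2 hq
  set S : ℝ := (H : ℝ) ^ (1 / 2 : ℝ) with hS
  have hSp : 0 < S := Real.rpow_pos_of_pos hHr _
  have hSS : S * S = H := by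
    rw [hS, ← Real.rpow_add hHr]; norm_num
  have h5 : 24 * (L * L ^ A) ≤ S := by
    simp only [id, Real.norm_eq_abs] at h1
    rw [abs_of_nonneg (by positivity), abs_of_nonneg (by positivity)] at h1
    have h6 : L ^ ((A : ℝ) + 1) = L * L ^ A := by
      rw [Real.rpow_add hL0, Real.rpow_natCast, Real.rpow_one, mul_comm]
    rw [h6] at h1
    linarith
  have hpt : ∀ y : ℕ, (y : ℝ) ≤ H * L ^ B →
      L * |piAP y q a - lis y / (Nat.totient q : ℝ)| ≤ H / L ^ A / 4 := by
    intro y hyH
    by_cases hyS : (y : ℝ) < S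
    · have h7 : |piAP y q a - lis y / (Nat.totient q : ℝ)| ≤ 3 * S := by
        have h8 : piAP y q a ≤ y := by
          unfold piAP
          have : ((Icc 1 y).filter (fun p => p.Prime ∧ p ≡ a [MOD q])).card ≤ y := by
            refine (card_filter_le _ _).trans ?_
            rw [Nat.card_Icc]; omega
          exact_mod_cast this
        have h9 : 0 ≤ piAP y q a := Nat.cast_nonneg _
        have h10 : 0 ≤ lis y := by
          unfold lis
          apply sum_nonneg
          intro n hn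
          rw [mem_Icc] at hn
          have : 0 ≤ Real.log n := Real.log_natCast_nonneg n
          positivity
        have h11 : lis y ≤ 2 * y := by
          unfold lis
          calc ∑ n ∈ Icc 2 y, 1 / Real.log n ≤ ∑ n ∈ Icc 2 y, (2 : ℝ) := by
                apply sum_le_sum
                intro n hn
                rw [mem_Icc] at hn
                have h10 : Real.log 2 ≤ Real.log n := Real.log_le_log (by norm_num) (by exact_mod_cast hn.1)
                have h11 : (1:ℝ) / 2 ≤ Real.log n := by have := Real.log_two_gt_d9; linarith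
                rw [div_le_iff₀ (by linarith)]
                linarith
            _ = ((Icc 2 y).card : ℝ) * 2 := by rw [sum_const, nsmul_eq_mul]
            _ ≤ y * 2 := by
                apply mul_le_mul_of_nonneg_right _ (by norm_num)
                rw [Nat.card_Icc]
                exact_mod_cast (by omega : y + 1 - 2 ≤ y)
            _ = 2 * y := by ring
        have h12 : lis y / (Nat.totient q : ℝ) ≤ 2 * y := (div_le_self h10 hφ1).trans h11
        have h13 : 0 ≤ lis y / (Nat.totient q : ℝ) := by positivity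
        rw [abs_le]
        constructor <;> linarith
      calc L * |piAP y q a - lis y / (Nat.totient q : ℝ)| ≤ L * (3 * S) := by gcongr
        _ ≤ H / L ^ A / 4 := by
            rw [div_div, le_div_iff₀ (by positivity)]
            calc L * (3 * S) * (L ^ A * 4) = 12 * (L * L ^ A) * S := by ring
              _ ≤ S * S := by
                  apply mul_le_mul_of_nonneg_right _ hSp.le
                  have : 0 ≤ L * L ^ A := by positivity
                  linarith
              _ = H := hSS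
    · push Not at hyS
      have hy0 : (0 : ℝ) < y := lt_of_lt_of_le hSp hyS
      have h7 : L / 2 ≤ Real.log y := by
        have := Real.log_le_log hSp hyS
        rw [hS, Real.log_rpow hHr] at this
        linarith
      have hx0y : x0 ≤ y := by
        have h8 : ((x0 : ℝ)) ≤ S := by
          have h9 : ((x0 : ℝ)) ^ 2 ≤ H := by exact_mod_cast (by omega : x0 ^ 2 ≤ H)
          have h10 : (0:ℝ) ≤ x0 := Nat.cast_nonneg _
          nlinarith
        exact_mod_cast h8.trans hyS
      have h9 : (q : ℝ) ≤ Real.log y ^ (B + 1) := by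
        refine hqH.trans (le_trans ?_ (pow_le_pow_left₀ (by positivity) h7 (B + 1)))
        rw [div_pow, le_div_iff₀ (by positivity), pow_succ L B]
        exact mul_le_mul_of_nonneg_left hLB (by positivity)
      have h10 := hsw y hx0y q a hq h9 haq hcop
      calc L * |piAP y q a - lis y / (Nat.totient q : ℝ)| ≤ L * (C * (y / Real.log y ^ (A + B + 2))) := by gcongr
        _ ≤ L * (C * (H * L ^ B / (L / 2) ^ (A + B + 2))) := by gcongr
        _ = (C * 2 ^ (A + B + 2)) * (H / (L ^ A * L)) := by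
            rw [div_pow, pow_add, pow_add L]
            field_simp
        _ ≤ (L / 8) * (H / (L ^ A * L)) := by
            apply mul_le_mul_of_nonneg_right _ (by positivity)
            linarith
        _ = H / L ^ A / 8 := by field_simp
        _ ≤ H / L ^ A / 4 := by
            have : 0 ≤ H / L ^ A := by positivity
            linarith
  have hy1H : (y1 : ℝ) ≤ H * L ^ B := le_trans (by exact_mod_cast hy) hyH
  have p1 := hpt y1 hy1H
  have p2 := hpt y2 hyH
  have hl2 : |L * (lis y2 - lis y1) / (Nat.totient q : ℝ) - ((y2 : ℝ) - y1) / (Nat.totient q : ℝ)| ≤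
      δ * (((y2 : ℝ) - y1) / (Nat.totient q : ℝ)) + H / L ^ A / 4 := by
    rw [← sub_div, abs_div, abs_of_pos hφ0, div_le_iff₀ hφ0]
    refine hl.trans ?_
    have h11 : (δ * (((y2 : ℝ) - y1) / (Nat.totient q : ℝ)) + H / L ^ A / 4) * (Nat.totient q : ℝ) =
        δ * ((y2 : ℝ) - y1) + H / L ^ A / 4 * (Nat.totient q : ℝ) := by field_simp
    rw [h11]
    have h12 : (H : ℝ) / L ^ (A + 1) ≤ H / L ^ A / 4 := by
      rw [pow_succ, ← div_div]
      apply div_le_div_of_nonneg_left (by positivity) (by norm_num) hL4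
    have h13 : H / L ^ A / 4 ≤ H / L ^ A / 4 * (Nat.totient q : ℝ) := le_mul_of_one_le_right (by positivity) hφ1
    linarith
  have e1 : Real.log H * (piAP y2 q a - piAP y1 q a) - ((y2 : ℝ) - y1) / (Nat.totient q : ℝ) =
      L * (piAP y2 q a - lis y2 / (Nat.totient q : ℝ)) - L * (piAP y1 q a - lis y1 / (Nat.totient q : ℝ)) +
      (L * (lis y2 - lis y1) / (Nat.totient q : ℝ) - ((y2 : ℝ) - y1) / (Nat.totient q : ℝ)) := by
    ring
  rw [e1]
  have q1 : |L * (piAP y2 q a - lis y2 / (Nat.totient q : ℝ))| ≤ H / L ^ A / 4 := by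
    rw [abs_mul, abs_of_pos hL0]; exact p2
  have q2 : |L * (piAP y1 q a - lis y1 / (Nat.totient q : ℝ))| ≤ H / L ^ A / 4 := by
    rw [abs_mul, abs_of_pos hL0]; exact p1
  have q3 : 0 ≤ H / L ^ A := by positivity
  calc _ ≤ |L * (piAP y2 q a - lis y2 / (Nat.totient q : ℝ)) - L * (piAP y1 q a - lis y1 / (Nat.totient q : ℝ))| +
        |L * (lis y2 - lis y1) / (Nat.totient q : ℝ) - ((y2 : ℝ) - y1) / (Nat.totient q : ℝ)| := abs_add_le _ _
    _ ≤ (|L * (piAP y2 q a - lis y2 / (Nat.totient q : ℝ))| + |L * (piAP y1 q a - lis y1 / (Nat.totient q : ℝ))|) +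
        |L * (lis y2 - lis y1) / (Nat.totient q : ℝ) - ((y2 : ℝ) - y1) / (Nat.totient q : ℝ)| := by
        gcongr
        exact abs_sub _ _
    _ ≤ _ := by linarith

end Pool.Agent.Helper82K9.PR
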