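import Mathlib

set_option autoImplicit false

/-! Boxes of polynomials and their shifts by polynomials which vanish at given points. -/

namespace Pool.Agent.Helper82K9.PR

open Finset

/-- the box of the integer vectors `(a₀, ..., a_d)` with `|a_i| ≤ H` -/
noncomputable def Bx (d H : ℕ) : Finset (Fin (d + 1) → ℤ) := Fintype.piFinset (fun _ => Icc (-(H : ℤ)) H)

/-- the value at `n` of the polynomial with the coefficients `a₀, ..., a_d` -/
def pv {d : ℕ} (a : Fin (d + 1) → ℤ) (n : ℕ) : ℤ := ∑ i, a i * (n : ℤ) ^ (i : ℕ)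

lemma cardI (H : ℕ) : (((Icc (-(H : ℤ)) H).card : ℕ) : ℝ) = 2 * H + 1 := by
  rw [Int.card_Icc]
  have : ((H : ℤ) + 1 - -(H : ℤ)).toNat = 2 * H + 1 := by omega
  rw [this]; push_cast; ring

lemma card_Bx (d H : ℕ) : (((Bx d H).card : ℕ) : ℝ) = (2 * H + 1) ^ (d + 1) := by
  unfold Bx
  rw [Fintype.card_piFinset, prod_const, card_univ, Fintype.card_fin]
  push_cast
  rw [cardI]

/-- the polynomials of the box with one coefficient in a given set -/
lemma card_coord (d H : ℕ) (i : Fin (d + 1)) (A : Finset ℤ) :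
    (((Bx d H).filter (fun v => v i ∈ A)).card : ℝ) ≤ A.card * (2 * H + 1) ^ d := by
  classical
  have h1 : (Bx d H).filter (fun v => v i ∈ A) ⊆ Fintype.piFinset (fun j => if j = i then A else Icc (-(H : ℤ)) H) := by
    intro v hv
    rw [mem_filter] at hv
    unfold Bx at hv
    rw [Fintype.mem_piFinset] at hv ⊢
    intro j
    by_cases hj : j = i
    · rw [if_pos hj, hj]; exact hv.2
    · rw [if_neg hj]; exact hv.1 j
  have h2 := card_le_card h1
  rw [Fintype.card_piFinset] at h2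
  have e1 : ∏ j : Fin (d + 1), (if j = i then A else Icc (-(H : ℤ)) H).card =
      ∏ j : Fin (d + 1), (if j = i then A.card else (Icc (-(H : ℤ)) H).card) := by
    apply prod_congr rfl
    intro j _
    split_ifs <;> rfl
  rw [e1, ← mul_prod_erase univ _ (mem_univ i), if_pos rfl] at h2
  rw [prod_congr rfl (fun j hj => if_neg (ne_of_mem_erase hj)), prod_const, card_erase_of_mem (mem_univ _),
    card_univ, Fintype.card_fin, Nat.add_sub_cancel] at h2
  calc (((Bx d H).filter (fun v => v i ∈ A)).card : ℝ) ≤ ((A.card * (Icc (-(H : ℤ)) H).card ^ d : ℕ) : ℝ) := by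
        exact_mod_cast h2
    _ = _ := by
        push_cast
        rw [cardI]

/-- shifting a sum over a box -/
lemma box_shift (d H : ℕ) (φ : (Fin (d + 1) → ℤ) → ℂ) (hφ : ∀ v, ‖φ v‖ ≤ 1) (σ : Fin (d + 1) → ℤ) (B : ℝ)
    (hσ : ∀ i, |(σ i : ℝ)| ≤ B) :
    ‖∑ v ∈ Bx d H, φ v - ∑ v ∈ Bx d H, φ (v + σ)‖ ≤ 2 * ((d + 1) * B * (2 * H + 1) ^ d) := by
  classical
  set S := Bx d H with hS
  set T := (Bx d H).image (fun v => v + σ) with hT
  have hinj : Function.Injective (fun v : Fin (d + 1) → ℤ => v + σ) := fun a b hab => by simpa using hab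
  have e1 : ∑ v ∈ S, φ (v + σ) = ∑ v ∈ T, φ v := by
    rw [hT, sum_image (fun a _ b _ hab => hinj hab)]
  have hcard : T.card = S.card := card_image_of_injective _ hinj
  rw [e1]
  have e2 : ∑ a ∈ S, φ a - ∑ a ∈ T, φ a = ∑ a ∈ S \ T, φ a - ∑ a ∈ T \ S, φ a := by
    have h1 := sum_inter_add_sum_sdiff S T φ
    have h2 := sum_inter_add_sum_sdiff T S φ
    rw [inter_comm] at h2
    rw [← h1, ← h2]; ring
  have b1 : ∀ U : Finset (Fin (d + 1) → ℤ), ‖∑ a ∈ U, φ a‖ ≤ U.card := by
    intro U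
    refine (norm_sum_le _ _).trans ((sum_le_sum fun a _ => hφ a).trans ?_)
    simp
  have hc : (T \ S).card = (S \ T).card := by
    have h1 := card_sdiff_add_card_inter S T
    have h2 := card_sdiff_add_card_inter T S
    rw [inter_comm] at h2
    omega
  have c1 : (((S \ T).card : ℕ) : ℝ) ≤ (d + 1) * B * (2 * H + 1) ^ d := by
    have hsub : S \ T ⊆ univ.biUnion (fun i : Fin (d + 1) => S.filter (fun v => v i ∈
        (Icc (-(H : ℤ)) H).filter (fun a => a - σ i ∉ Icc (-(H : ℤ)) H))) := by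
      intro v hv
      rw [mem_sdiff] at hv
      have h1 : v - σ ∉ S := by
        intro h
        exact hv.2 (mem_image.2 ⟨v - σ, h, by simp⟩)
      have hv1 := hv.1
      rw [hS] at h1 hv1
      unfold Bx at h1 hv1
      rw [Fintype.mem_piFinset] at h1 hv1
      push Not at h1
      obtain ⟨i, hi⟩ := h1
      rw [mem_biUnion]
      exact ⟨i, mem_univ _, mem_filter.2 ⟨hv.1, mem_filter.2 ⟨hv1 i, hi⟩⟩⟩
    have h2 : ∀ i : Fin (d + 1), (((S.filter (fun v => v i ∈
        (Icc (-(H : ℤ)) H).filter (fun a => a - σ i ∉ Icc (-(H : ℤ)) H))).card : ℕ) : ℝ) ≤ B * (2 * H + 1) ^ d := by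
      intro i
      refine (card_coord d H i _).trans ?_
      apply mul_le_mul_of_nonneg_right _ (by positivity)
      refine le_trans ?_ (hσ i)
      have h3 : ((Icc (-(H : ℤ)) H).filter (fun a => a - σ i ∉ Icc (-(H : ℤ)) H)).card ≤ (σ i).natAbs := by
        rcases le_total 0 (σ i) with h0 | h0
        · have : (Icc (-(H : ℤ)) H).filter (fun a => a - σ i ∉ Icc (-(H : ℤ)) H) ⊆ Ico (-(H : ℤ)) (-(H : ℤ) + σ i) := by
            intro a ha
            rw [mem_filter, mem_Icc, mem_Icc] at ha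
            rw [mem_Ico]; omega
          refine (card_le_card this).trans ?_
          rw [Int.card_Ico]; omega
        · have : (Icc (-(H : ℤ)) H).filter (fun a => a - σ i ∉ Icc (-(H : ℤ)) H) ⊆ Ioc ((H : ℤ) + σ i) H := by
            intro a ha
            rw [mem_filter, mem_Icc, mem_Icc] at ha
            rw [mem_Ioc]; omega
          refine (card_le_card this).trans ?_
          rw [Int.card_Ioc]; omega
      calc ((((Icc (-(H : ℤ)) H).filter (fun a => a - σ i ∉ Icc (-(H : ℤ)) H)).card : ℕ) : ℝ) ≤ (((σ i).natAbs : ℕ) : ℝ) := by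
            exact_mod_cast h3
        _ = _ := by
            rw [Nat.cast_natAbs, Int.cast_abs]
    calc (((S \ T).card : ℕ) : ℝ) ≤ ((∑ i : Fin (d + 1), (S.filter (fun v => v i ∈
        (Icc (-(H : ℤ)) H).filter (fun a => a - σ i ∉ Icc (-(H : ℤ)) H))).card : ℕ) : ℝ) := by
          exact_mod_cast (card_le_card hsub).trans card_biUnion_le
      _ ≤ ∑ i : Fin (d + 1), B * (2 * H + 1) ^ d := by
          push_cast
          exact sum_le_sum fun i _ => h2 i
      _ = _ := by
          rw [sum_const, card_univ, Fintype.card_fin, nsmul_eq_mul]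
          push_cast
          ring
  rw [e2]
  refine (norm_sub_le _ _).trans ?_
  have h3 := b1 (S \ T)
  have h4 := b1 (T \ S)
  rw [hc] at h4
  linarith

/-- the coefficients of a product of linear factors -/
lemma coeff_bound {ι : Type} (s : Finset ι) (t : ι → ℤ) (y : ℕ) (hy : ∀ i ∈ s, |t i| ≤ y) (j : ℕ) :
    |(∏ i ∈ s, (Polynomial.X - Polynomial.C (t i))).coeff j| ≤ (1 + (y : ℤ)) ^ s.card := by
  classical
  induction s using Finset.induction_on generalizing j with
  | empty =>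
    rw [prod_empty, card_empty, pow_zero, Polynomial.coeff_one]
    split_ifs <;> simp
  | insert a s ha ih =>
    rw [prod_insert ha, card_insert_of_notMem ha, pow_succ]
    have h1 : ∀ i ∈ s, |t i| ≤ y := fun i hi => hy i (mem_insert_of_mem hi)
    have h2 := hy a (mem_insert_self _ _)
    have h3 : (0 : ℤ) ≤ (1 + (y : ℤ)) ^ s.card := by positivity
    rw [sub_mul, Polynomial.coeff_sub, Polynomial.coeff_C_mul]
    have h4 : |(Polynomial.X * ∏ i ∈ s, (Polynomial.X - Polynomial.C (t i))).coeff j| ≤ (1 + (y : ℤ)) ^ s.card := by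
      cases j with
      | zero => simp [h3]
      | succ j => rw [Polynomial.coeff_X_mul]; exact ih h1 j
    have h5 : |t a * (∏ i ∈ s, (Polynomial.X - Polynomial.C (t i))).coeff j| ≤ y * (1 + (y : ℤ)) ^ s.card := by
      rw [abs_mul]
      exact mul_le_mul h2 (ih h1 j) (abs_nonneg _) (by positivity)
    calc _ ≤ |(Polynomial.X * ∏ i ∈ s, (Polynomial.X - Polynomial.C (t i))).coeff j| +
          |t a * (∏ i ∈ s, (Polynomial.X - Polynomial.C (t i))).coeff j| := abs_sub _ _
      _ ≤ (1 + (y : ℤ)) ^ s.card + y * (1 + (y : ℤ)) ^ s.card := add_le_add h4 h5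
      _ = _ := by ring

/-- a polynomial with small coefficients which vanishes at given points -/
lemma vanish {ι : Type} (d : ℕ) (s : Finset ι) (hs : s.card ≤ d) (t : ι → ℤ) (y : ℕ) (hy : ∀ i ∈ s, |t i| ≤ y) :
    ∃ r : Fin (d + 1) → ℤ, (∀ i, |(r i : ℝ)| ≤ (1 + (y : ℝ)) ^ s.card) ∧ ∀ z : ℕ, pv r z = ∏ i ∈ s, ((z : ℤ) - t i) := by
  classical
  refine ⟨fun j => (∏ i ∈ s, (Polynomial.X - Polynomial.C (t i))).coeff j, fun i => ?_, fun z => ?_⟩
  · have := coeff_bound s t y hy i
    rw [← Int.cast_abs]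
    calc ((|(∏ i ∈ s, (Polynomial.X - Polynomial.C (t i))).coeff i| : ℤ) : ℝ) ≤ (((1 + (y : ℤ)) ^ s.card : ℤ) : ℝ) := by
          exact_mod_cast this
      _ = _ := by push_cast; ring
  · have hdeg : (∏ i ∈ s, (Polynomial.X - Polynomial.C (t i))).natDegree < d + 1 := by
      have := Polynomial.natDegree_prod_le s (fun i => (Polynomial.X - Polynomial.C (t i)))
      have h2 : ∑ i ∈ s, (Polynomial.X - Polynomial.C (t i)).natDegree = s.card := by
        rw [sum_congr rfl fun i _ => Polynomial.natDegree_X_sub_C (t i), sum_const, smul_eq_mul, mul_one]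
      omega
    have h1 := Polynomial.eval_eq_sum_range' hdeg (z : ℤ)
    rw [Polynomial.eval_prod] at h1
    unfold pv
    refine (Fin.sum_univ_eq_sum_range (fun j => (∏ i ∈ s, (Polynomial.X - Polynomial.C (t i))).coeff j * (z : ℤ) ^ j)
      (d + 1)).trans ?_
    rw [← h1]
    refine prod_congr rfl fun i _ => ?_
    rw [Polynomial.eval_sub, Polynomial.eval_X, Polynomial.eval_C]

lemma pv_smul {d : ℕ} (v r : Fin (d + 1) → ℤ) (s : ℤ) (t : ℕ) : pv (v + s • r) t = pv v t + s * pv r t := by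
  unfold pv
  rw [mul_sum, ← sum_add_distrib]
  refine sum_congr rfl fun i _ => ?_
  rw [Pi.add_apply, Pi.smul_apply, smul_eq_mul]
  ring

lemma val_bound (d H t n : ℕ) (hn : n ≤ t) (ht : 1 ≤ t) (C : ℝ) (K₀ : ℕ) (hK₀ : (d : ℝ) + 1 + max C 0 ≤ K₀) (g : ℤ)
    (hg : |(g : ℝ)| ≤ C * H * n ^ d) (v : Fin (d + 1) → ℤ) (hv : v ∈ Bx d H) :
    |pv v t + g| ≤ ((K₀ * H * t ^ d : ℕ) : ℤ) := by
  have hH0 : (0 : ℝ) ≤ H := Nat.cast_nonneg _
  have htr : (1 : ℝ) ≤ t := by exact_mod_cast ht
  unfold Bx at hv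
  rw [Fintype.mem_piFinset] at hv
  have h1 : |(pv v t : ℝ)| ≤ (d + 1) * (H * (t : ℝ) ^ d) := by
    unfold pv
    push_cast
    refine (abs_sum_le_sum_abs _ _).trans ?_
    calc ∑ i : Fin (d + 1), |(v i : ℝ) * (t : ℝ) ^ (i : ℕ)| ≤ ∑ i : Fin (d + 1), H * (t : ℝ) ^ d := by
          apply sum_le_sum
          intro i _
          rw [abs_mul, abs_of_nonneg (by positivity : (0 : ℝ) ≤ (t : ℝ) ^ (i : ℕ))]
          have h2 := hv i
          rw [mem_Icc] at h2
          have h3 : |(v i : ℝ)| ≤ H := by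
            rw [abs_le]
            exact ⟨by exact_mod_cast h2.1, by exact_mod_cast h2.2⟩
          exact mul_le_mul h3 (pow_le_pow_right₀ htr (by omega)) (by positivity) hH0
      _ = _ := by
          rw [sum_const, card_univ, Fintype.card_fin, nsmul_eq_mul]
          push_cast
          ring
  have h2 : |(g : ℝ)| ≤ max C 0 * (H * (t : ℝ) ^ d) := by
    refine hg.trans ?_
    have h3 : (n : ℝ) ^ d ≤ (t : ℝ) ^ d := pow_le_pow_left₀ (by positivity) (by exact_mod_cast hn) _
    calc C * H * (n : ℝ) ^ d ≤ max C 0 * H * (n : ℝ) ^ d := by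
          have := le_max_left C 0
          gcongr
      _ ≤ max C 0 * H * (t : ℝ) ^ d := by
          have := le_max_right C 0
          gcongr
      _ = _ := by ring
  have h3 : |((pv v t + g : ℤ) : ℝ)| ≤ ((K₀ * H * t ^ d : ℕ) : ℝ) := by
    push_cast
    refine (abs_add_le _ _).trans ?_
    calc _ ≤ (d + 1) * (H * (t : ℝ) ^ d) + max C 0 * (H * (t : ℝ) ^ d) := add_le_add h1 h2
      _ = ((d : ℝ) + 1 + max C 0) * (H * (t : ℝ) ^ d) := by ring
      _ ≤ K₀ * (H * (t : ℝ) ^ d) := mul_le_mul_of_nonneg_right hK₀ (by positivity)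
      _ = _ := by ring
  rw [← Int.cast_abs] at h3
  exact_mod_cast h3

end Pool.Agent.Helper82K9.PR
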