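import Pool.Agent.Helper82K9.PR.PR1

set_option autoImplicit false

/-! The number of the primes (up to sign) among the first terms of a progression of integers. -/

namespace Pool.Agent.Helper82K9.PR

open Finset Filter H343E

/-- the weight of the primes, up to sign -/
noncomputable def om (L : ℝ) (u : ℤ) : ℝ := if u.natAbs.Prime then L else 0

/-- the expected value of the weight in the classes modulo `q` -/
noncomputable def MM (q : ℕ) (u : ℤ) : ℝ := if Int.gcd u q = 1 then (q : ℝ) / Nat.totient q else 0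

lemma pos_count (m : ℤ) (V q : ℕ) (hq : 1 ≤ q) :
    ((((Icc 1 V).filter (fun v : ℕ => 0 < m + v * q ∧ (m + v * q).natAbs.Prime)).card : ℕ) : ℝ) =
      piAP (m + V * q).toNat q (m % q).toNat - piAP m.toNat q (m % q).toNat := by
  have hq0 : (0 : ℤ) < q := by exact_mod_cast hq
  have hVq : (0 : ℤ) ≤ (V : ℤ) * q := by positivity
  have hle : m.toNat ≤ (m + V * q).toNat := by omega
  have e1 : piAP (m + V * q).toNat q (m % q).toNat - piAP m.toNat q (m % q).toNat =
      ((((Ioc m.toNat (m + V * q).toNat).filter (fun p => p.Prime ∧ p ≡ (m % q).toNat [MOD q])).card : ℕ) : ℝ) := by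
    unfold piAP
    rw [sub_eq_iff_eq_add, ← Nat.cast_add, Nat.cast_inj, ← card_union_of_disjoint]
    · congr 1
      ext p
      simp only [mem_filter, mem_union, mem_Icc, mem_Ioc]
      constructor
      · rintro ⟨h1, h2⟩
        by_cases h3 : p ≤ m.toNat
        · exact Or.inr ⟨⟨h1.1, h3⟩, h2⟩
        · exact Or.inl ⟨⟨by omega, h1.2⟩, h2⟩
      · rintro (⟨h1, h2⟩ | ⟨h1, h2⟩)
        · exact ⟨⟨by omega, h1.2⟩, h2⟩
        · exact ⟨⟨h1.1, by omega⟩, h2⟩
    · rw [disjoint_left]
      intro p h1 h2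
      simp only [mem_filter, mem_Icc, mem_Ioc] at h1 h2
      omega
  rw [e1, Nat.cast_inj]
  apply card_bij (fun (v : ℕ) _ => (m + (v : ℤ) * q).toNat)
  · intro v hv
    rw [mem_filter, mem_Icc] at hv
    obtain ⟨⟨h1, h2⟩, h3, h4⟩ := hv
    have h5 : (v : ℤ) * q ≤ V * q := by
      apply mul_le_mul_of_nonneg_right _ hq0.le
      exact_mod_cast h2
    have h6 : (1 : ℤ) * q ≤ v * q := by
      apply mul_le_mul_of_nonneg_right _ hq0.le
      exact_mod_cast h1
    rw [mem_filter, mem_Ioc]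
    refine ⟨⟨by omega, by omega⟩, ?_, ?_⟩
    · have : (m + v * q).toNat = (m + v * q).natAbs := by omega
      rw [this]; exact h4
    · rw [← Int.natCast_modEq_iff]
      have e2 : (((m + v * q).toNat : ℕ) : ℤ) = m + v * q := Int.toNat_of_nonneg h3.le
      have e3 : (((m % q).toNat : ℕ) : ℤ) = m % q := Int.toNat_of_nonneg (Int.emod_nonneg _ hq0.ne')
      rw [e2, e3]
      unfold Int.ModEq
      rw [Int.emod_emod_of_dvd _ (dvd_refl _), Int.add_mul_emod_self_right]
  · intro v hv v' hv' h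
    rw [mem_filter] at hv hv'
    have h1 : m + (v : ℤ) * q = m + v' * q := by
      have := hv.2.1
      have := hv'.2.1
      omega
    have h2 : (v : ℤ) * q = v' * q := by linarith
    have h3 := mul_right_cancel₀ hq0.ne' h2
    exact_mod_cast h3
  · intro p hp
    rw [mem_filter, mem_Ioc] at hp
    obtain ⟨⟨h1, h2⟩, h3, h4⟩ := hp
    rw [← Int.natCast_modEq_iff] at h4
    have e3 : (((m % q).toNat : ℕ) : ℤ) = m % q := Int.toNat_of_nonneg (Int.emod_nonneg _ hq0.ne')
    rw [e3] at h4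
    have h5 : (p : ℤ) ≡ m [ZMOD q] := h4.trans (Int.mod_modEq m q)
    obtain ⟨v, hv⟩ := (Int.modEq_iff_dvd.1 h5.symm)
    have hp0 := h3.pos
    have h6 : (p : ℤ) = m + v * q := by linarith
    have h7 : m < p := by omega
    have h8 : (p : ℤ) ≤ m + V * q := by omega
    have h9 : 0 < v * (q : ℤ) := by linarith
    have h10 : 0 < v := (pos_iff_pos_of_mul_pos h9).2 hq0
    have h11 : v ≤ V := by
      have : v * (q : ℤ) ≤ V * q := by linarith
      exact le_of_mul_le_mul_right this hq0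
    refine ⟨v.toNat, ?_, ?_⟩
    · rw [mem_filter, mem_Icc]
      have h12 : ((v.toNat : ℕ) : ℤ) = v := Int.toNat_of_nonneg h10.le
      rw [h12, ← h6]
      refine ⟨⟨by omega, by omega⟩, by omega, ?_⟩
      rw [Int.natAbs_natCast]; exact h3
    · have h12 : ((v.toNat : ℕ) : ℤ) = v := Int.toNat_of_nonneg h10.le
      simp only [h12, ← h6, Int.toNat_natCast]

lemma neg_count (m : ℤ) (V q : ℕ) :
    ((Icc 1 V).filter (fun v : ℕ => m + v * q < 0 ∧ (m + v * q).natAbs.Prime)).card =
      ((Icc 1 V).filter (fun v : ℕ => 0 < (-m - (V + 1) * q) + v * q ∧ ((-m - (V + 1) * q) + v * q : ℤ).natAbs.Prime)).card := by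
  apply card_bij (fun v _ => V + 1 - v)
  · intro v hv
    rw [mem_filter, mem_Icc] at hv
    obtain ⟨⟨h1, h2⟩, h3, h4⟩ := hv
    rw [mem_filter, mem_Icc]
    have e1 : (-m - ((V : ℤ) + 1) * q) + ((V + 1 - v : ℕ) : ℤ) * q = -(m + v * q) := by
      rw [Nat.cast_sub (by omega)]
      push_cast; ring
    rw [e1, Int.natAbs_neg]
    exact ⟨by omega, by omega, h4⟩
  · intro v hv v' hv' h
    rw [mem_filter, mem_Icc] at hv hv'
    omega
  · intro v hv
    rw [mem_filter, mem_Icc] at hv
    obtain ⟨⟨h1, h2⟩, h3, h4⟩ := hv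
    refine ⟨V + 1 - v, ?_, by omega⟩
    rw [mem_filter, mem_Icc]
    have e1 : m + ((V + 1 - v : ℕ) : ℤ) * q = -((-m - ((V : ℤ) + 1) * q) + v * q) := by
      rw [Nat.cast_sub (by omega)]
      push_cast; ring
    rw [e1, Int.natAbs_neg]
    exact ⟨by omega, by omega, h4⟩

lemma sum_om (L : ℝ) (m : ℤ) (V q : ℕ) :
    ∑ v ∈ Icc 1 V, om L (m + v * q) =
      L * ((((Icc 1 V).filter (fun v : ℕ => 0 < m + v * q ∧ (m + v * q).natAbs.Prime)).card : ℕ) : ℝ) +
      L * ((((Icc 1 V).filter (fun v : ℕ => 0 < (-m - (V + 1) * q) + v * q ∧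
        ((-m - (V + 1) * q) + v * q : ℤ).natAbs.Prime)).card : ℕ) : ℝ) := by
  rw [← neg_count]
  unfold om
  rw [← sum_filter, sum_const, nsmul_eq_mul, ← mul_add, mul_comm]
  congr 1
  rw [← Nat.cast_add, Nat.cast_inj, ← card_union_of_disjoint]
  · congr 1
    ext v
    simp only [mem_filter, mem_union]
    constructor
    · rintro ⟨h1, h2⟩
      have h3 : m + (v : ℤ) * q ≠ 0 := by
        intro h
        rw [h] at h2
        exact Nat.not_prime_zero h2
      rcases lt_or_gt_of_ne h3 with h4 | h4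
      · exact Or.inr ⟨h1, h4, h2⟩
      · exact Or.inl ⟨h1, h4, h2⟩
    · rintro (⟨h1, h2, h3⟩ | ⟨h1, h2, h3⟩) <;> exact ⟨h1, h3⟩
  · rw [disjoint_left]
    intro v h1 h2
    simp only [mem_filter] at h1 h2
    omega

/-- the average of the weight of the primes over the terms of a progression -/
theorem avgp (A B : ℕ) (δ : ℝ) (hδ : 0 < δ) (hδ1 : δ ≤ 1) : ∃ H0 : ℕ, ∀ H : ℕ, H0 ≤ H → ∀ q V : ℕ, 1 ≤ q →
    (q : ℝ) ≤ Real.log H ^ B → (H : ℝ) ≤ V * Real.log H ^ B → V ≤ H → ∀ m : ℤ, |(m : ℝ)| ≤ H * Real.log H ^ B →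
    |∑ v ∈ Icc 1 V, om (Real.log H) (m + v * q) - V * MM q m| ≤ δ * (V * MM q m) + V / Real.log H ^ A := by
  obtain ⟨H1, hw⟩ := window (A + B + 1) (B + 2) δ hδ hδ1
  have hlog : Tendsto (fun n : ℕ => Real.log n) atTop atTop := Real.tendsto_log_atTop.comp tendsto_natCast_atTop_atTop
  have e1 := (Real.isLittleO_pow_log_id_atTop (n := A + 2 * B + 1)).def (show (0 : ℝ) < 1 / 6 by norm_num)
  have e2 := (tendsto_natCast_atTop_atTop (R := ℝ)).eventually e1
  obtain ⟨H0, h0⟩ := ((e2.and (hlog.eventually_ge_atTop 6)).and (eventually_ge_atTop (max H1 2))).exists_forall_of_atTop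
  refine ⟨H0, fun H hH q V hq hqH hVH hVH2 m hm => ?_⟩
  obtain ⟨⟨h1, h2⟩, h3⟩ := h0 H hH
  have hHH1 : H1 ≤ H := (le_max_left _ _).trans h3
  have hw' := hw H hHH1 q
  set L := Real.log H with hL
  have hL0 : 0 < L := by linarith
  have hL1 : 1 ≤ L := by linarith
  have hHr : (0 : ℝ) < H := by exact_mod_cast (by omega : 0 < H)
  have hq0 : (0 : ℤ) < q := by exact_mod_cast hq
  have hqr : (1 : ℝ) ≤ q := by exact_mod_cast hq
  have h4 : 6 * L ^ (A + 2 * B + 1) ≤ H := by
    simp only [id, Real.norm_eq_abs] at h1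
    rw [abs_of_nonneg (by positivity), abs_of_nonneg hHr.le] at h1
    linarith
  have hV0 : (0 : ℝ) < V := by
    by_contra hcon
    push Not at hcon
    have : (V : ℝ) * L ^ B ≤ 0 := mul_nonpos_of_nonpos_of_nonneg hcon (by positivity)
    linarith
  have hVA : H / L ^ (A + B) ≤ V / L ^ A := by
    rw [div_le_div_iff₀ (by positivity) (by positivity), pow_add]
    calc (H : ℝ) * L ^ A ≤ V * L ^ B * L ^ A := by gcongr
      _ = V * (L ^ A * L ^ B) := by ring
  have h6 : 6 * L ^ (B + 1) ≤ H / L ^ (A + B) := by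
    rw [le_div_iff₀ (by positivity)]
    calc 6 * L ^ (B + 1) * L ^ (A + B) = 6 * L ^ (A + 2 * B + 1) := by ring
      _ ≤ H := h4
  by_cases hg : Int.gcd m q = 1
  · have hMM : MM q m = (q : ℝ) / Nat.totient q := by unfold MM; rw [if_pos hg]
    have hφ0 : (0 : ℝ) < (Nat.totient q : ℝ) := by exact_mod_cast Nat.totient_pos.2 hq
    have hφ1 : (1 : ℝ) ≤ (Nat.totient q : ℝ) := by exact_mod_cast Nat.totient_pos.2 hq
    rw [sum_om, pos_count _ _ _ hq, pos_count _ _ _ hq, hMM]
    set m' : ℤ := -m - (V + 1) * q with hm'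
    -- residues
    have hres : ∀ u : ℤ, Int.gcd u q = 1 → (u % q).toNat < q ∧ (u % q).toNat.Coprime q := by
      intro u hu
      have h7 := Int.emod_nonneg u hq0.ne'
      have h8 := Int.emod_lt_of_pos u hq0
      refine ⟨by omega, ?_⟩
      have h9 : (((u % q).toNat : ℕ) : ℤ) = u % q := Int.toNat_of_nonneg h7
      unfold Nat.Coprime
      rw [← Int.gcd_natCast_natCast, h9, Int.gcd_comm]
      have e3 : u % (q : ℤ) = u + q * (-(u / q)) := by rw [Int.emod_def]; ring
      rw [e3, Int.gcd_add_mul_left_right, Int.gcd_comm]; exact hu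
    have hgm' : Int.gcd m' q = 1 := by
      rw [hm', Int.gcd_comm]
      have e3 : -m - ((V : ℤ) + 1) * q = -m + q * (-(V + 1)) := by ring
      rw [e3, Int.gcd_add_mul_left_right, Int.gcd_neg, Int.gcd_comm]
      exact hg
    obtain ⟨r1, r2⟩ := hres m hg
    obtain ⟨r1', r2'⟩ := hres m' hgm'
    have hqB : (q : ℝ) ≤ L ^ (B + 2) := hqH.trans (pow_le_pow_right₀ hL1 (by omega))
    have hVqr : (V : ℝ) * q ≤ H * L ^ B := by gcongr
    have bnd : ∀ u : ℤ, |(u : ℝ)| ≤ H * L ^ B * 4 → ((u.toNat : ℕ) : ℝ) ≤ H * L ^ (B + 2) := by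
      intro u hu
      have h7 : ((u.toNat : ℕ) : ℝ) ≤ |(u : ℝ)| := by
        have : ((u.toNat : ℕ) : ℤ) ≤ |u| := by
          rcases le_total 0 u with h | h
          · rw [Int.toNat_of_nonneg h]; exact le_abs_self u
          · rw [Int.toNat_of_nonpos h]; exact abs_nonneg u
        exact_mod_cast this
      refine h7.trans (hu.trans ?_)
      rw [pow_add]
      have : 0 ≤ (H : ℝ) * L ^ B := by positivity
      nlinarith [mul_le_mul h2 h2 (by norm_num) hL0.le]
    have hVq1 : |((m + V * q : ℤ) : ℝ)| ≤ H * L ^ B * 4 := by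
      push_cast
      have h8 : 0 ≤ (V : ℝ) * q := by positivity
      calc |(m : ℝ) + V * q| ≤ |(m : ℝ)| + |(V : ℝ) * q| := abs_add_le _ _
        _ ≤ H * L ^ B + H * L ^ B := by rw [abs_of_nonneg h8]; gcongr
        _ ≤ _ := by have : 0 ≤ (H : ℝ) * L ^ B := by positivity
                    linarith
    have hqHB : (q : ℝ) ≤ H * L ^ B := by
      have h1H : (1:ℝ) ≤ H := by exact_mod_cast (by omega : 1 ≤ H)
      nlinarith [pow_pos hL0 B]
    have hVq2 : |((m' + V * q : ℤ) : ℝ)| ≤ H * L ^ B * 4 := by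
      rw [hm']
      push_cast
      have e3 : -(m : ℝ) - (V + 1) * q + V * q = -(m + q) := by ring
      rw [e3, abs_neg]
      calc |(m : ℝ) + q| ≤ |(m : ℝ)| + |(q : ℝ)| := abs_add_le _ _
        _ ≤ H * L ^ B + H * L ^ B := by rw [abs_of_nonneg (by positivity : (0:ℝ) ≤ q)]; gcongr
        _ ≤ _ := by have : 0 ≤ (H : ℝ) * L ^ B := by positivity
                    linarith
    have hmono : ∀ u : ℤ, u.toNat ≤ (u + V * q).toNat := by
      intro u
      have : (0 : ℤ) ≤ (V : ℤ) * q := by positivity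
      omega
    have w1 := hw' (m % q).toNat hq hqB r1 r2 m.toNat (m + V * q).toNat (hmono _) (bnd _ hVq1)
    have w2 := hw' (m' % q).toNat hq hqB r1' r2' m'.toNat (m' + V * q).toNat (hmono _) (bnd _ hVq2)
    set f1 : ℝ := (((m + V * q).toNat : ℕ) : ℝ) - ((m.toNat : ℕ) : ℝ) with hf1
    set f2 : ℝ := (((m' + V * q).toNat : ℕ) : ℝ) - ((m'.toNat : ℕ) : ℝ) with hf2
    have hf : |f1 + f2 - V * q| ≤ q := by
      have h7 : |((((m + V * q).toNat : ℕ) : ℤ) - ((m.toNat : ℕ) : ℤ)) + ((((m' + V * q).toNat : ℕ) : ℤ) - ((m'.toNat : ℕ) : ℤ)) -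
          V * q| ≤ q := by
        have e4 : m' + V * q = -m - q := by rw [hm']; ring
        have e5 : m' = -m - V * q - q := by rw [hm']; ring
        rw [e4, e5]
        have h8 : (0 : ℤ) ≤ (V : ℤ) * q := by positivity
        generalize (V : ℤ) * q = w at *
        rw [abs_le]
        constructor <;> omega
      rw [hf1, hf2]
      exact_mod_cast h7
    have hq1 : (q : ℝ) / Nat.totient q ≤ q := div_le_self (by positivity) hφ1
    have e5 : (f1 + f2) / (Nat.totient q : ℝ) ≤ (V * q + q) / (Nat.totient q : ℝ) :=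
      div_le_div_of_nonneg_right (by linarith [(abs_le.1 hf).2]) hφ0.le
    have e6 : (V * q - q) / (Nat.totient q : ℝ) ≤ (f1 + f2) / (Nat.totient q : ℝ) :=
      div_le_div_of_nonneg_right (by linarith [(abs_le.1 hf).1]) hφ0.le
    have hqL : (q : ℝ) ≤ L ^ (B + 1) := hqH.trans (pow_le_pow_right₀ hL1 (by omega))
    have herr : 2 * (H / L ^ (A + B + 1)) + 2 * q ≤ V / L ^ A := by
      have h8 : H / L ^ (A + B + 1) ≤ H / L ^ (A + B) / 6 := by
        rw [pow_succ, ← div_div]
        exact div_le_div_of_nonneg_left (by positivity) (by norm_num) h2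
      have h9 : 0 ≤ H / L ^ (A + B) := by positivity
      linarith
    rw [add_div] at e5
    rw [sub_div] at e6
    obtain ⟨a1, a2⟩ := abs_le.1 w1
    obtain ⟨b1, b2⟩ := abs_le.1 w2
    rw [add_div] at e5 e6
    have e7 : (V : ℝ) * ((q : ℝ) / Nat.totient q) = V * q / (Nat.totient q : ℝ) := by ring
    rw [e7]
    have e8 : δ * (f1 / (Nat.totient q : ℝ)) + δ * (f2 / (Nat.totient q : ℝ)) ≤
        δ * (V * q / (Nat.totient q : ℝ)) + q := by
      have h9 : δ * (q / (Nat.totient q : ℝ)) ≤ 1 * q := by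
        apply mul_le_mul hδ1 hq1 (by positivity) (by norm_num)
      have h10 := mul_le_mul_of_nonneg_left e5 hδ.le
      linarith
    rw [abs_le]
    constructor
    · linarith
    · linarith
  · have hMM : MM q m = 0 := by unfold MM; rw [if_neg hg]
    rw [hMM, mul_zero, mul_zero, sub_zero, zero_add]
    have hnn : ∀ v ∈ Icc 1 V, 0 ≤ om L (m + v * q) := by
      intro v _
      unfold om
      split_ifs <;> linarith
    rw [abs_of_nonneg (sum_nonneg hnn)]
    have hsub : (Icc 1 V).filter (fun v : ℕ => (m + v * q).natAbs.Prime) ⊆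
        (Icc 1 V).filter (fun v : ℕ => (v : ℤ) ∈ Icc ((-m - q) / q) ((-m + q) / q)) := by
      intro v hv
      rw [mem_filter] at hv ⊢
      refine ⟨hv.1, ?_⟩
      set p := (m + v * q).natAbs with hp
      have hgp : Int.gcd (m + v * q) q = Int.gcd m q := by
        rw [Int.gcd_comm, mul_comm (v : ℤ) q, Int.gcd_add_mul_left_right, Int.gcd_comm]
      have h7 : Int.gcd m q ∣ p := by
        rw [← hgp, hp]
        have := Int.gcd_dvd_left (m + v * q) (q : ℤ)
        exact Int.natCast_dvd.1 this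
      have h8 : Int.gcd m q ∣ q := by
        have := Int.gcd_dvd_right m (q : ℤ)
        exact Int.natCast_dvd_natCast.1 this
      rcases (Nat.dvd_prime hv.2).1 h7 with h9 | h9
      · exact absurd h9 hg
      · rw [h9] at h8
        have h10 : p ≤ q := Nat.le_of_dvd hq h8
        rw [mem_Icc]
        constructor
        · have h11 : -m - q ≤ v * q := by omega
          calc (-m - (q : ℤ)) / q ≤ (v * q) / q := Int.ediv_le_ediv hq0 h11
            _ = v := Int.mul_ediv_cancel _ hq0.ne'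
        · rw [Int.le_ediv_iff_mul_le hq0]
          omega
    have hcard : ((Icc 1 V).filter (fun v : ℕ => (m + v * q).natAbs.Prime)).card ≤ 3 := by
      refine (card_le_card hsub).trans ?_
      have h7 : ((Icc 1 V).filter (fun v : ℕ => (v : ℤ) ∈ Icc ((-m - q) / q) ((-m + q) / q))).card ≤
          (Icc ((-m - (q : ℤ)) / q) ((-m + q) / q)).card := by
        apply card_le_card_of_injOn (fun v : ℕ => (v : ℤ))
        · intro v hv
          exact (mem_filter.1 hv).2
        · intro a _ b _ hab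
          have hab' : (a : ℤ) = b := hab
          exact_mod_cast hab'
      refine h7.trans ?_
      rw [Int.card_Icc]
      have h8 : (-m + (q : ℤ)) / q = -m / q + 1 := by
        rw [Int.add_ediv_of_dvd_right (dvd_refl _), Int.ediv_self hq0.ne']
      have h9 : (-m - (q : ℤ)) / q = -m / q - 1 := by
        rw [Int.sub_ediv_of_dvd _ (dvd_refl _), Int.ediv_self hq0.ne']
      rw [h8, h9]
      omega
    have e3 : ∑ v ∈ Icc 1 V, om L (m + v * q) =
        (((Icc 1 V).filter (fun v : ℕ => (m + v * q).natAbs.Prime)).card : ℝ) * L := by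
      unfold om
      rw [← sum_filter, sum_const, nsmul_eq_mul]
    rw [e3]
    calc (((Icc 1 V).filter (fun v : ℕ => (m + v * q).natAbs.Prime)).card : ℝ) * L ≤ 3 * L := by
          apply mul_le_mul_of_nonneg_right _ hL0.le
          exact_mod_cast hcard
      _ ≤ 6 * L ^ (B + 1) := by
          have : L ≤ L ^ (B + 1) := le_self_pow₀ hL1 (by omega)
          linarith
      _ ≤ H / L ^ (A + B) := h6
      _ ≤ V / L ^ A := hVA

end Pool.Agent.Helper82K9.PR
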