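import Pool.Agent.Helper82K9.PR.PR0
import Pool.Agent.Helper82K9.PR.PR2

set_option autoImplicit false

/-! The weights of the primes at the values of a polynomial can be replaced by their expected values in classes. -/

namespace Pool.Agent.Helper82K9.PR

open Finset Filter

lemma om_nonneg {L : ℝ} (hL : 0 ≤ L) (u : ℤ) : 0 ≤ om L u := by
  unfold om; split_ifs <;> linarith

lemma om_le {L : ℝ} (hL : 0 ≤ L) (u : ℤ) : om L u ≤ L := by
  unfold om; split_ifs <;> linarith

lemma MM_nonneg (q : ℕ) (u : ℤ) : 0 ≤ MM q u := by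
  unfold MM; split_ifs <;> positivity

lemma MM_le (q : ℕ) (u : ℤ) : MM q u ≤ q := by
  unfold MM
  split_ifs
  · rcases Nat.eq_zero_or_pos q with h | h
    · rw [h]; simp
    · apply div_le_self (by positivity)
      exact_mod_cast Nat.totient_pos.2 h
  · positivity

/-- the modulus which belongs to the point `b` -/
noncomputable def mo {ι : Type} [Fintype ι] [DecidableEq ι] (W : ℕ) (t : ι → ℕ) (b : ι) : ℕ :=
  W * (∏ a ∈ univ.erase b, ((t b : ℤ) - t a)).natAbs

lemma mo_pos {ι : Type} [Fintype ι] [DecidableEq ι] (W : ℕ) (hW : 1 ≤ W) (t : ι → ℕ) (ht : Function.Injective t) (b : ι) :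
    1 ≤ mo W t b := by
  unfold mo
  apply Nat.mul_pos hW
  apply Int.natAbs_pos.2
  rw [prod_ne_zero_iff]
  intro a ha h
  have h1 : (t b : ℤ) = t a := by linarith
  have h2 : t b = t a := by exact_mod_cast h1
  exact (ne_of_mem_erase ha) (ht h2).symm

lemma mo_le {ι : Type} [Fintype ι] [DecidableEq ι] (d W X : ℕ) (t : ι → ℕ) (hX : ∀ a, t a ≤ X) (hX1 : 1 ≤ X)
    (hc : Fintype.card ι ≤ d + 1) (b : ι) : mo W t b ≤ W * X ^ d := by
  unfold mo
  apply Nat.mul_le_mul_left
  have h1 : (∏ a ∈ univ.erase b, ((t b : ℤ) - t a)).natAbs = ∏ a ∈ univ.erase b, ((t b : ℤ) - t a).natAbs := by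
    exact map_prod Int.natAbsHom _ _
  rw [h1]
  calc ∏ a ∈ univ.erase b, ((t b : ℤ) - t a).natAbs ≤ ∏ a ∈ univ.erase b, X := by
        apply prod_le_prod' 
        intro a _
        have h2 := hX a
        have h3 := hX b
        omega
    _ = X ^ (univ.erase b).card := by rw [prod_const]
    _ ≤ X ^ d := by
        apply Nat.pow_le_pow_right hX1
        rw [card_erase_of_mem (mem_univ _), card_univ]
        omega

theorem one_step (d B0 A k0 : ℕ) (C δ : ℝ) (hδ : 0 < δ) (hδ1 : δ ≤ 1) : ∃ H0 : ℕ, 3 ≤ H0 ∧ ∀ H : ℕ, H0 ≤ H →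
    ∀ (ι : Type) [Fintype ι] [DecidableEq ι], Fintype.card ι ≤ d + 1 → ∀ W X : ℕ, 1 ≤ W → (W : ℝ) ≤ Real.log H →
    1 ≤ X → (X : ℝ) ≤ Real.log H ^ B0 → ∀ t : ι → ℕ, Function.Injective t → (∀ a, 1 ≤ t a ∧ t a ≤ X) →
    ∀ g : ι → ℤ, (∀ a, |(g a : ℝ)| ≤ C * H * (t a : ℝ) ^ d) → ∀ b : ι, ∀ Φ : (ι → ℤ) → ℝ, (∀ u, 0 ≤ Φ u) →
    (∀ u, Φ u ≤ Real.log H ^ k0) → (∀ u z, Φ (Function.update u b z) = Φ u) →
    |∑ v ∈ Bx d H, om (Real.log H) (pv v (t b) + g b) * Φ (fun a => pv v (t a) + g a) -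
      ∑ v ∈ Bx d H, MM (mo W t b) (pv v (t b) + g b) * Φ (fun a => pv v (t a) + g a)| ≤
      δ * ∑ v ∈ Bx d H, MM (mo W t b) (pv v (t b) + g b) * Φ (fun a => pv v (t a) + g a) +
      (Bx d H).card / Real.log H ^ A := by
  set B1 : ℕ := B0 * d + k0 + A + 4 with hB1
  obtain ⟨H1, hav⟩ := avgp (A + k0 + 1) B1 δ hδ hδ1
  have hlog : Tendsto (fun n : ℕ => Real.log n) atTop atTop := Real.tendsto_log_atTop.comp tendsto_natCast_atTop_atTop
  obtain ⟨K₀, hK₀⟩ := exists_nat_ge ((d : ℝ) + 1 + max C 0)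
  have e5 := hlog.eventually_ge_atTop (max 4 (max (K₀ : ℝ) (8 * (d + 1) * 2 ^ d)))
  have e6 := (tendsto_natCast_atTop_atTop (R := ℝ)).eventually
    ((Real.isLittleO_pow_log_id_atTop (n := B1)).def (show (0 : ℝ) < 1 by norm_num))
  obtain ⟨H0, h0⟩ := ((e5.and (eventually_ge_atTop (max H1 3))).and e6).exists_forall_of_atTop
  refine ⟨max H0 3, le_max_right _ _, fun H hH ι _ _ hcard W X hW hWH hX1 hXH t hinj ht g hg b Φ hΦ0 hΦ1 hΦi => ?_⟩
  obtain ⟨⟨h2, h3⟩, h1⟩ := h0 H ((le_max_left _ _).trans hH)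
  have hav' := hav H ((le_max_left _ _).trans h3)
  have hH3 : 3 ≤ H := (le_max_right _ _).trans h3
  set L := Real.log H with hL
  have hL4 : 4 ≤ L := (le_max_left _ _).trans h2
  have hLK : (K₀ : ℝ) ≤ L := (le_max_left _ _).trans ((le_max_right _ _).trans h2)
  have hLd : 8 * ((d : ℝ) + 1) * 2 ^ d ≤ L := (le_max_right _ _).trans ((le_max_right _ _).trans h2)
  have hL0 : 0 < L := by linarith
  have hL1 : 1 ≤ L := by linarith
  have hHr : (0 : ℝ) < H := by exact_mod_cast (by omega : 0 < H)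
  have hXr : (1 : ℝ) ≤ X := by exact_mod_cast hX1
  have hLH : L ^ B1 ≤ H := by
    simp only [id, Real.norm_eq_abs] at h1
    rw [abs_of_nonneg (by positivity), abs_of_nonneg hHr.le] at h1
    linarith
  -- the modulus
  set q := mo W t b with hq
  have hq1 : 1 ≤ q := mo_pos W hW t hinj b
  have hqle : (q : ℝ) ≤ L ^ B1 := by
    have h4 : q ≤ W * X ^ d := mo_le d W X t (fun a => (ht a).2) hX1 hcard b
    calc (q : ℝ) ≤ ((W * X ^ d : ℕ) : ℝ) := by exact_mod_cast h4
      _ = W * (X : ℝ) ^ d := by push_cast; ring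
      _ ≤ L * (L ^ B0) ^ d := by gcongr
      _ = L ^ (B0 * d + 1) := by rw [← pow_mul]; ring
      _ ≤ L ^ B1 := pow_le_pow_right₀ hL1 (by omega)
  -- the number of the shifts
  set V : ℕ := ⌈(H : ℝ) / L ^ B1⌉₊ with hV
  have hV1 : (H : ℝ) ≤ V * L ^ B1 := by
    have := Nat.le_ceil ((H : ℝ) / L ^ B1)
    rw [div_le_iff₀ (by positivity)] at this
    exact this
  have hV2 : V ≤ H := by
    rw [hV, Nat.ceil_le]
    exact div_le_self hHr.le (one_le_pow₀ hL1)
  have hV0 : (0 : ℝ) < V := by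
    by_contra hcon
    push Not at hcon
    have : (V : ℝ) * L ^ B1 ≤ 0 := mul_nonpos_of_nonpos_of_nonneg hcon (by positivity)
    linarith
  have hV3 : (V : ℝ) ≤ H / L ^ B1 + 1 := (Nat.ceil_lt_add_one (by positivity)).le
  -- the polynomial which vanishes at the other points
  obtain ⟨r, hr1, hr2⟩ := vanish d (univ.erase b) (by
    rw [card_erase_of_mem (mem_univ _), card_univ]; omega) (fun a => (t a : ℤ)) X (by
    intro a _
    rw [abs_of_nonneg (by positivity)]
    exact_mod_cast (ht a).2)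
  obtain ⟨s, hs, hs2⟩ : ∃ s : ℤ, (s = 1 ∨ s = -1) ∧ s * (∏ a ∈ univ.erase b, ((t b : ℤ) - t a)) =
      ((∏ a ∈ univ.erase b, ((t b : ℤ) - t a)).natAbs : ℤ) := by
    rcases le_total 0 (∏ a ∈ univ.erase b, ((t b : ℤ) - t a)) with h | h
    · exact ⟨1, Or.inl rfl, by rw [one_mul, Int.natCast_natAbs, abs_of_nonneg h]⟩
    · exact ⟨-1, Or.inr rfl, by rw [Int.natCast_natAbs, abs_of_nonpos h]; ring⟩
  have hsabs : |(s : ℝ)| = 1 := by rcases hs with h | h <;> rw [h] <;> simp
  have hval : ∀ (v : Fin (d + 1) → ℤ) (c : ℕ), (fun a => pv (v + ((c : ℤ) * s * W) • r) (t a) + g a) =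
      Function.update (fun a => pv v (t a) + g a) b (pv v (t b) + g b + c * q) := by
    intro v c
    funext a
    rw [pv_smul, hr2]
    by_cases hab : a = b
    · subst hab
      rw [Function.update_self]
      have h5 : (q : ℤ) = W * (s * ∏ a' ∈ univ.erase a, ((t a : ℤ) - t a')) := by
        rw [hs2, hq]; unfold mo; push_cast; ring
      rw [h5]; ring
    · rw [Function.update_of_ne hab, prod_eq_zero (mem_erase.2 ⟨hab, mem_univ a⟩) (sub_self _), mul_zero, add_zero]
  -- the sum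
  set S : ℝ := ∑ v ∈ Bx d H, om L (pv v (t b) + g b) * Φ (fun a => pv v (t a) + g a) with hS
  set T : ℝ := ∑ v ∈ Bx d H, MM q (pv v (t b) + g b) * Φ (fun a => pv v (t a) + g a) with hT
  set K1 : ℝ := L ^ k0 with hK1
  have hK1p : 0 < K1 := by positivity
  set N : ℝ := ((Bx d H).card : ℝ) with hN
  have hshift : ∀ c ∈ Icc 1 V, |S - ∑ v ∈ Bx d H, om L (pv v (t b) + g b + c * q) * Φ (fun a => pv v (t a) + g a)| ≤
      (L * K1) * (2 * ((d + 1) * (V * W * (1 + (X : ℝ)) ^ d) * (2 * H + 1) ^ d)) := by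
    intro c hc
    rw [mem_Icc] at hc
    have hb := box_shift d H (fun v => (((om L (pv v (t b) + g b) * Φ (fun a => pv v (t a) + g a)) / (L * K1) : ℝ) : ℂ)) (by
      intro v
      rw [Complex.norm_real, Real.norm_of_nonneg (div_nonneg (mul_nonneg (om_nonneg hL0.le _) (hΦ0 _)) (by positivity)),
        div_le_one (by positivity)]
      exact mul_le_mul (om_le hL0.le _) (hΦ1 _) (hΦ0 _) hL0.le) (((c : ℤ) * s * W) • r) (V * W * (1 + (X : ℝ)) ^ d) (by
      intro i
      rw [Pi.smul_apply, smul_eq_mul]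
      push_cast
      rw [abs_mul, abs_mul, abs_mul, hsabs, mul_one, abs_of_nonneg (by positivity : (0:ℝ) ≤ c),
        abs_of_nonneg (by positivity : (0:ℝ) ≤ W)]
      have h6 : (c : ℝ) ≤ V := by exact_mod_cast hc.2
      have h7 := hr1 i
      have h8 : (1 + (X : ℝ)) ^ (univ.erase b).card ≤ (1 + (X : ℝ)) ^ d := by
        apply pow_le_pow_right₀ (by linarith)
        rw [card_erase_of_mem (mem_univ _), card_univ]; omega
      have h9 := h7.trans h8
      gcongr)
    have e1 : ∀ w : Fin (d + 1) → ℤ, w = w := fun _ => rfl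
    have e2 : ∑ v ∈ Bx d H, (((om L (pv v (t b) + g b) * Φ (fun a => pv v (t a) + g a)) / (L * K1) : ℝ) : ℂ) -
        ∑ v ∈ Bx d H, (((om L (pv (v + ((c : ℤ) * s * W) • r) (t b) + g b) *
          Φ (fun a => pv (v + ((c : ℤ) * s * W) • r) (t a) + g a)) / (L * K1) : ℝ) : ℂ) =
        (((S - ∑ v ∈ Bx d H, om L (pv v (t b) + g b + c * q) * Φ (fun a => pv v (t a) + g a)) / (L * K1) : ℝ) : ℂ) := by
      rw [← Complex.ofReal_sum, ← Complex.ofReal_sum, ← Complex.ofReal_sub, ← sum_div, ← sum_div, ← sub_div]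
      congr 3
      apply sum_congr rfl
      intro v _
      have h10 := hval v c
      rw [h10, hΦi]
      have h11 := congrFun h10 b
      simp only [Function.update_self] at h11
      rw [h11]
    rw [e2, Complex.norm_real, Real.norm_eq_abs, abs_div, abs_of_pos (by positivity : 0 < L * K1),
      div_le_iff₀ (by positivity)] at hb
    rw [mul_comm (L * K1)]
    exact hb
  -- the average over the shifts
  have hX2 : (X : ℝ) ^ d ≤ L ^ (B0 * d) := by
    rw [pow_mul]; exact pow_le_pow_left₀ (by positivity) hXH d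
  have hinner : ∀ v ∈ Bx d H, |(∑ c ∈ Icc 1 V, om L (pv v (t b) + g b + c * q)) * Φ (fun a => pv v (t a) + g a) -
      V * (MM q (pv v (t b) + g b) * Φ (fun a => pv v (t a) + g a))| ≤
      δ * (V * (MM q (pv v (t b) + g b) * Φ (fun a => pv v (t a) + g a))) + V / L ^ (A + 1) := by
    intro v hv
    have h6 := val_bound d H (t b) (t b) le_rfl (ht b).1 C K₀ hK₀ (g b) (hg b) v hv
    have h7 : |((pv v (t b) + g b : ℤ) : ℝ)| ≤ H * L ^ B1 := by
      rw [← Int.cast_abs]
      calc ((|pv v (t b) + g b| : ℤ) : ℝ) ≤ (((K₀ * H * t b ^ d : ℕ) : ℤ) : ℝ) := by exact_mod_cast h6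
        _ = K₀ * H * (t b : ℝ) ^ d := by push_cast; ring
        _ ≤ L * H * (L ^ B0) ^ d := by
            have h8 : (t b : ℝ) ≤ L ^ B0 := le_trans (by exact_mod_cast (ht b).2) hXH
            gcongr
        _ = H * L ^ (B0 * d + 1) := by rw [← pow_mul]; ring
        _ ≤ H * L ^ B1 := by
            apply mul_le_mul_of_nonneg_left _ hHr.le
            exact pow_le_pow_right₀ hL1 (by omega)
    have h8 := hav' q V hq1 hqle hV1 hV2 (pv v (t b) + g b) h7
    set φ := Φ (fun a => pv v (t a) + g a) with hφ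
    have hφ0 : 0 ≤ φ := hΦ0 _
    have hφ1 : φ ≤ L ^ k0 := hΦ1 _
    have e1 : (∑ c ∈ Icc 1 V, om L (pv v (t b) + g b + c * q)) * φ - V * (MM q (pv v (t b) + g b) * φ) =
        (∑ c ∈ Icc 1 V, om L (pv v (t b) + g b + c * q) - V * MM q (pv v (t b) + g b)) * φ := by ring
    rw [e1, abs_mul, abs_of_nonneg hφ0]
    calc _ ≤ (δ * (V * MM q (pv v (t b) + g b)) + V / L ^ (A + k0 + 1)) * φ := mul_le_mul_of_nonneg_right h8 hφ0
      _ = δ * (V * (MM q (pv v (t b) + g b) * φ)) + V / L ^ (A + k0 + 1) * φ := by ring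
      _ ≤ δ * (V * (MM q (pv v (t b) + g b) * φ)) + V / L ^ (A + k0 + 1) * L ^ k0 := by gcongr
      _ = _ := by
          congr 1
          have : L ^ (A + k0 + 1) = L ^ (A + 1) * L ^ k0 := by rw [← pow_add]; congr 1; omega
          rw [this]; field_simp
  have hswap : ∑ c ∈ Icc 1 V, ∑ v ∈ Bx d H, om L (pv v (t b) + g b + c * q) * Φ (fun a => pv v (t a) + g a) =
      ∑ v ∈ Bx d H, (∑ c ∈ Icc 1 V, om L (pv v (t b) + g b + c * q)) * Φ (fun a => pv v (t a) + g a) := by
    rw [sum_comm]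
    apply sum_congr rfl
    intro v _
    rw [sum_mul]
  set E : ℝ := (L * K1) * (2 * ((d + 1) * (V * W * (1 + (X : ℝ)) ^ d) * (2 * H + 1) ^ d)) with hE
  have f1 : |V * S - ∑ c ∈ Icc 1 V, ∑ v ∈ Bx d H, om L (pv v (t b) + g b + c * q) * Φ (fun a => pv v (t a) + g a)| ≤ V * E := by
    have e1 : V * S = ∑ c ∈ Icc 1 V, S := by rw [sum_const, Nat.card_Icc, Nat.add_sub_cancel, nsmul_eq_mul]
    rw [e1, ← sum_sub_distrib]
    refine (abs_sum_le_sum_abs _ _).trans ((sum_le_sum hshift).trans (le_of_eq ?_))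
    rw [sum_const, Nat.card_Icc, Nat.add_sub_cancel, nsmul_eq_mul]
  have f2 : |∑ c ∈ Icc 1 V, ∑ v ∈ Bx d H, om L (pv v (t b) + g b + c * q) * Φ (fun a => pv v (t a) + g a) - V * T| ≤
      δ * (V * T) + N * (V / L ^ (A + 1)) := by
    rw [hswap, hT, mul_sum, ← sum_sub_distrib]
    refine (abs_sum_le_sum_abs _ _).trans ((sum_le_sum hinner).trans (le_of_eq ?_))
    rw [sum_add_distrib, ← mul_sum, sum_const, nsmul_eq_mul]
  have f3 : |V * S - V * T| ≤ V * (δ * T + (N / L ^ (A + 1) + E)) := by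
    calc |V * S - V * T| ≤ V * E + (δ * (V * T) + N * (V / L ^ (A + 1))) := (abs_sub_le _ _ _).trans (add_le_add f1 f2)
      _ = _ := by ring
  have f4 : |S - T| ≤ δ * T + (N / L ^ (A + 1) + E) := by
    rw [← mul_sub, abs_mul, abs_of_pos hV0] at f3
    exact le_of_mul_le_mul_left f3 hV0
  -- the boundary
  have hEN : E ≤ N / L ^ (A + 1) := by
    rw [hE, hN, card_Bx, le_div_iff₀ (by positivity), pow_succ (2 * (H : ℝ) + 1) d]
    have h6 : (V : ℝ) ≤ 2 * (H / L ^ B1) := by
      have h7 : (1 : ℝ) ≤ H / L ^ B1 := by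
        rw [le_div_iff₀ (by positivity), one_mul]; exact hLH
      linarith
    have h9 : (1 + (X : ℝ)) ^ d ≤ 2 ^ d * L ^ (B0 * d) := by
      calc (1 + (X : ℝ)) ^ d ≤ (2 * X) ^ d := by gcongr; linarith
        _ = 2 ^ d * (X : ℝ) ^ d := mul_pow _ _ _
        _ ≤ _ := by gcongr
    have h10 : L * K1 * (2 * ((d + 1) * (V * W * (1 + (X : ℝ)) ^ d))) * L ^ (A + 1) ≤ 2 * H + 1 := by
      calc L * K1 * (2 * ((d + 1) * (V * W * (1 + (X : ℝ)) ^ d))) * L ^ (A + 1)
          ≤ L * L ^ k0 * (2 * ((d + 1) * (2 * (H / L ^ B1) * L * (2 ^ d * L ^ (B0 * d))))) * L ^ (A + 1) := by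
            gcongr
        _ = (4 * (d + 1) * 2 ^ d) * L ^ (B0 * d + k0 + A + 3) * (H / L ^ B1) := by ring
        _ ≤ L * L ^ (B0 * d + k0 + A + 3) * (H / L ^ B1) := by
            have : 4 * ((d : ℝ) + 1) * 2 ^ d ≤ L := by
              have : 0 ≤ ((d : ℝ) + 1) * 2 ^ d := by positivity
              linarith
            gcongr
        _ = H := by
            have : L * L ^ (B0 * d + k0 + A + 3) = L ^ B1 := by rw [hB1, ← pow_succ']
            rw [this]; field_simp
        _ ≤ 2 * H + 1 := by linarith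
    calc L * K1 * (2 * ((d + 1) * (V * W * (1 + (X : ℝ)) ^ d) * (2 * H + 1) ^ d)) * L ^ (A + 1)
        = (L * K1 * (2 * ((d + 1) * (V * W * (1 + (X : ℝ)) ^ d))) * L ^ (A + 1)) * (2 * H + 1) ^ d := by ring
      _ ≤ (2 * H + 1) * (2 * H + 1) ^ d := by gcongr
      _ = _ := by ring
  refine f4.trans ?_
  have h11 : N / L ^ (A + 1) + E ≤ N / L ^ A := by
    have h12 : N / L ^ (A + 1) ≤ N / L ^ A / 4 := by
      rw [pow_succ, ← div_div]
      apply div_le_div_of_nonneg_left (by positivity) (by norm_num) hL4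
    have h13 : 0 ≤ N / L ^ A := by positivity
    linarith
  linarith

/-- the product of the factors, those with index in `s` being the weights of the primes -/
noncomputable def PA {ι : Type} [Fintype ι] [DecidableEq ι] (L : ℝ) (s : Finset ι) (f : ι → ℤ → ℝ) (u : ι → ℤ) : ℝ :=
  ∏ a, (if a ∈ s then om L (u a) else f a (u a))

/-- the product of the factors, those with index in `s` being the expected values of the weights of the primes -/
noncomputable def PB {ι : Type} [Fintype ι] [DecidableEq ι] (W : ℕ) (t : ι → ℕ) (s : Finset ι) (f : ι → ℤ → ℝ)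
    (u : ι → ℤ) : ℝ := ∏ a, (if a ∈ s then MM (mo W t a) (u a) else f a (u a))

theorem multi (d B0 A : ℕ) (C δ : ℝ) (hδ : 0 < δ) (hδ1 : δ ≤ 1) : ∃ H0 : ℕ, 3 ≤ H0 ∧ ∀ H : ℕ, H0 ≤ H →
    ∀ (ι : Type) [Fintype ι] [DecidableEq ι], Fintype.card ι ≤ d + 1 → ∀ W X : ℕ, 1 ≤ W → (W : ℝ) ≤ Real.log H →
    1 ≤ X → (X : ℝ) ≤ Real.log H ^ B0 → ∀ t : ι → ℕ, Function.Injective t → (∀ a, 1 ≤ t a ∧ t a ≤ X) →
    ∀ g : ι → ℤ, (∀ a, |(g a : ℝ)| ≤ C * H * (t a : ℝ) ^ d) → ∀ s : Finset ι, ∀ f : ι → ℤ → ℝ, (∀ a u, 0 ≤ f a u) →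
    (∀ a u, f a u ≤ Real.log H ^ (B0 * d + 1)) →
    |∑ v ∈ Bx d H, PA (Real.log H) s f (fun a => pv v (t a) + g a) -
      ∑ v ∈ Bx d H, PB W t s f (fun a => pv v (t a) + g a)| ≤
      ((1 + δ) ^ s.card - 1) * ∑ v ∈ Bx d H, PB W t s f (fun a => pv v (t a) + g a) +
      (2 ^ s.card - 1) * ((Bx d H).card / Real.log H ^ A) := by
  obtain ⟨H0, hH03, hos⟩ := one_step d B0 A ((B0 * d + 1) * (d + 1)) C δ hδ hδ1
  refine ⟨H0, hH03, fun H hH ι _ _ hcard W X hW hWH hX1 hXH t hinj ht g hg s => ?_⟩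
  have hos' := hos H hH ι hcard W X hW hWH hX1 hXH t hinj ht g hg
  have hH3 : 3 ≤ H := hH03.trans hH
  set L := Real.log H with hL
  have hW1 : (1 : ℝ) ≤ W := by exact_mod_cast hW
  have hL1 : 1 ≤ L := hW1.trans hWH
  have hL0 : 0 < L := by linarith
  set K := L ^ (B0 * d + 1) with hK
  have hK1 : 1 ≤ K := one_le_pow₀ hL1
  have hLK : L ≤ K := le_self_pow₀ hL1 (by omega)
  have hMMK : ∀ b u, MM (mo W t b) u ≤ K := by
    intro b u
    refine (MM_le _ _).trans ?_
    have h4 : mo W t b ≤ W * X ^ d := mo_le d W X t (fun a => (ht a).2) hX1 hcard b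
    calc ((mo W t b : ℕ) : ℝ) ≤ ((W * X ^ d : ℕ) : ℝ) := by exact_mod_cast h4
      _ = W * (X : ℝ) ^ d := by push_cast; ring
      _ ≤ L * (L ^ B0) ^ d := by gcongr
      _ = K := by rw [← pow_mul, hK]; ring
  induction s using Finset.induction_on with
  | empty =>
    intro f hf0 hf1
    unfold PA PB
    simp
  | insert b s hb ih =>
    intro f hf0 hf1
    set Φ : (ι → ℤ) → ℝ := fun u => ∏ a ∈ univ.erase b, (if a ∈ s then om L (u a) else f a (u a)) with hΦ
    have hΦ0 : ∀ u, 0 ≤ Φ u := by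
      intro u
      apply prod_nonneg
      intro a _
      split_ifs
      · exact om_nonneg hL0.le _
      · exact hf0 _ _
    have hΦ1 : ∀ u, Φ u ≤ L ^ ((B0 * d + 1) * (d + 1)) := by
      intro u
      calc Φ u ≤ ∏ a ∈ univ.erase b, K := by
            apply Finset.prod_le_prod
            · intro a _
              split_ifs
              · exact om_nonneg hL0.le _
              · exact hf0 _ _
            · intro a _
              split_ifs
              · exact (om_le hL0.le _).trans hLK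
              · exact hf1 _ _
        _ = K ^ (univ.erase b).card := by rw [prod_const]
        _ ≤ K ^ (d + 1) := by
            apply pow_le_pow_right₀ hK1
            rw [card_erase_of_mem (mem_univ _), card_univ]; omega
        _ = _ := by rw [hK, ← pow_mul]
    have hΦi : ∀ u z, Φ (Function.update u b z) = Φ u := by
      intro u z
      apply prod_congr rfl
      intro a ha
      rw [Function.update_of_ne (ne_of_mem_erase ha)]
    have h1 := hos' b Φ hΦ0 hΦ1 hΦi
    set f' : ι → ℤ → ℝ := Function.update f b (MM (mo W t b)) with hf'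
    have e1 : ∀ u : ι → ℤ, PA L (insert b s) f u = om L (u b) * Φ u := by
      intro u
      unfold PA
      rw [← mul_prod_erase univ _ (mem_univ b), if_pos (mem_insert_self _ _)]
      congr 1
      apply prod_congr rfl
      intro a ha
      have hab := ne_of_mem_erase ha
      simp only [mem_insert, hab, false_or]
    have e2 : ∀ u : ι → ℤ, PA L s f' u = MM (mo W t b) (u b) * Φ u := by
      intro u
      unfold PA
      rw [← mul_prod_erase univ _ (mem_univ b), if_neg hb, hf', Function.update_self]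
      congr 1
      apply prod_congr rfl
      intro a ha
      have hab := ne_of_mem_erase ha
      rw [Function.update_of_ne hab]
    have e3 : ∀ u : ι → ℤ, PB W t s f' u = PB W t (insert b s) f u := by
      intro u
      unfold PB
      apply prod_congr rfl
      intro a _
      by_cases hab : a = b
      · subst hab
        rw [if_neg hb, if_pos (mem_insert_self _ _), hf', Function.update_self]
      · simp only [mem_insert, hab, false_or, hf']
        rw [Function.update_of_ne hab]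
    have h2 := ih f' (by
      intro a u
      rw [hf']
      by_cases hab : a = b
      · subst hab; rw [Function.update_self]; exact MM_nonneg _ _
      · rw [Function.update_of_ne hab]; exact hf0 _ _) (by
      intro a u
      rw [hf']
      by_cases hab : a = b
      · subst hab; rw [Function.update_self]; exact hMMK _ _
      · rw [Function.update_of_ne hab]; exact hf1 _ _)
    simp only [e3] at h2
    have g1 : ∑ v ∈ Bx d H, om L (pv v (t b) + g b) * Φ (fun a => pv v (t a) + g a) =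
        ∑ v ∈ Bx d H, PA L (insert b s) f (fun a => pv v (t a) + g a) := sum_congr rfl fun v _ => (e1 (fun a => pv v (t a) + g a)).symm
    have g2 : ∑ v ∈ Bx d H, MM (mo W t b) (pv v (t b) + g b) * Φ (fun a => pv v (t a) + g a) =
        ∑ v ∈ Bx d H, PA L s f' (fun a => pv v (t a) + g a) := sum_congr rfl fun v _ => (e2 (fun a => pv v (t a) + g a)).symm
    rw [g1, g2] at h1
    rw [card_insert_of_notMem hb]
    set X1 := ∑ v ∈ Bx d H, PA L (insert b s) f (fun a => pv v (t a) + g a)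
    set X2 := ∑ v ∈ Bx d H, PA L s f' (fun a => pv v (t a) + g a)
    set T := ∑ v ∈ Bx d H, PB W t (insert b s) f (fun a => pv v (t a) + g a)
    set E := ((Bx d H).card : ℝ) / L ^ A with hE
    have hE0 : 0 ≤ E := by positivity
    set Q := (1 + δ) ^ s.card with hQ
    set R := (2 : ℝ) ^ s.card with hR
    have hR1 : 1 ≤ R := one_le_pow₀ (by norm_num)
    obtain ⟨a1, a2⟩ := abs_le.1 h1
    obtain ⟨b1, b2⟩ := abs_le.1 h2
    have h3 : |X1 - T| ≤ δ * X2 + E + ((Q - 1) * T + (R - 1) * E) := by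
      calc |X1 - T| ≤ |X1 - X2| + |X2 - T| := abs_sub_le _ _ _
        _ ≤ _ := add_le_add h1 h2
    have h4 : δ * X2 ≤ δ * (T + ((Q - 1) * T + (R - 1) * E)) := mul_le_mul_of_nonneg_left (by linarith) hδ.le
    have h5 : δ * ((R - 1) * E) ≤ 1 * ((R - 1) * E) := by
      apply mul_le_mul_of_nonneg_right hδ1
      exact mul_nonneg (by linarith) hE0
    calc |X1 - T| ≤ δ * X2 + E + ((Q - 1) * T + (R - 1) * E) := h3
      _ ≤ ((1 + δ) ^ (s.card + 1) - 1) * T + (2 ^ (s.card + 1) - 1) * E := by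
          rw [pow_succ, pow_succ, ← hQ, ← hR]
          linarith

end Pool.Agent.Helper82K9.PR
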