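import Mathlib

set_option autoImplicit false

/-! Sums of reciprocals of large prime factors. -/

namespace Pool.Agent.Helper82K9.PR

open Finset

/-- the prime factors larger than `z` -/
def LP (z u : ℕ) : Finset ℕ := u.primeFactors.filter (fun p => z < p)

/-- the sum of the reciprocals of the prime factors larger than `z` -/
noncomputable def sg (z u : ℕ) : ℝ := ∑ p ∈ LP z u, 1 / (p : ℝ)

lemma sg_nonneg (z u : ℕ) : 0 ≤ sg z u := by
  unfold sg; exact sum_nonneg fun _ _ => by positivity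

lemma sg_mul (z a b : ℕ) (ha : a ≠ 0) (hb : b ≠ 0) : sg z (a * b) ≤ sg z a + sg z b := by
  unfold sg LP
  rw [Nat.primeFactors_mul ha hb, filter_union]
  have := sum_union_inter (s₁ := a.primeFactors.filter (fun p => z < p)) (s₂ := b.primeFactors.filter (fun p => z < p))
    (f := fun p : ℕ => 1 / (p : ℝ))
  have h2 : 0 ≤ ∑ p ∈ a.primeFactors.filter (fun p => z < p) ∩ b.primeFactors.filter (fun p => z < p), 1 / (p : ℝ) :=
    sum_nonneg fun _ _ => by positivity
  linarith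

lemma sg_prod {ι : Type} [DecidableEq ι] (z : ℕ) (s : Finset ι) (c : ι → ℕ) (hc : ∀ i ∈ s, c i ≠ 0) :
    sg z (∏ i ∈ s, c i) ≤ ∑ i ∈ s, sg z (c i) := by
  induction s using Finset.induction_on with
  | empty =>
    rw [prod_empty, sum_empty]
    unfold sg LP
    simp
  | insert a s ha ih =>
    rw [prod_insert ha, sum_insert ha]
    refine (sg_mul z _ _ (hc a (mem_insert_self _ _)) (prod_ne_zero_iff.2 fun i hi => hc i (mem_insert_of_mem hi))).trans ?_
    have := ih (fun i hi => hc i (mem_insert_of_mem hi))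
    linarith

lemma sg_small (z u : ℕ) (hu : u ≤ z) : sg z u = 0 := by
  unfold sg LP
  have : u.primeFactors.filter (fun p => z < p) = ∅ := by
    apply filter_false_of_mem
    intro p hp h
    have := Nat.le_of_mem_primeFactors hp
    omega
  rw [this, sum_empty]

/-- the mean value of `exp (C sg)` -/
theorem sum_exp_sg (C : ℝ) (hC : 0 ≤ C) (z X : ℕ) (hz : 1 ≤ z) :
    ∑ u ∈ Icc 1 X, Real.exp (C * sg z u) ≤ X * Real.exp (C * Real.exp C / z) := by
  classical
  set P : Finset ℕ := (Ioc z X).filter Nat.Prime with hP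
  set y : ℕ → ℝ := fun p => Real.exp (C / p) - 1 with hy
  have hy0 : ∀ p, 0 ≤ y p := by
    intro p
    have : 0 ≤ C / (p : ℝ) := by positivity
    have := Real.add_one_le_exp (C / (p : ℝ))
    rw [hy]; simp only; linarith
  have hLP : ∀ u ∈ Icc 1 X, LP z u = P.filter (fun p => p ∣ u) := by
    intro u hu
    rw [mem_Icc] at hu
    ext p
    unfold LP
    rw [hP, mem_filter, mem_filter, mem_filter, mem_Ioc, Nat.mem_primeFactors]
    constructor
    · rintro ⟨⟨h1, h2, h3⟩, h4⟩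
      exact ⟨⟨⟨h4, (Nat.le_of_dvd hu.1 h2).trans hu.2⟩, h1⟩, h2⟩
    · rintro ⟨⟨⟨h1, h2⟩, h3⟩, h4⟩
      exact ⟨⟨h3, h4, by omega⟩, h1⟩
  have e1 : ∀ u ∈ Icc 1 X, Real.exp (C * sg z u) = ∑ D ∈ P.powerset, if (∀ p ∈ D, p ∣ u) then ∏ p ∈ D, y p else 0 := by
    intro u hu
    have e2 : Real.exp (C * sg z u) = ∏ p ∈ LP z u, (1 + y p) := by
      unfold sg
      rw [mul_sum, Real.exp_sum]
      apply prod_congr rfl
      intro p _
      rw [hy]; simp only
      rw [mul_one_div]; ring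
    rw [e2, prod_one_add, hLP u hu, ← sum_filter]
    apply sum_congr _ (fun _ _ => rfl)
    ext D
    rw [mem_powerset, mem_filter, mem_powerset]
    constructor
    · intro h
      exact ⟨fun p hp => (mem_filter.1 (h hp)).1, fun p hp => (mem_filter.1 (h hp)).2⟩
    · rintro ⟨h1, h2⟩ p hp
      exact mem_filter.2 ⟨h1 hp, h2 p hp⟩
  rw [sum_congr rfl e1, sum_comm]
  have e3 : ∀ D ∈ P.powerset, ∑ u ∈ Icc 1 X, (if (∀ p ∈ D, p ∣ u) then ∏ p ∈ D, y p else 0) ≤
      X * ∏ p ∈ D, (y p / p) := by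
    intro D hD
    rw [mem_powerset] at hD
    rw [← sum_filter, sum_const, nsmul_eq_mul, prod_div_distrib]
    have hpr : ∀ p ∈ D, Nat.Prime p := fun p hp => (mem_filter.1 (hD hp)).2
    have h1 : ((Icc 1 X).filter (fun u => ∀ p ∈ D, p ∣ u)) ⊆ (Icc 1 X).filter (fun u => (∏ p ∈ D, p) ∣ u) := by
      intro u hu
      rw [mem_filter] at hu ⊢
      refine ⟨hu.1, ?_⟩
      apply Finset.prod_primes_dvd
      · intro p hp; exact (hpr p hp).prime
      · exact hu.2
    have hpos : 0 < ∏ p ∈ D, p := prod_pos fun p hp => (hpr p hp).pos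
    have h2 : ((Icc 1 X).filter (fun u => (∏ p ∈ D, p) ∣ u)).card = X / ∏ p ∈ D, p := by
      have : Icc 1 X = Ioc 0 X := by ext u; rw [mem_Icc, mem_Ioc]; omega
      rw [this, Nat.Ioc_filter_dvd_card_eq_div]
    have h3 : ((((Icc 1 X).filter (fun u => ∀ p ∈ D, p ∣ u)).card : ℕ) : ℝ) ≤ X / ((∏ p ∈ D, p : ℕ) : ℝ) := by
      calc ((((Icc 1 X).filter (fun u => ∀ p ∈ D, p ∣ u)).card : ℕ) : ℝ) ≤ ((X / ∏ p ∈ D, p : ℕ) : ℝ) := by
            exact_mod_cast (card_le_card h1).trans h2.le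
        _ ≤ _ := Nat.cast_div_le
    calc ((((Icc 1 X).filter (fun u => ∀ p ∈ D, p ∣ u)).card : ℕ) : ℝ) * ∏ p ∈ D, y p ≤
          X / ((∏ p ∈ D, p : ℕ) : ℝ) * ∏ p ∈ D, y p := by
          apply mul_le_mul_of_nonneg_right h3
          exact prod_nonneg fun p _ => hy0 p
      _ = _ := by push_cast; ring
  refine (sum_le_sum e3).trans ?_
  rw [← mul_sum, ← prod_one_add]
  apply mul_le_mul_of_nonneg_left _ (Nat.cast_nonneg _)
  refine (Real.prod_one_add_le_exp_sum P (f := fun p : ℕ => y p / (p : ℝ)) (fun p => div_nonneg (hy0 p) (Nat.cast_nonneg _))).trans ?_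
  apply Real.exp_le_exp.2
  have hyp : ∀ p ∈ P, y p / p ≤ C * Real.exp C * ((p : ℝ) ^ 2)⁻¹ := by
    intro p hp
    rw [hP, mem_filter] at hp
    have hp1 : (1 : ℝ) ≤ p := by exact_mod_cast hp.2.one_le
    have hp0 : (0 : ℝ) < p := by linarith
    have h4 : y p ≤ C / p * Real.exp C := by
      have h5 : C / p ≤ C := div_le_self hC hp1
      have h6 : 0 ≤ C / (p : ℝ) := by positivity
      have h7 := Real.add_one_le_exp (-(C / (p : ℝ)))
      have h8 : Real.exp (C / p) * Real.exp (-(C / (p : ℝ))) = 1 := by rw [← Real.exp_add]; simp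
      have h9 := Real.exp_pos (C / (p : ℝ))
      have h10 : Real.exp (C / p) ≤ Real.exp C := Real.exp_le_exp.2 h5
      have h11 : Real.exp (C / p) * (-(C / (p : ℝ)) + 1) ≤ 1 :=
        (mul_le_mul_of_nonneg_left h7 h9.le).trans h8.le
      have h12 : C / p * Real.exp (C / p) ≤ C / p * Real.exp C := mul_le_mul_of_nonneg_left h10 h6
      rw [hy]; simp only; nlinarith
    calc y p / p ≤ C / p * Real.exp C / p := by gcongr
      _ = _ := by field_simp
  calc ∑ p ∈ P, y p / p ≤ ∑ p ∈ P, C * Real.exp C * ((p : ℝ) ^ 2)⁻¹ := sum_le_sum hyp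
    _ ≤ ∑ p ∈ Ioc z X, C * Real.exp C * ((p : ℝ) ^ 2)⁻¹ := by
        apply sum_le_sum_of_subset_of_nonneg (filter_subset _ _)
        intro p _ _
        positivity
    _ = C * Real.exp C * ∑ p ∈ Ioc z X, ((p : ℝ) ^ 2)⁻¹ := by rw [mul_sum]
    _ ≤ C * Real.exp C * (1 / z) := by
        apply mul_le_mul_of_nonneg_left _ (by positivity)
        rcases le_total z X with h | h
        · have := sum_Ioc_inv_sq_le_sub (α := ℝ) (by omega : z ≠ 0) h
          refine this.trans ?_
          have : (0 : ℝ) ≤ (X : ℝ)⁻¹ := by positivity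
          rw [one_div]; linarith
        · rw [Ioc_eq_empty (by omega), sum_empty]
          positivity
    _ = C * Real.exp C / z := by ring

/-- the same for `exp - 1` -/
theorem sum_exp_sg' (C : ℝ) (hC : 0 ≤ C) (z X : ℕ) (hz : 1 ≤ z) :
    ∑ u ∈ Icc 1 X, (Real.exp (C * sg z u) - 1) ≤ X * (Real.exp (C * Real.exp C / z) - 1) := by
  have := sum_exp_sg C hC z X hz
  rw [sum_sub_distrib, sum_const, Nat.card_Icc, Nat.add_sub_cancel, nsmul_eq_mul]
  linarith

/-- `1 / (1 - 1 / p)` over the prime factors larger than `z` -/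
noncomputable def GG (z u : ℕ) : ℝ := ∏ p ∈ LP z u, (1 - 1 / (p : ℝ))⁻¹

lemma GG_le (z u : ℕ) : GG z u ≤ Real.exp (2 * sg z u) := by
  unfold GG sg
  rw [mul_sum, Real.exp_sum]
  apply prod_le_prod
  · intro p hp
    unfold LP at hp
    rw [mem_filter] at hp
    have h1 : (2 : ℝ) ≤ p := by exact_mod_cast (Nat.prime_of_mem_primeFactors hp.1).two_le
    have h2 : 1 / (p : ℝ) ≤ 1 / 2 := by
      apply one_div_le_one_div_of_le (by norm_num) h1
    have : 0 < 1 - 1 / (p : ℝ) := by linarith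
    positivity
  · intro p hp
    unfold LP at hp
    rw [mem_filter] at hp
    have h1 : (2 : ℝ) ≤ p := by exact_mod_cast (Nat.prime_of_mem_primeFactors hp.1).two_le
    have h0 : 0 < 1 / (p : ℝ) := by positivity
    have h2 : 1 / (p : ℝ) ≤ 1 / 2 := by
      apply one_div_le_one_div_of_le (by norm_num) h1
    have h3 : 0 < 1 - 1 / (p : ℝ) := by linarith
    have h4 := Real.add_one_le_exp (2 * (1 / (p : ℝ)))
    refine le_trans ?_ h4
    rw [inv_le_iff_one_le_mul₀ h3]
    nlinarith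

lemma one_le_GG (z u : ℕ) : 1 ≤ GG z u := by
  unfold GG
  have key : ∀ p ∈ LP z u, (1 : ℝ) ≤ (1 - 1 / (p : ℝ))⁻¹ := by
   intro p hp
   unfold LP at hp
   rw [mem_filter] at hp
   have h1 : (2 : ℝ) ≤ p := by exact_mod_cast (Nat.prime_of_mem_primeFactors hp.1).two_le
   have h0 : 0 < 1 / (p : ℝ) := by positivity
   have h2 : 1 / (p : ℝ) ≤ 1 / 2 := by
     apply one_div_le_one_div_of_le (by norm_num) h1
   have h3 : 0 < 1 - 1 / (p : ℝ) := by linarith
   rw [one_le_inv₀ h3]
   linarith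
  calc (1 : ℝ) = ∏ p ∈ LP z u, 1 := by rw [prod_const_one]
    _ ≤ _ := prod_le_prod (fun _ _ => by norm_num) key

end Pool.Agent.Helper82K9.PR
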