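import Pool.Agent.Helper82K9.PR.PR3
import Pool.Agent.Helper82K9.PR.PR4

set_option autoImplicit false

/-! The expected values in classes against those in the classes modulo the product of the small primes. -/

namespace Pool.Agent.Helper82K9.PR

open Finset Filter

lemma ratio (q : ℕ) (hq : 1 ≤ q) : (q : ℝ) / Nat.totient q = ∏ p ∈ q.primeFactors, (1 - 1 / (p : ℝ))⁻¹ := by
  have h1 := Nat.totient_eq_mul_prod_factors q
  have h2 : ((Nat.totient q : ℕ) : ℝ) = q * ∏ p ∈ q.primeFactors, (1 - 1 / (p : ℝ)) := by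
    have := congrArg (fun x : ℚ => (x : ℝ)) h1
    simp only [one_div]
    push_cast at this ⊢
    exact this
  have hq0 : (q : ℝ) ≠ 0 := by positivity
  have hne : ∏ p ∈ q.primeFactors, (1 - 1 / (p : ℝ)) ≠ 0 := by
    rw [prod_ne_zero_iff]
    intro p hp
    have h1 : (2 : ℝ) ≤ p := by exact_mod_cast (Nat.prime_of_mem_primeFactors hp).two_le
    have h2 : 1 / (p : ℝ) ≤ 1 / 2 := by
      apply one_div_le_one_div_of_le (by norm_num) h1
    linarith
  rw [h2, prod_inv_distrib]
  field_simp

/-- the indicator of the integers without a prime divisor in `LP z w` -/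
noncomputable def JJ (z w : ℕ) (u : ℤ) : ℝ := by
  classical exact if (∀ p ∈ LP z w, ¬ (p : ℤ) ∣ u) then 1 else 0

lemma mm_eq (z w : ℕ) (hw : w ≠ 0) (u : ℤ) :
    MM (primorial z * w) u = MM (primorial z) u * (GG z w * JJ z w u) := by
  classical
  have hW := primorial_pos z
  have e1 : Int.gcd u ((primorial z * w : ℕ) : ℤ) = Nat.gcd u.natAbs (primorial z * w) := by
    rw [Int.gcd_def, Int.natAbs_natCast]
  have e2 : Int.gcd u ((primorial z : ℕ) : ℤ) = Nat.gcd u.natAbs (primorial z) := by
    rw [Int.gcd_def, Int.natAbs_natCast]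
  unfold MM JJ
  rw [e1, e2]
  have hiff : Nat.gcd u.natAbs (primorial z * w) = 1 ↔ Nat.gcd u.natAbs (primorial z) = 1 ∧ ∀ p ∈ LP z w, ¬ (p : ℤ) ∣ u := by
    rw [← Nat.coprime_iff_gcd_eq_one, ← Nat.coprime_iff_gcd_eq_one, Nat.coprime_mul_iff_right]
    constructor
    · rintro ⟨h1, h2⟩
      refine ⟨h1, fun p hp hpu => ?_⟩
      unfold LP at hp
      rw [mem_filter, Nat.mem_primeFactors] at hp
      have h3 := Nat.Coprime.eq_one_of_dvd (Nat.Coprime.coprime_dvd_left (Int.natCast_dvd.1 hpu) h2) hp.1.2.1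
      exact hp.1.1.one_lt.ne' h3
    · rintro ⟨h1, h2⟩
      refine ⟨h1, ?_⟩
      apply Nat.Coprime.symm
      rw [Nat.coprime_iff_gcd_eq_one]
      by_contra hcon
      obtain ⟨p, hp, hpd⟩ := Nat.exists_prime_and_dvd hcon
      have hpw := hpd.trans (Nat.gcd_dvd_left _ _)
      have hpu := hpd.trans (Nat.gcd_dvd_right _ _)
      by_cases hpz : p ≤ z
      · have h3 := (hp.dvd_primorial_iff).2 hpz
        exact hp.one_lt.ne' (Nat.Coprime.eq_one_of_dvd (Nat.Coprime.coprime_dvd_left hpu h1) h3)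
      · push Not at hpz
        apply h2 p
        · unfold LP
          rw [mem_filter, Nat.mem_primeFactors]
          exact ⟨⟨hp, hpw, hw⟩, hpz⟩
        · exact Int.natCast_dvd.2 hpu
  by_cases h1 : Nat.gcd u.natAbs (primorial z) = 1
  · by_cases h2 : ∀ p ∈ LP z w, ¬ (p : ℤ) ∣ u
    · rw [if_pos (hiff.2 ⟨h1, h2⟩), if_pos h1, if_pos h2, mul_one, ratio _ (Nat.mul_pos hW (Nat.pos_of_ne_zero hw)),
        ratio _ hW]
      unfold GG
      rw [← prod_union]
      · apply prod_congr _ (fun _ _ => rfl)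
        ext p
        rw [Nat.primeFactors_mul hW.ne' hw, mem_union, mem_union]
        unfold LP
        rw [mem_filter]
        constructor
        · rintro (h3 | h3)
          · exact Or.inl h3
          · by_cases hpz : p ≤ z
            · left
              rw [Nat.mem_primeFactors]
              have hp := Nat.prime_of_mem_primeFactors h3
              exact ⟨hp, hp.dvd_primorial_iff.2 hpz, hW.ne'⟩
            · right
              exact ⟨h3, by omega⟩
        · rintro (h3 | ⟨h3, h4⟩)
          · exact Or.inl h3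
          · exact Or.inr h3
      · rw [disjoint_left]
        intro p h3 h4
        unfold LP at h4
        rw [mem_filter] at h4
        rw [Nat.mem_primeFactors] at h3
        have := h3.1.dvd_primorial_iff.1 h3.2.1
        omega
    · rw [if_neg (fun h => h2 (hiff.1 h).2), if_neg h2, mul_zero, mul_zero]
  · rw [if_neg (fun h => h1 (hiff.1 h).1), if_neg h1, zero_mul]

/-- the product of `1 / (1 - 1 / p)` over the primes `p ≤ z` -/
noncomputable def Cz (z : ℕ) : ℝ := (primorial z : ℝ) / Nat.totient (primorial z)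

lemma Cz_ge (z : ℕ) : 1 ≤ Cz z := by
  unfold Cz
  rw [one_le_div (by exact_mod_cast Nat.totient_pos.2 (primorial_pos z))]
  exact_mod_cast Nat.totient_le _

lemma MM_le_Cz (z : ℕ) (u : ℤ) : MM (primorial z) u ≤ Cz z := by
  unfold MM
  split_ifs
  · exact le_rfl
  · exact zero_le_one.trans (Cz_ge z)

/-- the product of the differences from the other points -/
noncomputable def wd {ι : Type} [Fintype ι] [DecidableEq ι] (t : ι → ℕ) (b : ι) : ℕ :=
  (∏ a ∈ univ.erase b, ((t b : ℤ) - t a)).natAbs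

lemma wd_ne {ι : Type} [Fintype ι] [DecidableEq ι] (t : ι → ℕ) (ht : Function.Injective t) (b : ι) : wd t b ≠ 0 := by
  have := mo_pos 1 le_rfl t ht b
  unfold mo at this
  unfold wd
  omega

/-- the indicator of the divisibility -/
noncomputable def dv (p : ℕ) (u : ℤ) : ℝ := by
  classical exact if (p : ℤ) ∣ u then 1 else 0

lemma dv_nonneg (p : ℕ) (u : ℤ) : 0 ≤ dv p u := by
  unfold dv; split_ifs <;> norm_num

lemma prod_model {ι : Type} [Fintype ι] [DecidableEq ι] (z : ℕ) (t : ι → ℕ) (ht : Function.Injective t) (s : Finset ι)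
    (u : ι → ℤ) :
    |PB (primorial z) t s (fun _ => MM (primorial z)) u - ∏ a, MM (primorial z) (u a)| ≤
      Cz z ^ Fintype.card ι * ((∏ a, GG z (wd t a) - 1) + ∑ a, ∑ p ∈ LP z (wd t a), dv p (u a)) := by
  classical
  set x : ℝ := ∏ a, (if a ∈ s then GG z (wd t a) * JJ z (wd t a) (u a) else 1) with hx
  have e1 : PB (primorial z) t s (fun _ => MM (primorial z)) u = (∏ a, MM (primorial z) (u a)) * x := by
    unfold PB
    rw [hx, ← prod_mul_distrib]
    apply prod_congr rfl
    intro a _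
    by_cases ha : a ∈ s
    · rw [if_pos ha, if_pos ha]
      exact mm_eq z (wd t a) (wd_ne t ht a) (u a)
    · rw [if_neg ha, if_neg ha, mul_one]
  have hP0 : 0 ≤ ∏ a, MM (primorial z) (u a) := prod_nonneg fun a _ => MM_nonneg _ _
  have hP1 : ∏ a, MM (primorial z) (u a) ≤ Cz z ^ Fintype.card ι := by
    calc ∏ a, MM (primorial z) (u a) ≤ ∏ a : ι, Cz z :=
          Finset.prod_le_prod (fun a _ => MM_nonneg _ _) (fun a _ => MM_le_Cz z _)
      _ = _ := by rw [prod_const, card_univ]
  have hG1 : 1 ≤ ∏ a, GG z (wd t a) := by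
    calc (1 : ℝ) = ∏ a : ι, 1 := by rw [prod_const_one]
      _ ≤ _ := Finset.prod_le_prod (fun _ _ => by norm_num) (fun a _ => one_le_GG z _)
  have hS0 : ∀ a : ι, 0 ≤ ∑ p ∈ LP z (wd t a), dv p (u a) := fun a => sum_nonneg fun p _ => dv_nonneg p _
  have hS1 : 0 ≤ ∑ a, ∑ p ∈ LP z (wd t a), dv p (u a) := sum_nonneg fun a _ => hS0 a
  have key : |x - 1| ≤ (∏ a, GG z (wd t a) - 1) + ∑ a, ∑ p ∈ LP z (wd t a), dv p (u a) := by
    by_cases h : ∀ a ∈ s, ∀ p ∈ LP z (wd t a), ¬ (p : ℤ) ∣ u a
    · have h1 : 1 ≤ x := by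
        rw [hx]
        calc (1 : ℝ) = ∏ a : ι, 1 := by rw [prod_const_one]
          _ ≤ _ := by
            apply Finset.prod_le_prod (fun _ _ => by norm_num)
            intro a _
            split_ifs with ha
            · unfold JJ
              rw [if_pos (h a ha), mul_one]
              exact one_le_GG z _
            · exact le_rfl
      have h2 : x ≤ ∏ a, GG z (wd t a) := by
        rw [hx]
        apply Finset.prod_le_prod
        · intro a _
          split_ifs with ha
          · unfold JJ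
            rw [if_pos (h a ha), mul_one]
            exact zero_le_one.trans (one_le_GG z _)
          · norm_num
        · intro a _
          split_ifs with ha
          · unfold JJ
            rw [if_pos (h a ha), mul_one]
          · exact one_le_GG z _
      rw [abs_of_nonneg (by linarith)]
      linarith
    · push Not at h
      obtain ⟨a, ha, p, hp, hpu⟩ := h
      have h1 : x = 0 := by
        rw [hx]
        apply prod_eq_zero (mem_univ a)
        rw [if_pos ha]
        unfold JJ
        rw [if_neg (fun h => h p hp hpu), mul_zero]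
      have h2 : 1 ≤ ∑ a, ∑ p ∈ LP z (wd t a), dv p (u a) := by
        calc (1 : ℝ) = dv p (u a) := by unfold dv; rw [if_pos hpu]
          _ ≤ ∑ p ∈ LP z (wd t a), dv p (u a) := single_le_sum (f := fun p => dv p (u a)) (fun p _ => dv_nonneg p _) hp
          _ ≤ _ := single_le_sum (f := fun a => ∑ p ∈ LP z (wd t a), dv p (u a)) (fun a _ => hS0 a) (mem_univ a)
      rw [h1, zero_sub, abs_neg, abs_one]
      linarith
  have e2 : PB (primorial z) t s (fun _ => MM (primorial z)) u - ∏ a, MM (primorial z) (u a) =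
      (∏ a, MM (primorial z) (u a)) * (x - 1) := by rw [e1]; ring
  rw [e2, abs_mul, abs_of_nonneg hP0]
  exact mul_le_mul hP1 key (abs_nonneg _) (by have := Cz_ge z; positivity)

/-- the number of the polynomials with a value divisible by `p` -/
lemma cnt (d H p : ℕ) (hp : 1 ≤ p) (hH : 2 * (d + 1) * p ^ 2 ≤ 2 * H + 1) (t : ℕ) (g : ℤ) :
    ∑ v ∈ Bx d H, dv p (pv v t + g) ≤ 2 * (Bx d H).card * (1 / p) := by
  classical
  have hpr : (0 : ℝ) < p := by exact_mod_cast hp
  have hpz : (0 : ℤ) < p := by exact_mod_cast hp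
  set S := ∑ v ∈ Bx d H, dv p (pv v t + g) with hS
  have hdv1 : ∀ u : ℤ, dv p u ≤ 1 := by intro u; unfold dv; split_ifs <;> norm_num
  have hsh : ∀ c ∈ Icc 1 p, S ≤ ∑ v ∈ Bx d H, dv p (pv v t + g + c) + 2 * ((d + 1) * p * (2 * H + 1) ^ d) := by
    intro c hc
    rw [mem_Icc] at hc
    have h1 := box_shift d H (fun v => ((dv p (pv v t + g) : ℝ) : ℂ)) (by
      intro v
      rw [Complex.norm_real, Real.norm_of_nonneg (dv_nonneg _ _)]
      exact hdv1 _) (Pi.single 0 (c : ℤ)) p (by
      intro i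
      by_cases hi : i = 0
      · subst hi
        rw [Pi.single_eq_same]
        rw [Int.cast_natCast, abs_of_nonneg (by positivity)]
        exact_mod_cast hc.2
      · rw [Pi.single_eq_of_ne hi, Int.cast_zero, abs_zero]
        positivity)
    have e1 : ∀ v : Fin (d + 1) → ℤ, pv (v + Pi.single 0 (c : ℤ)) t = pv v t + c := by
      intro v
      unfold pv
      have e2 : ∀ i : Fin (d + 1), (v + Pi.single 0 (c : ℤ) : Fin (d + 1) → ℤ) i * (t : ℤ) ^ (i : ℕ) =
          v i * (t : ℤ) ^ (i : ℕ) + (if i = 0 then (c : ℤ) else 0) := by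
        intro i
        by_cases hi : i = 0
        · subst hi; simp
        · simp [hi]
      rw [sum_congr rfl (fun i _ => e2 i), sum_add_distrib]
      simp
    have e3 : ∑ v ∈ Bx d H, ((dv p (pv v t + g) : ℝ) : ℂ) - ∑ v ∈ Bx d H, ((dv p (pv (v + Pi.single 0 (c : ℤ)) t + g) : ℝ) : ℂ) =
        ((S - ∑ v ∈ Bx d H, dv p (pv v t + g + c) : ℝ) : ℂ) := by
      rw [← Complex.ofReal_sum, ← Complex.ofReal_sum, ← Complex.ofReal_sub]
      congr 3
      funext v
      rw [e1]
      congr 1
      ring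
    rw [e3, Complex.norm_real, Real.norm_eq_abs] at h1
    have := (abs_le.1 h1).2
    linarith
  have h2 : p * S ≤ ∑ c ∈ Icc 1 p, ∑ v ∈ Bx d H, dv p (pv v t + g + c) + p * (2 * ((d + 1) * p * (2 * H + 1) ^ d)) := by
    have := sum_le_sum hsh
    rw [sum_const, Nat.card_Icc, Nat.add_sub_cancel, nsmul_eq_mul, sum_add_distrib, sum_const, Nat.card_Icc,
      Nat.add_sub_cancel, nsmul_eq_mul] at this
    exact this
  have h3 : ∑ c ∈ Icc 1 p, ∑ v ∈ Bx d H, dv p (pv v t + g + c) ≤ (Bx d H).card := by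
    rw [sum_comm]
    calc ∑ v ∈ Bx d H, ∑ c ∈ Icc 1 p, dv p (pv v t + g + c) ≤ ∑ v ∈ Bx d H, (1 : ℝ) := by
          apply sum_le_sum
          intro v _
          unfold dv
          rw [← sum_filter, sum_const, nsmul_eq_mul, mul_one]
          have : ((Icc 1 p).filter (fun c : ℕ => (p : ℤ) ∣ pv v t + g + c)).card ≤ 1 := by
            apply card_le_one.2
            intro a ha b hb
            rw [mem_filter, mem_Icc] at ha hb
            have h4 := dvd_sub ha.2 hb.2
            have h5 : (pv v t + g + (a : ℤ)) - (pv v t + g + b) = (a : ℤ) - b := by ring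
            rw [h5] at h4
            by_contra hab
            have h6 := Int.le_of_dvd (a := (p : ℤ)) (b := |(a : ℤ) - b|) (abs_pos.2 (by omega)) ((dvd_abs _ _).2 h4)
            have h7 : |(a : ℤ) - b| < p := by
              rw [abs_lt]; omega
            omega
          exact_mod_cast this
      _ = _ := by rw [sum_const, nsmul_eq_mul, mul_one]
  have h4 : (p : ℝ) * (2 * ((d + 1) * p * (2 * H + 1) ^ d)) ≤ (Bx d H).card := by
    rw [card_Bx, pow_succ]
    have h5 : (2 * ((d : ℝ) + 1) * p ^ 2) ≤ 2 * H + 1 := by exact_mod_cast hH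
    calc (p : ℝ) * (2 * ((d + 1) * p * (2 * H + 1) ^ d)) = (2 * ((d : ℝ) + 1) * p ^ 2) * (2 * H + 1) ^ d := by ring
      _ ≤ (2 * H + 1) * (2 * H + 1) ^ d := by gcongr
      _ = _ := by ring
  rw [mul_one_div, le_div_iff₀ hpr]
  linarith

/-- the sum of `sg` over the points -/
noncomputable def Sg {ι : Type} [Fintype ι] [DecidableEq ι] (z : ℕ) (t : ι → ℕ) : ℝ := ∑ a, sg z (wd t a)

lemma prod_GG_le {ι : Type} [Fintype ι] [DecidableEq ι] (z : ℕ) (t : ι → ℕ) :
    ∏ a, GG z (wd t a) ≤ Real.exp (2 * Sg z t) := by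
  unfold Sg
  rw [mul_sum, Real.exp_sum]
  exact Finset.prod_le_prod (fun a _ => zero_le_one.trans (one_le_GG z _)) (fun a _ => GG_le z _)

theorem comb (d B0 : ℕ) (C η : ℝ) (hη : 0 < η) (z : ℕ) : ∃ H0 : ℕ, 3 ≤ H0 ∧ ∀ H : ℕ, H0 ≤ H →
    ∀ (ι : Type) [Fintype ι] [DecidableEq ι], Fintype.card ι ≤ d + 1 → ∀ X : ℕ,
    1 ≤ X → (X : ℝ) ≤ Real.log H ^ B0 → ∀ t : ι → ℕ, Function.Injective t → (∀ a, 1 ≤ t a ∧ t a ≤ X) →
    ∀ g : ι → ℤ, (∀ a, |(g a : ℝ)| ≤ C * H * (t a : ℝ) ^ d) → ∀ s : Finset ι,
    |∑ v ∈ Bx d H, PA (Real.log H) s (fun _ => MM (primorial z)) (fun a => pv v (t a) + g a) -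
      ∑ v ∈ Bx d H, ∏ a, MM (primorial z) (pv v (t a) + g a)| ≤
      (Bx d H).card * (Cz z ^ (d + 1) * (η + 3 * (Real.exp (2 * Sg z t) - 1)) + η) := by
  obtain ⟨δ, hδ0, hδ1, hδη⟩ : ∃ δ : ℝ, 0 < δ ∧ δ ≤ 1 ∧ (1 + δ) ^ (d + 1) - 1 ≤ min η 1 := by
    have h1 : Tendsto (fun δ : ℝ => (1 + δ) ^ (d + 1) - 1) (nhds 0) (nhds 0) := by
      have : ContinuousAt (fun δ : ℝ => (1 + δ) ^ (d + 1) - 1) 0 := by fun_prop
      have h2 := this.tendsto
      simp only [add_zero, one_pow, sub_self] at h2
      exact h2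
    have h2 := (h1.eventually (gt_mem_nhds (lt_min hη one_pos)))
    have h3 := h2.filter_mono (nhdsWithin_le_nhds (s := Set.Ioi 0))
    have h4 : ∀ᶠ δ : ℝ in nhdsWithin 0 (Set.Ioi 0), δ ∈ Set.Ioo (0:ℝ) 1 := Ioo_mem_nhdsGT one_pos
    obtain ⟨δ, h5, h6⟩ := (h3.and h4).exists
    exact ⟨δ, h6.1, h6.2.le, h5.le⟩
  obtain ⟨H1, hH1, hmul⟩ := multi d B0 1 C δ hδ0 hδ1
  have hlog : Tendsto (fun n : ℕ => Real.log n) atTop atTop := Real.tendsto_log_atTop.comp tendsto_natCast_atTop_atTop
  have e5 := hlog.eventually_ge_atTop (max (primorial z : ℝ) (max (2 ^ (d + 1) / η) (d + 1)))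
  have e6 := (tendsto_natCast_atTop_atTop (R := ℝ)).eventually
    ((Real.isLittleO_pow_log_id_atTop (n := 1 + 2 * (B0 * d))).def (show (0 : ℝ) < 1 by norm_num))
  obtain ⟨H2, h0⟩ := (e5.and e6).exists_forall_of_atTop
  refine ⟨max H1 H2, hH1.trans (le_max_left _ _), fun H hH ι _ _ hcard X hX1 hXH t hinj ht g hg s => ?_⟩
  obtain ⟨h1, h2⟩ := h0 H ((le_max_right _ _).trans hH)
  have hW := primorial_pos z
  have hm := hmul H ((le_max_left _ _).trans hH) ι hcard (primorial z) X hW ((le_max_left _ _).trans h1) hX1 hXH t hinj ht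
    g hg s (fun _ => MM (primorial z)) (fun _ u => MM_nonneg _ _) (by
      intro _ u
      have h3 : (primorial z : ℝ) ≤ Real.log H := (le_max_left _ _).trans h1
      have h4 : (1 : ℝ) ≤ Real.log H := le_trans (by exact_mod_cast hW) h3
      exact (MM_le _ _).trans (h3.trans (le_self_pow₀ h4 (by omega))))
  have hH3 : 3 ≤ H := hH1.trans ((le_max_left _ _).trans hH)
  set L := Real.log H with hL
  have hLW : (primorial z : ℝ) ≤ L := (le_max_left _ _).trans h1
  have hL1 : 1 ≤ L := le_trans (by exact_mod_cast hW) hLW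
  have hL0 : 0 < L := by linarith
  have hLη : 2 ^ (d + 1) / η ≤ L := (le_max_left _ _).trans ((le_max_right _ _).trans h1)
  have hLd : (d : ℝ) + 1 ≤ L := (le_max_right _ _).trans ((le_max_right _ _).trans h1)
  have hHr : (0 : ℝ) < H := by exact_mod_cast (by omega : 0 < H)
  have hLH : L ^ (1 + 2 * (B0 * d)) ≤ H := by
    simp only [id, Real.norm_eq_abs] at h2
    rw [abs_of_nonneg (by positivity), abs_of_nonneg hHr.le] at h2
    linarith
  set N : ℝ := ((Bx d H).card : ℝ) with hN
  have hN0 : 0 ≤ N := Nat.cast_nonneg _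
  have hCz := Cz_ge z
  have hpowC : Cz z ^ Fintype.card ι ≤ Cz z ^ (d + 1) := pow_le_pow_right₀ hCz hcard
  set S := Sg z t with hS
  have hS0 : 0 ≤ S := sum_nonneg fun a _ => sg_nonneg z _
  -- the primes are small
  have hpH : ∀ a, ∀ p ∈ LP z (wd t a), 1 ≤ p ∧ 2 * (d + 1) * p ^ 2 ≤ 2 * H + 1 := by
    intro a p hp
    unfold LP at hp
    rw [mem_filter] at hp
    have h3 := Nat.le_of_mem_primeFactors hp.1
    have h4 := (Nat.prime_of_mem_primeFactors hp.1).one_le
    have h5 : wd t a ≤ X ^ d := by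
      have := mo_le d 1 X t (fun a => (ht a).2) hX1 hcard a
      unfold mo at this
      rw [one_mul, one_mul] at this
      exact this
    refine ⟨h4, ?_⟩
    have h6 : (p : ℝ) ≤ L ^ (B0 * d) := by
      calc (p : ℝ) ≤ ((X ^ d : ℕ) : ℝ) := by exact_mod_cast h3.trans h5
        _ = (X : ℝ) ^ d := by push_cast; ring
        _ ≤ (L ^ B0) ^ d := by gcongr
        _ = L ^ (B0 * d) := by rw [← pow_mul]
    have h7 : (2 * ((d : ℝ) + 1) * p ^ 2) ≤ 2 * H := by
      calc (2 * ((d : ℝ) + 1) * p ^ 2) ≤ 2 * L * (L ^ (B0 * d)) ^ 2 := by gcongr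
        _ = 2 * L ^ (1 + 2 * (B0 * d)) := by rw [← pow_mul, pow_add, pow_one]; ring_nf
        _ ≤ 2 * H := by linarith
    have h8 : ((2 * (d + 1) * p ^ 2 : ℕ) : ℝ) ≤ ((2 * H + 1 : ℕ) : ℝ) := by push_cast; linarith
    exact_mod_cast h8
  -- comparison of the models
  have hmodel : ∑ v ∈ Bx d H, |PB (primorial z) t s (fun _ => MM (primorial z)) (fun a => pv v (t a) + g a) -
      ∏ a, MM (primorial z) (pv v (t a) + g a)| ≤ N * (Cz z ^ (d + 1) * (2 * (Real.exp (2 * S) - 1))) := by
    calc _ ≤ ∑ v ∈ Bx d H, Cz z ^ (d + 1) * ((∏ a, GG z (wd t a) - 1) +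
          ∑ a, ∑ p ∈ LP z (wd t a), dv p (pv v (t a) + g a)) := by
          apply sum_le_sum
          intro v _
          refine (prod_model z t hinj s (fun a => pv v (t a) + g a)).trans ?_
          apply mul_le_mul_of_nonneg_right hpowC
          have hG1 : 1 ≤ ∏ a, GG z (wd t a) := by
            calc (1 : ℝ) = ∏ a : ι, 1 := by rw [prod_const_one]
              _ ≤ _ := Finset.prod_le_prod (fun _ _ => by norm_num) (fun a _ => one_le_GG z _)
          have : 0 ≤ ∑ a, ∑ p ∈ LP z (wd t a), dv p (pv v (t a) + g a) :=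
            sum_nonneg fun a _ => sum_nonneg fun p _ => dv_nonneg p _
          linarith
      _ = Cz z ^ (d + 1) * (N * (∏ a, GG z (wd t a) - 1) +
          ∑ a, ∑ p ∈ LP z (wd t a), ∑ v ∈ Bx d H, dv p (pv v (t a) + g a)) := by
          rw [← mul_sum, sum_add_distrib, sum_const, nsmul_eq_mul]
          congr 2
          rw [sum_comm]
          apply sum_congr rfl
          intro a _
          rw [sum_comm]
      _ ≤ Cz z ^ (d + 1) * (N * (∏ a, GG z (wd t a) - 1) +
          ∑ a, ∑ p ∈ LP z (wd t a), 2 * N * (1 / p)) := by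
          gcongr with a _ p hp
          exact cnt d H p (hpH a p hp).1 (hpH a p hp).2 (t a) (g a)
      _ = Cz z ^ (d + 1) * (N * (∏ a, GG z (wd t a) - 1) + 2 * N * S) := by
          congr 2
          rw [hS]
          unfold Sg sg
          rw [mul_sum]
          apply sum_congr rfl
          intro a _
          rw [mul_sum]
      _ ≤ Cz z ^ (d + 1) * (N * (Real.exp (2 * S) - 1) + N * (Real.exp (2 * S) - 1)) := by
          have h3 := prod_GG_le z t
          rw [← hS] at h3
          have h4 := Real.add_one_le_exp (2 * S)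
          apply mul_le_mul_of_nonneg_left _ (by positivity)
          have h5 : 2 * N * S ≤ N * (Real.exp (2 * S) - 1) := by nlinarith
          have h6 : N * (∏ a, GG z (wd t a) - 1) ≤ N * (Real.exp (2 * S) - 1) := by
            apply mul_le_mul_of_nonneg_left _ hN0; linarith
          linarith
      _ = _ := by ring
  -- the size of the model
  have hsize : ∑ v ∈ Bx d H, PB (primorial z) t s (fun _ => MM (primorial z)) (fun a => pv v (t a) + g a) ≤
      N * (Cz z ^ (d + 1) * Real.exp (2 * S)) := by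
    calc _ ≤ ∑ v ∈ Bx d H, (Cz z ^ (d + 1) * Real.exp (2 * S)) := by
          apply sum_le_sum
          intro v _
          unfold PB
          calc ∏ a, (if a ∈ s then MM (mo (primorial z) t a) (pv v (t a) + g a) else MM (primorial z) (pv v (t a) + g a))
              ≤ ∏ a, (Cz z * GG z (wd t a)) := by
                apply Finset.prod_le_prod
                · intro a _
                  split_ifs <;> exact MM_nonneg _ _
                · intro a _
                  have hG := one_le_GG z (wd t a)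
                  split_ifs
                  · have h3 : MM (mo (primorial z) t a) (pv v (t a) + g a) =
                        MM (primorial z) (pv v (t a) + g a) * (GG z (wd t a) * JJ z (wd t a) (pv v (t a) + g a)) :=
                      mm_eq z (wd t a) (wd_ne t hinj a) _
                    rw [h3]
                    have h4 : JJ z (wd t a) (pv v (t a) + g a) ≤ 1 := by unfold JJ; split_ifs <;> norm_num
                    have h4' : 0 ≤ JJ z (wd t a) (pv v (t a) + g a) := by unfold JJ; split_ifs <;> norm_num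
                    have h5 : GG z (wd t a) * JJ z (wd t a) (pv v (t a) + g a) ≤ GG z (wd t a) := by nlinarith
                    exact mul_le_mul (MM_le_Cz z _) h5 (mul_nonneg (by linarith) h4') (by linarith)
                  · have := MM_le_Cz z (pv v (t a) + g a)
                    nlinarith
            _ = Cz z ^ Fintype.card ι * ∏ a, GG z (wd t a) := by
                rw [prod_mul_distrib, prod_const, card_univ]
            _ ≤ _ := by
                apply mul_le_mul hpowC (prod_GG_le z t) _ (by positivity)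
                exact prod_nonneg fun a _ => zero_le_one.trans (one_le_GG z _)
      _ = _ := by rw [sum_const, nsmul_eq_mul]
  have hPB0 : 0 ≤ ∑ v ∈ Bx d H, PB (primorial z) t s (fun _ => MM (primorial z)) (fun a => pv v (t a) + g a) := by
    apply sum_nonneg
    intro v _
    unfold PB
    apply prod_nonneg
    intro a _
    split_ifs <;> exact MM_nonneg _ _
  have hsc : s.card ≤ d + 1 := (card_le_univ s).trans hcard
  have hpow1 : (1 + δ) ^ s.card - 1 ≤ min η 1 := by
    refine le_trans ?_ hδη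
    have : (1 + δ) ^ s.card ≤ (1 + δ) ^ (d + 1) := pow_le_pow_right₀ (by linarith) hsc
    linarith
  have hpow0 : 0 ≤ (1 + δ) ^ s.card - 1 := by
    have : 1 ≤ (1 + δ) ^ s.card := one_le_pow₀ (by linarith)
    linarith
  have hpow2 : ((2 : ℝ) ^ s.card - 1) * (N / L ^ 1) ≤ N * η := by
    have h3 : (2 : ℝ) ^ s.card - 1 ≤ 2 ^ (d + 1) := by
      have : (2 : ℝ) ^ s.card ≤ 2 ^ (d + 1) := pow_le_pow_right₀ (by norm_num) hsc
      linarith
    rw [pow_one]
    calc ((2 : ℝ) ^ s.card - 1) * (N / L) ≤ 2 ^ (d + 1) * (N / L) := by gcongr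
      _ ≤ N * η := by
          rw [div_le_iff₀ hη] at hLη
          rw [← mul_div_assoc, div_le_iff₀ hL0]
          nlinarith
  have hE : Real.exp (2 * S) = 1 + (Real.exp (2 * S) - 1) := by ring
  have hE0 : 0 ≤ Real.exp (2 * S) - 1 := by
    have := Real.add_one_le_exp (2 * S)
    linarith
  have hC0 : 0 ≤ Cz z ^ (d + 1) := by positivity
  set T1 := ∑ v ∈ Bx d H, PB (primorial z) t s (fun _ => MM (primorial z)) (fun a => pv v (t a) + g a) with hT1
  set T0 := ∑ v ∈ Bx d H, ∏ a, MM (primorial z) (pv v (t a) + g a) with hT0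
  have h10 : |T1 - T0| ≤ N * (Cz z ^ (d + 1) * (2 * (Real.exp (2 * S) - 1))) := by
    rw [hT1, hT0, ← sum_sub_distrib]
    exact (abs_sum_le_sum_abs _ _).trans hmodel
  have h11 : ((1 + δ) ^ s.card - 1) * T1 ≤ N * (Cz z ^ (d + 1) * (η + (Real.exp (2 * S) - 1))) := by
    calc ((1 + δ) ^ s.card - 1) * T1 ≤ min η 1 * (N * (Cz z ^ (d + 1) * Real.exp (2 * S))) := by
          apply mul_le_mul hpow1 hsize hPB0 (by positivity)
      _ = N * (Cz z ^ (d + 1) * (min η 1 + min η 1 * (Real.exp (2 * S) - 1))) := by ring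
      _ ≤ _ := by
          have h12 : min η 1 * (Real.exp (2 * S) - 1) ≤ 1 * (Real.exp (2 * S) - 1) :=
            mul_le_mul_of_nonneg_right (min_le_right _ _) hE0
          have h13 := min_le_left η 1
          apply mul_le_mul_of_nonneg_left _ hN0
          apply mul_le_mul_of_nonneg_left _ hC0
          linarith
  calc _ ≤ |_ - T1| + |T1 - T0| := abs_sub_le _ _ _
    _ ≤ (((1 + δ) ^ s.card - 1) * T1 + (2 ^ s.card - 1) * (N / L ^ 1)) +
        N * (Cz z ^ (d + 1) * (2 * (Real.exp (2 * S) - 1))) := add_le_add hm h10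
    _ ≤ (N * (Cz z ^ (d + 1) * (η + (Real.exp (2 * S) - 1))) + N * η) +
        N * (Cz z ^ (d + 1) * (2 * (Real.exp (2 * S) - 1))) := by
        gcongr
    _ = _ := by ring

end Pool.Agent.Helper82K9.PR
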