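import Pool.Agent.Helper82K9.PR.PR5
import Pool.Agent.Erdos456.Iface

set_option autoImplicit false

/-! The product of `1 / (1 - 1 / p)` over the small primes; the points of a pair. -/

namespace Pool.Agent.Helper82K9.PR

open Finset Filter

lemma Cz_le : ∃ C : ℝ, 0 < C ∧ ∀ j z : ℕ, 1 ≤ j → z ≤ 2 ^ j → Cz z ≤ C * (j : ℝ) ^ 2 := by
  obtain ⟨C, hC, h⟩ := Pool.Agent.Erdos456.mertens_upper
  refine ⟨Real.exp (2 * C), Real.exp_pos _, fun j z hj hz => ?_⟩
  have h1 : Cz z ≤ Real.exp (2 * ∑ p ∈ Nat.primesBelow (2 ^ j + 1), (p : ℝ)⁻¹) := by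
    unfold Cz
    rw [ratio _ (primorial_pos z), primeFactors_primorial]
    calc ∏ p ∈ Nat.primesLE z, (1 - 1 / (p : ℝ))⁻¹ ≤ ∏ p ∈ Nat.primesLE z, Real.exp (2 * (p : ℝ)⁻¹) := by
          apply Finset.prod_le_prod
          · intro p hp
            have h1 : (2 : ℝ) ≤ p := by exact_mod_cast (Nat.prime_of_mem_primesLE hp).two_le
            have h2 : 1 / (p : ℝ) ≤ 1 / 2 := by
              apply one_div_le_one_div_of_le (by norm_num) h1
            have : 0 < 1 - 1 / (p : ℝ) := by linarith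
            positivity
          · intro p hp
            have h1 : (2 : ℝ) ≤ p := by exact_mod_cast (Nat.prime_of_mem_primesLE hp).two_le
            have h0 : 0 < 1 / (p : ℝ) := by positivity
            have h2 : 1 / (p : ℝ) ≤ 1 / 2 := by
              apply one_div_le_one_div_of_le (by norm_num) h1
            have h3 : 0 < 1 - 1 / (p : ℝ) := by linarith
            have h4 := Real.add_one_le_exp (2 * (1 / (p : ℝ)))
            rw [← one_div (p : ℝ)]
            refine le_trans ?_ h4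
            rw [inv_le_iff_one_le_mul₀ h3]
            nlinarith
      _ = Real.exp (2 * ∑ p ∈ Nat.primesLE z, (p : ℝ)⁻¹) := by rw [mul_sum, Real.exp_sum]
      _ ≤ _ := by
          apply Real.exp_le_exp.2
          apply mul_le_mul_of_nonneg_left _ (by norm_num)
          apply sum_le_sum_of_subset_of_nonneg
          · intro p hp
            rw [Nat.mem_primesLE] at hp
            rw [Nat.mem_primesBelow]
            exact ⟨by omega, hp.2⟩
          · intro p _ _
            positivity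
  refine h1.trans ?_
  have hj0 : (0 : ℝ) < j := by exact_mod_cast hj
  calc Real.exp (2 * ∑ p ∈ Nat.primesBelow (2 ^ j + 1), (p : ℝ)⁻¹) ≤ Real.exp (2 * (Real.log j + C)) := by
        apply Real.exp_le_exp.2
        have := h j hj
        linarith
    _ = Real.exp (2 * C) * (j : ℝ) ^ 2 := by
        rw [mul_add, Real.exp_add, mul_comm]
        congr 1
        rw [two_mul, Real.exp_add, Real.exp_log hj0]
        ring

lemma growth (n : ℕ) (K ε : ℝ) (hK : 0 ≤ K) (hε : 0 < ε) : ∃ z0 : ℕ, 1 ≤ z0 ∧ ∀ z : ℕ, z0 ≤ z →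
    Cz z ^ n * (Real.exp (K / z) - 1) ≤ ε := by
  obtain ⟨C, hC, h⟩ := Cz_le
  have h1 := tendsto_pow_const_div_const_pow_of_one_lt (2 * n) (r := (2 : ℝ)) (by norm_num)
  have h2 := h1.const_mul (C ^ n * (2 * (K * Real.exp K)))
  rw [mul_zero] at h2
  obtain ⟨j0, hj0⟩ := eventually_atTop.1 (h2.eventually (gt_mem_nhds hε))
  refine ⟨2 ^ j0, Nat.one_le_two_pow, fun z hz => ?_⟩
  have hz1 : 1 ≤ z := Nat.one_le_two_pow.trans hz
  set j := Nat.log 2 z + 1 with hj
  have h3 : z ≤ 2 ^ j := (Nat.lt_pow_succ_log_self (by norm_num) z).le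
  have h4 : 2 ^ Nat.log 2 z ≤ z := Nat.pow_log_le_self 2 (by omega)
  have h5 : j0 ≤ j := by
    have : j0 ≤ Nat.log 2 z := Nat.le_log_of_pow_le (by norm_num) hz
    omega
  have h6 := hj0 j h5
  have hz0 : (0 : ℝ) < z := by exact_mod_cast hz1
  have h7 : Real.exp (K / z) - 1 ≤ 2 * (K * Real.exp K) / 2 ^ j := by
    have a1 : 0 ≤ K / (z : ℝ) := by positivity
    have a2 : K / (z : ℝ) ≤ K := div_le_self hK (by exact_mod_cast hz1)
    have a3 := Real.add_one_le_exp (-(K / (z : ℝ)))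
    have a4 : Real.exp (K / z) * Real.exp (-(K / (z : ℝ))) = 1 := by rw [← Real.exp_add]; simp
    have a5 := Real.exp_pos (K / (z : ℝ))
    have a6 : Real.exp (K / z) ≤ Real.exp K := Real.exp_le_exp.2 a2
    have a7 : Real.exp (K / z) * (-(K / (z : ℝ)) + 1) ≤ 1 := (mul_le_mul_of_nonneg_left a3 a5.le).trans a4.le
    have a8 : K / z * Real.exp (K / z) ≤ K / z * Real.exp K := mul_le_mul_of_nonneg_left a6 a1
    have a9 : Real.exp (K / z) - 1 ≤ K / z * Real.exp K := by nlinarith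
    refine a9.trans ?_
    have a10 : (2 : ℝ) ^ j ≤ 2 * z := by
      rw [hj, pow_succ]
      have : ((2 ^ Nat.log 2 z : ℕ) : ℝ) ≤ z := by exact_mod_cast h4
      push_cast at this
      linarith
    rw [le_div_iff₀ (by positivity)]
    calc K / z * Real.exp K * 2 ^ j ≤ K / z * Real.exp K * (2 * z) := by gcongr
      _ = 2 * (K * Real.exp K) := by field_simp
  have h8 : 0 ≤ Real.exp (K / z) - 1 := by
    have a1 : 0 ≤ K / (z : ℝ) := by positivity
    have := Real.add_one_le_exp (K / (z : ℝ))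
    linarith
  have h9 : Cz z ^ n ≤ (C * (j : ℝ) ^ 2) ^ n := pow_le_pow_left₀ (zero_le_one.trans (Cz_ge z)) (h j z (by omega) h3) n
  calc Cz z ^ n * (Real.exp (K / z) - 1) ≤ (C * (j : ℝ) ^ 2) ^ n * (2 * (K * Real.exp K) / 2 ^ j) := by
        apply mul_le_mul h9 h7 h8 (by positivity)
    _ = C ^ n * (2 * (K * Real.exp K)) * ((j : ℝ) ^ (2 * n) / 2 ^ j) := by
        rw [mul_pow, ← pow_mul]; ring
    _ ≤ ε := h6.le

/-- the points of a pair -/
def pts {k : ℕ} (h : Fin k → ℕ) (n m : ℕ) : Fin k ⊕ Fin k → ℕ := Sum.elim (fun i => n + h i) (fun i => m + h i)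

/-- the pairs without coincidences -/
def Good {k : ℕ} (h : Fin k → ℕ) (n m : ℕ) : Prop := ∀ i j : Fin k, n + h i ≠ m + h j

instance {k : ℕ} (h : Fin k → ℕ) (n m : ℕ) : Decidable (Good h n m) := by unfold Good; infer_instance

lemma pts_inj {k : ℕ} (h : Fin k → ℕ) (hh : Function.Injective h) (n m : ℕ) (hg : Good h n m) :
    Function.Injective (pts h n m) := by
  intro a b hab
  unfold pts at hab
  rcases a with a | a <;> rcases b with b | b <;> simp only [Sum.elim_inl, Sum.elim_inr] at hab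
  · exact congrArg Sum.inl (hh (by omega))
  · exact absurd hab (hg a b)
  · exact absurd hab.symm (hg b a)
  · exact congrArg Sum.inr (hh (by omega))

lemma wd_sg {ι : Type} [Fintype ι] [DecidableEq ι] (z : ℕ) (t : ι → ℕ) (ht : Function.Injective t) (b : ι) :
    sg z (wd t b) ≤ ∑ a, sg z ((t b : ℤ) - t a).natAbs := by
  unfold wd
  have h1 : (∏ a ∈ univ.erase b, ((t b : ℤ) - t a)).natAbs = ∏ a ∈ univ.erase b, ((t b : ℤ) - t a).natAbs := by
    exact map_prod Int.natAbsHom _ _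
  rw [h1]
  refine (sg_prod z _ _ ?_).trans ?_
  · intro a ha h
    have h2 : (t b : ℤ) = t a := by omega
    have h3 : t b = t a := by exact_mod_cast h2
    exact (ne_of_mem_erase ha) (ht h3).symm
  · apply sum_le_sum_of_subset_of_nonneg (erase_subset _ _)
    intro a _ _
    exact sg_nonneg _ _

lemma Sg_pts {k : ℕ} (h : Fin k → ℕ) (hh : Function.Injective h) (h0 z : ℕ) (hh0 : ∀ i, h i ≤ h0) (hz : h0 ≤ z) (n m : ℕ)
    (hg : Good h n m) :
    Sg z (pts h n m) ≤ 2 * ∑ i, ∑ j, sg z ((n + h i : ℤ) - (m + h j)).natAbs := by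
  unfold Sg
  rw [Fintype.sum_sum_type]
  have hsm : ∀ i j : Fin k, ∀ c : ℕ, sg z (((c + h i : ℕ) : ℤ) - ((c + h j : ℕ) : ℤ)).natAbs = 0 := by
    intro i j c
    apply sg_small
    have h1 := hh0 i
    have h2 := hh0 j
    omega
  have e1 : ∀ i : Fin k, sg z (wd (pts h n m) (Sum.inl i)) ≤ ∑ j, sg z ((n + h i : ℤ) - (m + h j)).natAbs := by
    intro i
    refine (wd_sg z _ (pts_inj h hh n m hg) _).trans (le_of_eq ?_)
    rw [Fintype.sum_sum_type]
    unfold pts
    simp only [Sum.elim_inl, Sum.elim_inr, hsm, sum_const_zero, zero_add]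
    apply sum_congr rfl
    intro j _
    push_cast
    rfl
  have e2 : ∀ j : Fin k, sg z (wd (pts h n m) (Sum.inr j)) ≤ ∑ i, sg z ((n + h i : ℤ) - (m + h j)).natAbs := by
    intro j
    refine (wd_sg z _ (pts_inj h hh n m hg) _).trans (le_of_eq ?_)
    rw [Fintype.sum_sum_type]
    unfold pts
    simp only [Sum.elim_inl, Sum.elim_inr, hsm, sum_const_zero, add_zero]
    apply sum_congr rfl
    intro i _
    congr 1
    push_cast
    omega
  have e3 : ∑ j : Fin k, ∑ i : Fin k, sg z ((n + h i : ℤ) - (m + h j)).natAbs =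
      ∑ i : Fin k, ∑ j : Fin k, sg z ((n + h i : ℤ) - (m + h j)).natAbs := sum_comm
  have f1 := sum_le_sum (s := univ) (fun i _ => e1 i)
  have f2 := sum_le_sum (s := univ) (fun j _ => e2 j)
  rw [e3] at f2
  linarith

lemma exp_sum_le {k : ℕ} (y : Fin k → Fin k → ℝ) (hy : ∀ i j, 0 ≤ y i j) :
    Real.exp (∑ i, ∑ j, y i j) - 1 ≤ ∑ i, ∑ j, (Real.exp (k ^ 2 * y i j) - 1) := by
  rcases Nat.eq_zero_or_pos k with h0 | h0
  · subst h0
    simp
  haveI : Nonempty (Fin k × Fin k) := ⟨(⟨0, h0⟩, ⟨0, h0⟩)⟩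
  obtain ⟨⟨i₀, j₀⟩, _, hm⟩ := (univ : Finset (Fin k × Fin k)).exists_max_image (fun q => y q.1 q.2) univ_nonempty
  have h1 : ∑ i, ∑ j, y i j ≤ k ^ 2 * y i₀ j₀ := by
    calc ∑ i, ∑ j, y i j ≤ ∑ i : Fin k, ∑ j : Fin k, y i₀ j₀ :=
          sum_le_sum fun i _ => sum_le_sum fun j _ => hm (i, j) (mem_univ _)
      _ = _ := by simp only [sum_const, card_univ, Fintype.card_fin, nsmul_eq_mul]; ring
  have h2 : ∀ i j, 0 ≤ Real.exp (k ^ 2 * y i j) - 1 := by
    intro i j
    have := hy i j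
    have h3 : 0 ≤ (k : ℝ) ^ 2 * y i j := by positivity
    have := Real.add_one_le_exp ((k : ℝ) ^ 2 * y i j)
    linarith
  calc Real.exp (∑ i, ∑ j, y i j) - 1 ≤ Real.exp (k ^ 2 * y i₀ j₀) - 1 := by
        have := Real.exp_le_exp.2 h1
        linarith
    _ ≤ ∑ j, (Real.exp (k ^ 2 * y i₀ j) - 1) :=
        single_le_sum (f := fun j => Real.exp (k ^ 2 * y i₀ j) - 1) (fun j _ => h2 i₀ j) (mem_univ j₀)
    _ ≤ _ := single_le_sum (f := fun i => ∑ j, (Real.exp (k ^ 2 * y i j) - 1))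
        (fun i _ => sum_nonneg fun j _ => h2 i j) (mem_univ i₀)

/-- the sum of a function of the distance -/
lemma sum_dist (f : ℕ → ℝ) (hf : ∀ u, 0 ≤ f u) (hf0 : f 0 = 0) (x c : ℕ) (hc : c ≤ x) (n a b : ℕ) (hn : n ∈ Icc 1 x)
    (ha : a ≤ c) (hb : b ≤ c) :
    ∑ m ∈ Icc 1 x, f ((n + a : ℤ) - (m + b)).natAbs ≤ 2 * ∑ u ∈ Icc 1 (2 * x), f u := by
  rw [mem_Icc] at hn
  have h1 : ∑ m ∈ Icc 1 x, f ((n + a : ℤ) - (m + b)).natAbs =
      ∑ m ∈ (Icc 1 x).filter (fun m : ℕ => m + b < n + a), f ((n + a : ℤ) - (m + b)).natAbs +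
      ∑ m ∈ (Icc 1 x).filter (fun m : ℕ => ¬ m + b < n + a), f ((n + a : ℤ) - (m + b)).natAbs :=
    (sum_filter_add_sum_filter_not _ _ _).symm
  have h2 : ∑ m ∈ (Icc 1 x).filter (fun m : ℕ => m + b < n + a), f ((n + a : ℤ) - (m + b)).natAbs ≤
      ∑ u ∈ Icc 1 (2 * x), f u := by
    have e1 : ∑ m ∈ (Icc 1 x).filter (fun m : ℕ => m + b < n + a), f ((n + a : ℤ) - (m + b)).natAbs =
        ∑ u ∈ ((Icc 1 x).filter (fun m : ℕ => m + b < n + a)).image (fun m : ℕ => ((n + a : ℤ) - (m + b)).natAbs), f u := by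
      rw [sum_image]
      intro m hm m' hm' h
      have hm := mem_coe.1 hm
      have hm' := mem_coe.1 hm'
      rw [mem_filter, mem_Icc] at hm hm'
      simp only at h
      omega
    rw [e1]
    apply sum_le_sum_of_subset_of_nonneg
    · intro u hu
      rw [mem_image] at hu
      obtain ⟨m, hm, rfl⟩ := hu
      rw [mem_filter, mem_Icc] at hm
      rw [mem_Icc]
      omega
    · intro u _ _
      exact hf u
  have h3 : ∑ m ∈ (Icc 1 x).filter (fun m : ℕ => ¬ m + b < n + a), f ((n + a : ℤ) - (m + b)).natAbs ≤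
      ∑ u ∈ Icc 1 (2 * x), f u := by
    have e1 : ∑ m ∈ (Icc 1 x).filter (fun m : ℕ => ¬ m + b < n + a), f ((n + a : ℤ) - (m + b)).natAbs =
        ∑ u ∈ ((Icc 1 x).filter (fun m : ℕ => ¬ m + b < n + a)).image (fun m : ℕ => ((n + a : ℤ) - (m + b)).natAbs), f u := by
      rw [sum_image]
      intro m hm m' hm' h
      have hm := mem_coe.1 hm
      have hm' := mem_coe.1 hm'
      rw [mem_filter, mem_Icc] at hm hm'
      simp only at h
      omega
    rw [e1]
    calc ∑ u ∈ ((Icc 1 x).filter (fun m : ℕ => ¬ m + b < n + a)).image (fun m : ℕ => ((n + a : ℤ) - (m + b)).natAbs), f u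
        ≤ ∑ u ∈ insert 0 (Icc 1 (2 * x)), f u := by
          apply sum_le_sum_of_subset_of_nonneg
          · intro u hu
            rw [mem_image] at hu
            obtain ⟨m, hm, rfl⟩ := hu
            rw [mem_filter, mem_Icc] at hm
            rw [mem_insert, mem_Icc]
            omega
          · intro u _ _
            exact hf u
      _ = _ := by
          rw [sum_insert (by simp), hf0, zero_add]
  linarith

end Pool.Agent.Helper82K9.PR
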