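import Pool.Agent.Helper82K9.PR.PR6

set_option autoImplicit false

/-! The second moment over the box of polynomials. -/

namespace Pool.Agent.Helper82K9.PR

open Finset Filter

/-- the weight of the tuples of primes -/
noncomputable def FF {k d : ℕ} (L : ℝ) (h : Fin k → ℕ) (G : ℕ → Fin k → ℤ) (v : Fin (d + 1) → ℤ) (n : ℕ) : ℝ :=
  ∏ i, om L (pv v (n + h i) + G n i)

/-- the weight of the tuples without prime factors `≤ z` -/
noncomputable def RR {k d : ℕ} (z : ℕ) (h : Fin k → ℕ) (G : ℕ → Fin k → ℤ) (v : Fin (d + 1) → ℤ) (n : ℕ) : ℝ :=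
  ∏ i, MM (primorial z) (pv v (n + h i) + G n i)

lemma sq_sum {V : Type} (S : Finset V) (I : Finset ℕ) (w : ℕ → ℂ) (hw : ∀ n, ‖w n‖ ≤ 1) (D : V → ℕ → ℝ) :
    ∑ v ∈ S, ‖∑ n ∈ I, w n * (D v n : ℂ)‖ ^ 2 ≤ ∑ n ∈ I, ∑ m ∈ I, |∑ v ∈ S, D v n * D v m| := by
  have e1 : ((∑ v ∈ S, ‖∑ n ∈ I, w n * (D v n : ℂ)‖ ^ 2 : ℝ) : ℂ) =
      ∑ n ∈ I, ∑ m ∈ I, w n * (starRingEnd ℂ) (w m) * ((∑ v ∈ S, D v n * D v m : ℝ) : ℂ) := by
    have e2 : ∀ v ∈ S, ((‖∑ n ∈ I, w n * (D v n : ℂ)‖ ^ 2 : ℝ) : ℂ) =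
        ∑ n ∈ I, ∑ m ∈ I, w n * (starRingEnd ℂ) (w m) * ((D v n * D v m : ℝ) : ℂ) := by
      intro v _
      rw [← Complex.normSq_eq_norm_sq, ← Complex.mul_conj, map_sum, sum_mul_sum]
      apply sum_congr rfl
      intro n _
      apply sum_congr rfl
      intro m _
      rw [map_mul, Complex.conj_ofReal]
      push_cast
      ring
    rw [Complex.ofReal_sum, sum_congr rfl e2, sum_comm]
    apply sum_congr rfl
    intro n _
    rw [sum_comm]
    apply sum_congr rfl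
    intro m _
    rw [Complex.ofReal_sum, mul_sum]
  have h0 : 0 ≤ ∑ v ∈ S, ‖∑ n ∈ I, w n * (D v n : ℂ)‖ ^ 2 := sum_nonneg fun v _ => by positivity
  have h1 : ‖((∑ v ∈ S, ‖∑ n ∈ I, w n * (D v n : ℂ)‖ ^ 2 : ℝ) : ℂ)‖ = ∑ v ∈ S, ‖∑ n ∈ I, w n * (D v n : ℂ)‖ ^ 2 := by
    rw [Complex.norm_real, Real.norm_of_nonneg h0]
  rw [← h1, e1]
  refine (norm_sum_le _ _).trans (sum_le_sum fun n _ => (norm_sum_le _ _).trans (sum_le_sum fun m _ => ?_))
  rw [norm_mul, norm_mul, RCLike.norm_conj, Complex.norm_real, Real.norm_eq_abs]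
  calc ‖w n‖ * ‖w m‖ * |∑ v ∈ S, D v n * D v m| ≤ 1 * 1 * |∑ v ∈ S, D v n * D v m| := by
        gcongr
        · exact hw n
        · exact hw m
    _ = _ := by ring

lemma prods {k d : ℕ} (L : ℝ) (z : ℕ) (h : Fin k → ℕ) (G : ℕ → Fin k → ℤ) (v : Fin (d + 1) → ℤ) (n m : ℕ) :
    PA L univ (fun _ => MM (primorial z)) (fun a => pv v (pts h n m a) + Sum.elim (G n) (G m) a) =
      FF L h G v n * FF L h G v m ∧
    PA L (univ.filter (fun a : Fin k ⊕ Fin k => a.isLeft)) (fun _ => MM (primorial z))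
      (fun a => pv v (pts h n m a) + Sum.elim (G n) (G m) a) = FF L h G v n * RR z h G v m ∧
    PA L (univ.filter (fun a : Fin k ⊕ Fin k => a.isRight)) (fun _ => MM (primorial z))
      (fun a => pv v (pts h n m a) + Sum.elim (G n) (G m) a) = RR z h G v n * FF L h G v m ∧
    ∏ a, MM (primorial z) (pv v (pts h n m a) + Sum.elim (G n) (G m) a) = RR z h G v n * RR z h G v m := by
  unfold PA FF RR pts
  refine ⟨?_, ?_, ?_, ?_⟩ <;> rw [Fintype.prod_sum_type] <;> simp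

/-- one point -/
lemma single (k : ℕ) (h : Fin k → ℕ) (hh : Function.Injective h) (d : ℕ) (hd : k ≤ d + 1) (B0 : ℕ)
    (C η : ℝ) (hη : 0 < η) (z : ℕ) (hz : ∀ i, h i ≤ z) : ∃ H0 : ℕ, 3 ≤ H0 ∧ ∀ H : ℕ, H0 ≤ H → ∀ X : ℕ,
    1 ≤ X → (X : ℝ) ≤ Real.log H ^ B0 → ∀ G : ℕ → Fin k → ℤ, ∀ n : ℕ, 1 ≤ n → (∀ i, n + h i ≤ X) →
    (∀ i, |(G n i : ℝ)| ≤ C * H * ((n + h i : ℕ) : ℝ) ^ d) →
    ∑ v ∈ Bx d H, FF (Real.log H) h G v n ≤ (Bx d H).card * (Cz z ^ k + (Cz z ^ (d + 1) * η + η)) := by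
  obtain ⟨H0, hH0, hc⟩ := comb d B0 C η hη z
  refine ⟨H0, hH0, fun H hH X hX1 hXH G n hn hnX hG => ?_⟩
  have h1 := hc H hH (Fin k) (by rw [Fintype.card_fin]; exact hd) X hX1 hXH (fun i => n + h i)
    (fun a b hab => hh (by simpa using hab)) (fun i => ⟨by have := Nat.le_add_right n (h i); omega, hnX i⟩) (G n) hG univ
  have hSg : Sg z (fun i : Fin k => n + h i) = 0 := by
    unfold Sg
    apply sum_eq_zero
    intro i _
    apply le_antisymm _ (sg_nonneg _ _)
    refine (wd_sg z _ (fun a b hab => hh (by simpa using hab)) _).trans (le_of_eq ?_)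
    apply sum_eq_zero
    intro j _
    apply sg_small
    have h2 := hz i
    have h3 := hz j
    push_cast
    omega
  rw [hSg, mul_zero, Real.exp_zero, sub_self, mul_zero, add_zero] at h1
  have e1 : ∀ v : Fin (d + 1) → ℤ, PA (Real.log H) univ (fun _ => MM (primorial z)) (fun i => pv v (n + h i) + G n i) =
      FF (Real.log H) h G v n := by
    intro v
    unfold PA FF
    simp
  simp only [e1] at h1
  have h2 : ∑ v ∈ Bx d H, ∏ i, MM (primorial z) (pv v (n + h i) + G n i) ≤ (Bx d H).card * Cz z ^ k := by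
    rw [← nsmul_eq_mul, ← sum_const]
    apply sum_le_sum
    intro v _
    calc ∏ i, MM (primorial z) (pv v (n + h i) + G n i) ≤ ∏ i : Fin k, Cz z :=
          Finset.prod_le_prod (fun a _ => MM_nonneg _ _) (fun a _ => MM_le_Cz z _)
      _ = _ := by rw [prod_const, card_univ, Fintype.card_fin]
  have h3 := (abs_le.1 h1).2
  linarith

lemma om_sq (L : ℝ) (u : ℤ) : om L u ^ 2 = L * om L u := by
  unfold om; split_ifs <;> ring

lemma FF_sq {k d : ℕ} (L : ℝ) (h : Fin k → ℕ) (G : ℕ → Fin k → ℤ) (v : Fin (d + 1) → ℤ) (n : ℕ) :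
    FF L h G v n ^ 2 = L ^ k * FF L h G v n := by
  unfold FF
  rw [← prod_pow, prod_congr rfl (fun i _ => om_sq L _), prod_mul_distrib, prod_const, card_univ, Fintype.card_fin]

lemma FF_nonneg {k d : ℕ} {L : ℝ} (hL : 0 ≤ L) (h : Fin k → ℕ) (G : ℕ → Fin k → ℤ) (v : Fin (d + 1) → ℤ) (n : ℕ) :
    0 ≤ FF L h G v n := prod_nonneg fun i _ => om_nonneg hL _

lemma RR_nonneg {k d : ℕ} (z : ℕ) (h : Fin k → ℕ) (G : ℕ → Fin k → ℤ) (v : Fin (d + 1) → ℤ) (n : ℕ) :
    0 ≤ RR z h G v n := prod_nonneg fun i _ => MM_nonneg _ _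

lemma RR_le {k d : ℕ} (z : ℕ) (h : Fin k → ℕ) (G : ℕ → Fin k → ℤ) (v : Fin (d + 1) → ℤ) (n : ℕ) :
    RR z h G v n ≤ Cz z ^ k := by
  unfold RR
  calc ∏ i, MM (primorial z) (pv v (n + h i) + G n i) ≤ ∏ i : Fin k, Cz z :=
        Finset.prod_le_prod (fun a _ => MM_nonneg _ _) (fun a _ => MM_le_Cz z _)
    _ = _ := by rw [prod_const, card_univ, Fintype.card_fin]

lemma bad_card {k : ℕ} (h : Fin k → ℕ) (x n : ℕ) :
    ((Icc 1 x).filter (fun m => ¬ Good h n m)).card ≤ k ^ 2 := by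
  have h1 : (Icc 1 x).filter (fun m => ¬ Good h n m) ⊆
      (univ : Finset (Fin k × Fin k)).image (fun q => n + h q.1 - h q.2) := by
    intro m hm
    rw [mem_filter] at hm
    have h2 := hm.2
    unfold Good at h2
    push Not at h2
    obtain ⟨i, j, h3⟩ := h2
    rw [mem_image]
    exact ⟨(i, j), mem_univ _, by simp only; omega⟩
  refine (card_le_card h1).trans (card_image_le.trans (le_of_eq ?_))
  rw [card_univ, Fintype.card_prod, Fintype.card_fin]
  ring

theorem second (k : ℕ) (hk : 1 ≤ k) (h : Fin k → ℕ) (hh : Function.Injective h) (d : ℕ) (hd : 2 * k ≤ d + 1) (B0 : ℕ)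
    (C ε : ℝ) (hε : 0 < ε) : ∃ z0 : ℕ, 1 ≤ z0 ∧ ∀ z : ℕ, z0 ≤ z → ∃ A : ℕ, 3 ≤ A ∧ ∀ H : ℕ, A ≤ H → ∀ x : ℕ,
    A * Real.log H ^ k ≤ x → (x : ℝ) ≤ Real.log H ^ B0 → ∀ G : ℕ → Fin k → ℤ,
    (∀ n ∈ Icc 1 x, ∀ i, |(G n i : ℝ)| ≤ C * H * ((n + h i : ℕ) : ℝ) ^ d) → ∀ w : ℕ → ℂ, (∀ n, ‖w n‖ ≤ 1) →
    ∑ v ∈ Bx d H, ‖∑ n ∈ Icc 1 x, w n * ((FF (Real.log H) h G v n - RR z h G v n : ℝ) : ℂ)‖ ^ 2 ≤
      ε * x ^ 2 * (Bx d H).card := by
  obtain ⟨h0, hh0⟩ : ∃ h0 : ℕ, ∀ i, h i ≤ h0 := ⟨univ.sup h, fun i => le_sup (mem_univ i)⟩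
  have hkr : (1 : ℝ) ≤ k := by exact_mod_cast hk
  obtain ⟨z1, hz11, hz1⟩ := growth (d + 1) (4 * k ^ 2 * Real.exp (4 * k ^ 2)) (ε / (144 * k ^ 2)) (by positivity) (by positivity)
  refine ⟨max z1 h0, hz11.trans (le_max_left _ _), fun z hz => ?_⟩
  have hzh0 : h0 ≤ z := (le_max_right _ _).trans hz
  have hzz1 : z1 ≤ z := (le_max_left _ _).trans hz
  have hz1' : 1 ≤ z := hz11.trans hzz1
  have hg := hz1 z hzz1
  set ζ := Real.exp (4 * k ^ 2 * Real.exp (4 * k ^ 2) / z) - 1 with hζ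
  have hCz := Cz_ge z
  set P := Cz z ^ (d + 1) with hP
  have hP1 : 1 ≤ P := one_le_pow₀ hCz
  set η := min 1 (ε / (12 * (P + 1))) with hη
  have hη0 : 0 < η := lt_min one_pos (by positivity)
  have hη1 : η ≤ 1 := min_le_left _ _
  have hηε : 3 * (P + 1) * η ≤ ε / 4 := by
    have h1 : η ≤ ε / (12 * (P + 1)) := min_le_right _ _
    rw [le_div_iff₀ (by positivity)] at h1
    linarith
  obtain ⟨H1, hH1, hc⟩ := comb d (B0 + 1) C η hη0 z
  obtain ⟨H2, hH2, hs⟩ := single k h hh d (by omega) (B0 + 1) C η hη0 z (fun i => (hh0 i).trans hzh0)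
  set K := Cz z ^ k + (P + 1) + Cz z ^ (2 * k) with hK
  have hK0 : 0 < K := by positivity
  obtain ⟨A1, hA1⟩ := exists_nat_ge (2 * k ^ 2 * K / ε + h0)
  have hlog : Tendsto (fun n : ℕ => Real.log n) atTop atTop := Real.tendsto_log_atTop.comp tendsto_natCast_atTop_atTop
  obtain ⟨H3, h3⟩ := eventually_atTop.1 (hlog.eventually_ge_atTop ((h0 : ℝ) + 1))
  refine ⟨max (max H1 H2) (max (max A1 H3) 3), (le_max_right _ _).trans (le_max_right _ _), fun H hH x hAx hxB G hG w hw => ?_⟩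
  have hHH1 : H1 ≤ H := ((le_max_left _ _).trans (le_max_left _ _)).trans hH
  have hHH2 : H2 ≤ H := ((le_max_right _ _).trans (le_max_left _ _)).trans hH
  have hA1m : (A1 : ℝ) ≤ ((max (max H1 H2) (max (max A1 H3) 3) : ℕ) : ℝ) := by
    exact_mod_cast ((le_max_left _ _).trans (le_max_left _ _)).trans (le_max_right _ _)
  have hLh : (h0 : ℝ) + 1 ≤ Real.log H := h3 H ((((le_max_right _ _).trans (le_max_left _ _)).trans (le_max_right _ _)).trans hH)
  have hc' := hc H hHH1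
  have hs' := hs H hHH2
  set L := Real.log H with hL
  have hL1 : 1 ≤ L := by have : (0 : ℝ) ≤ h0 := Nat.cast_nonneg _
                         linarith
  have hL0 : 0 < L := by linarith
  have hLk : 1 ≤ L ^ k := one_le_pow₀ hL1
  have hxA : 2 * k ^ 2 * K / ε * L ^ k + h0 ≤ x := by
    have h4 : (2 * k ^ 2 * K / ε + h0) * L ^ k ≤ x := by
      refine le_trans ?_ hAx
      apply mul_le_mul_of_nonneg_right (hA1.trans hA1m) (by positivity)
    have h5 : (h0 : ℝ) ≤ h0 * L ^ k := le_mul_of_one_le_right (Nat.cast_nonneg _) hLk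
    linarith
  have hx0 : (0 : ℝ) < x := by
    have : 0 < 2 * k ^ 2 * K / ε * L ^ k := by positivity
    have : (0 : ℝ) ≤ h0 := Nat.cast_nonneg _
    linarith
  have hh0x : h0 ≤ x := by
    have : 0 < 2 * k ^ 2 * K / ε * L ^ k := by positivity
    have h5 : (h0 : ℝ) ≤ x := by linarith
    exact_mod_cast h5
  have hx1 : 1 ≤ x := by exact_mod_cast hx0
  set X := x + h0 with hX
  have hX1 : 1 ≤ X := by omega
  have hXL : (X : ℝ) ≤ L ^ (B0 + 1) := by
    have h5 : 1 ≤ L ^ B0 := one_le_pow₀ hL1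
    rw [hX, pow_succ]
    push_cast
    have h6 : (0 : ℝ) ≤ h0 := Nat.cast_nonneg _
    nlinarith
  have hnX : ∀ n ∈ Icc 1 x, ∀ i, 1 ≤ n + h i ∧ n + h i ≤ X := by
    intro n hn i
    rw [mem_Icc] at hn
    have := hh0 i
    omega
  set N : ℝ := ((Bx d H).card : ℝ) with hN
  have hN0 : 0 ≤ N := Nat.cast_nonneg _
  -- the squares
  have hQ : ∀ n ∈ Icc 1 x, ∑ v ∈ Bx d H, (FF L h G v n - RR z h G v n) ^ 2 ≤ N * (L ^ k * K) := by
    intro n hn
    have h4 := hs' X hX1 hXL G n (mem_Icc.1 hn).1 (fun i => (hnX n hn i).2) (hG n hn)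
    calc ∑ v ∈ Bx d H, (FF L h G v n - RR z h G v n) ^ 2 ≤ ∑ v ∈ Bx d H, (L ^ k * FF L h G v n + Cz z ^ (2 * k)) := by
          apply sum_le_sum
          intro v _
          have h5 := FF_sq L h G v n
          have h6 := FF_nonneg hL0.le h G v n
          have h7 := RR_nonneg z h G v n
          have h8 := RR_le z h G v n
          have h9 : RR z h G v n ^ 2 ≤ Cz z ^ (2 * k) := by
            rw [mul_comm 2 k, pow_mul]
            exact pow_le_pow_left₀ h7 h8 2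
          have h10 := mul_nonneg h6 h7
          rw [← h5]
          nlinarith
      _ = L ^ k * ∑ v ∈ Bx d H, FF L h G v n + N * Cz z ^ (2 * k) := by
          rw [sum_add_distrib, ← mul_sum, sum_const, nsmul_eq_mul]
      _ ≤ L ^ k * (N * (Cz z ^ k + (P * η + η))) + N * Cz z ^ (2 * k) := by gcongr
      _ ≤ L ^ k * (N * (Cz z ^ k + (P * 1 + 1))) + N * (L ^ k * Cz z ^ (2 * k)) := by
          gcongr
          exact le_mul_of_one_le_left (by positivity) hLk
      _ = _ := by rw [hK]; ring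
  have hbad : ∀ n ∈ Icc 1 x, ∀ m ∈ Icc 1 x,
      |∑ v ∈ Bx d H, (FF L h G v n - RR z h G v n) * (FF L h G v m - RR z h G v m)| ≤ N * (L ^ k * K) := by
    intro n hn m hm
    calc _ ≤ ∑ v ∈ Bx d H, |(FF L h G v n - RR z h G v n) * (FF L h G v m - RR z h G v m)| := abs_sum_le_sum_abs _ _
      _ ≤ ∑ v ∈ Bx d H, (1 / 2 * (FF L h G v n - RR z h G v n) ^ 2 + 1 / 2 * (FF L h G v m - RR z h G v m) ^ 2) := by
          apply sum_le_sum
          intro v _
          rw [abs_mul]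
          have := sq_nonneg (|FF L h G v n - RR z h G v n| - |FF L h G v m - RR z h G v m|)
          rw [sub_sq, sq_abs, sq_abs] at this
          linarith
      _ = 1 / 2 * ∑ v ∈ Bx d H, (FF L h G v n - RR z h G v n) ^ 2 + 1 / 2 * ∑ v ∈ Bx d H, (FF L h G v m - RR z h G v m) ^ 2 := by
          rw [sum_add_distrib, mul_sum, mul_sum]
      _ ≤ _ := by
          have h4 := hQ n hn
          have h5 := hQ m hm
          linarith
  have hgood : ∀ n ∈ Icc 1 x, ∀ m ∈ Icc 1 x, Good h n m →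
      |∑ v ∈ Bx d H, (FF L h G v n - RR z h G v n) * (FF L h G v m - RR z h G v m)| ≤
        N * (3 * (P + 1) * η + 9 * P * ∑ i, ∑ j, (Real.exp (4 * k ^ 2 * sg z ((n + h i : ℤ) - (m + h j)).natAbs) - 1)) := by
    intro n hn m hm hgd
    have hgen := hc' (Fin k ⊕ Fin k) (by rw [Fintype.card_sum, Fintype.card_fin]; omega) X hX1 hXL (pts h n m)
      (pts_inj h hh n m hgd) (by
        intro a
        rcases a with i | j
        · exact hnX n hn i
        · exact hnX m hm j) (Sum.elim (G n) (G m)) (by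
        intro a
        rcases a with i | j
        · exact hG n hn i
        · exact hG m hm j)
    have g1 := hgen univ
    have g2 := hgen (univ.filter (fun a : Fin k ⊕ Fin k => a.isLeft))
    have g3 := hgen (univ.filter (fun a : Fin k ⊕ Fin k => a.isRight))
    simp only [(prods L z h G _ n m).1, (prods L z h G _ n m).2.2.2] at g1
    simp only [(prods L z h G _ n m).2.1, (prods L z h G _ n m).2.2.2] at g2
    simp only [(prods L z h G _ n m).2.2.1, (prods L z h G _ n m).2.2.2] at g3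
    rw [← hP] at g1 g2 g3
    have e1 : ∑ v ∈ Bx d H, (FF L h G v n - RR z h G v n) * (FF L h G v m - RR z h G v m) =
        (∑ v ∈ Bx d H, FF L h G v n * FF L h G v m - ∑ v ∈ Bx d H, RR z h G v n * RR z h G v m) -
        (∑ v ∈ Bx d H, FF L h G v n * RR z h G v m - ∑ v ∈ Bx d H, RR z h G v n * RR z h G v m) -
        (∑ v ∈ Bx d H, RR z h G v n * FF L h G v m - ∑ v ∈ Bx d H, RR z h G v n * RR z h G v m) := by
      simp only [← sum_sub_distrib]
      apply sum_congr rfl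
      intro v _
      ring
    have hE : Real.exp (2 * Sg z (pts h n m)) - 1 ≤
        ∑ i, ∑ j, (Real.exp (4 * k ^ 2 * sg z ((n + h i : ℤ) - (m + h j)).natAbs) - 1) := by
      have h4 := Sg_pts h hh h0 z hh0 hzh0 n m hgd
      have h5 := exp_sum_le (fun i j => 4 * sg z ((n + h i : ℤ) - (m + h j)).natAbs) (fun i j => by
        have := sg_nonneg z ((n + h i : ℤ) - (m + h j)).natAbs
        positivity)
      have h6 : Real.exp (2 * Sg z (pts h n m)) ≤ Real.exp (∑ i, ∑ j, 4 * sg z ((n + h i : ℤ) - (m + h j)).natAbs) := by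
        apply Real.exp_le_exp.2
        simp only [← mul_sum]
        linarith
      have h7 : ∀ i j : Fin k, (k : ℝ) ^ 2 * (4 * sg z ((n + h i : ℤ) - (m + h j)).natAbs) =
          4 * k ^ 2 * sg z ((n + h i : ℤ) - (m + h j)).natAbs := fun i j => by ring
      simp only [h7] at h5
      linarith
    rw [e1]
    refine (abs_sub _ _).trans ?_
    refine (add_le_add_left (abs_sub _ _) _).trans ?_
    refine (add_le_add (add_le_add g1 g2) g3).trans ?_
    have h8 : N * (P * (η + 3 * (Real.exp (2 * Sg z (pts h n m)) - 1)) + η) ≤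
        N * (P * (η + 3 * ∑ i, ∑ j, (Real.exp (4 * k ^ 2 * sg z ((n + h i : ℤ) - (m + h j)).natAbs) - 1)) + η) := by
      gcongr
    calc _ ≤ 3 * (N * (P * (η + 3 * ∑ i, ∑ j, (Real.exp (4 * k ^ 2 * sg z ((n + h i : ℤ) - (m + h j)).natAbs) - 1)) + η)) := by
          linarith
      _ = _ := by ring
  -- the double sum
  have hexp0 : ∀ u : ℕ, 0 ≤ Real.exp (4 * k ^ 2 * sg z u) - 1 := by
    intro u
    have h4 : 0 ≤ 4 * (k : ℝ) ^ 2 * sg z u := by have := sg_nonneg z u; positivity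
    have := Real.add_one_le_exp (4 * (k : ℝ) ^ 2 * sg z u)
    linarith
  have hdist : ∀ i j : Fin k, ∑ n ∈ Icc 1 x, ∑ m ∈ Icc 1 x,
      (Real.exp (4 * k ^ 2 * sg z ((n + h i : ℤ) - (m + h j)).natAbs) - 1) ≤ x * (2 * (2 * x * ζ)) := by
    intro i j
    calc _ ≤ ∑ n ∈ Icc 1 x, 2 * (2 * x * ζ) := by
          apply sum_le_sum
          intro n hn
          refine (sum_dist (fun u => Real.exp (4 * k ^ 2 * sg z u) - 1) hexp0 ?_ x h0 hh0x n (h i) (h j) hn (hh0 i) (hh0 j)).trans ?_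
          · rw [sg_small z 0 (Nat.zero_le _), mul_zero, Real.exp_zero, sub_self]
          · have h4 := sum_exp_sg' (4 * k ^ 2) (by positivity) z (2 * x) hz1'
            apply mul_le_mul_of_nonneg_left _ (by norm_num)
            refine h4.trans (le_of_eq ?_)
            push_cast
            rw [hζ]
      _ = _ := by rw [sum_const, Nat.card_Icc, Nat.add_sub_cancel, nsmul_eq_mul]
  have hζ0 : 0 ≤ ζ := by
    rw [hζ]
    have h4 : 0 ≤ 4 * (k : ℝ) ^ 2 * Real.exp (4 * k ^ 2) / z := by positivity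
    have := Real.add_one_le_exp (4 * (k : ℝ) ^ 2 * Real.exp (4 * k ^ 2) / z)
    linarith
  refine (sq_sum (Bx d H) (Icc 1 x) w hw (fun v n => FF L h G v n - RR z h G v n)).trans ?_
  calc ∑ n ∈ Icc 1 x, ∑ m ∈ Icc 1 x, |∑ v ∈ Bx d H, (FF L h G v n - RR z h G v n) * (FF L h G v m - RR z h G v m)|
      ≤ ∑ n ∈ Icc 1 x, ∑ m ∈ Icc 1 x, ((N * (3 * (P + 1) * η) + N * (9 * P) * ∑ i, ∑ j,
          (Real.exp (4 * k ^ 2 * sg z ((n + h i : ℤ) - (m + h j)).natAbs) - 1)) +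
          (if ¬ Good h n m then N * (L ^ k * K) else 0)) := by
        apply sum_le_sum
        intro n hn
        apply sum_le_sum
        intro m hm
        by_cases hgd : Good h n m
        · rw [if_neg (not_not.2 hgd), add_zero]
          refine (hgood n hn m hm hgd).trans (le_of_eq ?_)
          ring
        · rw [if_pos hgd]
          have h4 := hbad n hn m hm
          have h5 : 0 ≤ N * (3 * (P + 1) * η) + N * (9 * P) * ∑ i, ∑ j,
              (Real.exp (4 * k ^ 2 * sg z ((n + h i : ℤ) - (m + h j)).natAbs) - 1) := by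
            have h6 : 0 ≤ ∑ i, ∑ j, (Real.exp (4 * k ^ 2 * sg z ((n + h i : ℤ) - (m + h j)).natAbs) - 1) :=
              sum_nonneg fun i _ => sum_nonneg fun j _ => hexp0 _
            positivity
          linarith
    _ = x * (x * (N * (3 * (P + 1) * η))) + N * (9 * P) * ∑ i, ∑ j, ∑ n ∈ Icc 1 x, ∑ m ∈ Icc 1 x,
          (Real.exp (4 * k ^ 2 * sg z ((n + h i : ℤ) - (m + h j)).natAbs) - 1) +
          ∑ n ∈ Icc 1 x, ∑ m ∈ Icc 1 x, (if ¬ Good h n m then N * (L ^ k * K) else 0) := by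
        simp only [sum_add_distrib, sum_const, Nat.card_Icc, Nat.add_sub_cancel, nsmul_eq_mul, ← mul_sum]
        congr 3
        have e5 : ∀ n ∈ Icc 1 x, ∑ m ∈ Icc 1 x, ∑ i, ∑ j, (Real.exp (4 * k ^ 2 * sg z ((n + h i : ℤ) - (m + h j)).natAbs) - 1) =
            ∑ i, ∑ j, ∑ m ∈ Icc 1 x, (Real.exp (4 * k ^ 2 * sg z ((n + h i : ℤ) - (m + h j)).natAbs) - 1) := by
          intro n _
          rw [sum_comm]
          apply sum_congr rfl
          intro i _
          rw [sum_comm]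
        rw [sum_congr rfl e5, sum_comm]
        apply sum_congr rfl
        intro i _
        rw [sum_comm]
    _ ≤ x * (x * (N * (3 * (P + 1) * η))) + N * (9 * P) * ∑ i : Fin k, ∑ j : Fin k, x * (2 * (2 * x * ζ)) +
          ∑ n ∈ Icc 1 x, (k ^ 2 : ℝ) * (N * (L ^ k * K)) := by
        gcongr with i _ j _ n hn
        · exact hdist i j
        · rw [← sum_filter, sum_const, nsmul_eq_mul]
          apply mul_le_mul_of_nonneg_right _ (by positivity)
          exact_mod_cast bad_card h x n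
    _ = x ^ 2 * N * (3 * (P + 1) * η) + x ^ 2 * N * (36 * k ^ 2 * (P * ζ)) + x * N * (k ^ 2 * K * L ^ k) := by
        simp only [sum_const, card_univ, Fintype.card_fin, Nat.card_Icc, Nat.add_sub_cancel, nsmul_eq_mul]
        ring
    _ ≤ x ^ 2 * N * (ε / 4) + x ^ 2 * N * (ε / 4) + x * N * (ε / 2 * x) := by
        have h4 : 36 * k ^ 2 * (P * ζ) ≤ ε / 4 := by
          rw [le_div_iff₀ (by positivity)] at hg
          nlinarith
        have h5 : k ^ 2 * K * L ^ k ≤ ε / 2 * x := by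
          have h6 : 2 * k ^ 2 * K / ε * L ^ k ≤ x := by
            have : (0 : ℝ) ≤ h0 := Nat.cast_nonneg _
            linarith
          have h7 : 2 * k ^ 2 * K / ε * L ^ k = (2 * k ^ 2 * K * L ^ k) / ε := by ring
          rw [h7, div_le_iff₀ hε] at h6
          linarith
        gcongr
    _ = _ := by ring

end Pool.Agent.Helper82K9.PR
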