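import Pool.Agent.Helper82K9.PR.PR8

set_option autoImplicit false

/-! The number of the tuples of primes for almost all polynomials of a box. -/

namespace Pool.Agent.Helper82K9.PR

open Finset Filter

/-- one point, from both sides -/
lemma single2 (k : ℕ) (h : Fin k → ℕ) (hh : Function.Injective h) (d : ℕ) (hd : k ≤ d + 1) (B0 : ℕ)
    (C η : ℝ) (hη : 0 < η) (z : ℕ) (hz : ∀ i, h i ≤ z) : ∃ H0 : ℕ, 3 ≤ H0 ∧ ∀ H : ℕ, H0 ≤ H → ∀ X : ℕ,
    1 ≤ X → (X : ℝ) ≤ Real.log H ^ B0 → ∀ G : ℕ → Fin k → ℤ, ∀ n : ℕ, 1 ≤ n → (∀ i, n + h i ≤ X) →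
    (∀ i, |(G n i : ℝ)| ≤ C * H * ((n + h i : ℕ) : ℝ) ^ d) →
    |∑ v ∈ Bx d H, FF (Real.log H) h G v n - ∑ v ∈ Bx d H, RR z h G v n| ≤
      (Bx d H).card * (Cz z ^ (d + 1) * η + η) := by
  obtain ⟨H0, hH0, hc⟩ := comb d B0 C η hη z
  refine ⟨H0, hH0, fun H hH X hX1 hXH G n hn hnX hG => ?_⟩
  have h1 := hc H hH (Fin k) (by rw [Fintype.card_fin]; exact hd) X hX1 hXH (fun i => n + h i)
    (fun a b hab => hh (by simpa using hab)) (fun i => ⟨by have := Nat.le_add_right n (h i); omega, hnX i⟩) (G n) hG univ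
  have hSg : Sg z (fun i : Fin k => n + h i) = 0 := by
    unfold Sg
    apply sum_eq_zero
    intro i _
    apply le_antisymm _ (sg_nonneg _ _)
    refine (wd_sg z _ (fun a b hab => hh (by simpa using hab)) _).trans (le_of_eq ?_)
    apply sum_eq_zero
    intro j _
    apply sg_small
    have h2 := hz i
    have h3 := hz j
    push_cast
    omega
  rw [hSg, mul_zero, Real.exp_zero, sub_self, mul_zero, add_zero] at h1
  have e1 : ∀ v : Fin (d + 1) → ℤ, PA (Real.log H) univ (fun _ => MM (primorial z)) (fun i => pv v (n + h i) + G n i) =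
      FF (Real.log H) h G v n := by
    intro v
    unfold PA FF
    simp
  simp only [e1] at h1
  exact h1

lemma meanRR (k : ℕ) (h : Fin k → ℕ) (hh : Function.Injective h) (d : ℕ) (hd : k ≤ d + 1) (B0 : ℕ) (C : ℝ) :
    ∃ K : ℝ, 1 ≤ K ∧ ∃ z0 : ℕ, ∀ z : ℕ, z0 ≤ z → ∃ H0 : ℕ, ∀ H : ℕ, H0 ≤ H → ∀ x : ℕ, 1 ≤ x →
    (x : ℝ) ≤ Real.log H ^ B0 → ∀ G : ℕ → Fin k → ℤ, (∀ n ∈ Icc 1 x, ∀ i, |(G n i : ℝ)| ≤ C * H * ((n + h i : ℕ) : ℝ) ^ d) →
    ∑ v ∈ Bx d H, ∑ n ∈ Icc 1 x, RR z h G v n ≤ K * x * (Bx d H).card := by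
  obtain ⟨z0, hz0⟩ : ∃ z0 : ℕ, ∀ i, h i ≤ z0 := ⟨univ.sup h, fun i => le_sup (mem_univ i)⟩
  have hCz0 := Cz_ge z0
  obtain ⟨H1, hH1, hs1⟩ := single2 k h hh d hd (B0 + 1) C (1 / (Cz z0 ^ (d + 1) + 1)) (by positivity) z0 hz0
  refine ⟨Cz z0 ^ k + 2, by have : 0 ≤ Cz z0 ^ k := by positivity
                            linarith, z0, fun z hz => ?_⟩
  have hCz := Cz_ge z
  obtain ⟨H2, hH2, hs2⟩ := single2 k h hh d hd (B0 + 1) C (1 / (Cz z ^ (d + 1) + 1)) (by positivity) z (fun i => (hz0 i).trans hz)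
  have hlog : Tendsto (fun n : ℕ => Real.log n) atTop atTop := Real.tendsto_log_atTop.comp tendsto_natCast_atTop_atTop
  obtain ⟨H3, h3⟩ := eventually_atTop.1 (hlog.eventually_ge_atTop ((z0 : ℝ) + 1))
  refine ⟨max (max H1 H2) H3, fun H hH x hx hxB G hG => ?_⟩
  have hLh := h3 H ((le_max_right _ _).trans hH)
  have hs1' := hs1 H (((le_max_left _ _).trans (le_max_left _ _)).trans hH)
  have hs2' := hs2 H (((le_max_right _ _).trans (le_max_left _ _)).trans hH)
  set L := Real.log H with hL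
  have hL1 : 1 ≤ L := by have : (0 : ℝ) ≤ z0 := Nat.cast_nonneg _
                         linarith
  have hXL : ((x + z0 : ℕ) : ℝ) ≤ L ^ (B0 + 1) := by
    have h5 : 1 ≤ L ^ B0 := one_le_pow₀ hL1
    rw [pow_succ]
    push_cast
    have h6 : (0 : ℝ) ≤ z0 := Nat.cast_nonneg _
    nlinarith
  rw [sum_comm]
  set N : ℝ := ((Bx d H).card : ℝ) with hN
  have hN0 : 0 ≤ N := Nat.cast_nonneg _
  calc ∑ n ∈ Icc 1 x, ∑ v ∈ Bx d H, RR z h G v n ≤ ∑ n ∈ Icc 1 x, N * (Cz z0 ^ k + 2) := by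
        apply sum_le_sum
        intro n hn
        have hn1 := mem_Icc.1 hn
        have a1 := hs1' (x + z0) (by omega) hXL G n hn1.1 (fun i => by have := hz0 i; omega) (hG n hn)
        have a2 := hs2' (x + z0) (by omega) hXL G n hn1.1 (fun i => by have := hz0 i; omega) (hG n hn)
        have e1 : Cz z0 ^ (d + 1) * (1 / (Cz z0 ^ (d + 1) + 1)) + 1 / (Cz z0 ^ (d + 1) + 1) = 1 := by
          have : Cz z0 ^ (d + 1) + 1 ≠ 0 := by positivity
          field_simp
        have e2 : Cz z ^ (d + 1) * (1 / (Cz z ^ (d + 1) + 1)) + 1 / (Cz z ^ (d + 1) + 1) = 1 := by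
          have : Cz z ^ (d + 1) + 1 ≠ 0 := by positivity
          field_simp
        rw [e1, mul_one] at a1
        rw [e2, mul_one] at a2
        have a3 : ∑ v ∈ Bx d H, RR z0 h G v n ≤ N * Cz z0 ^ k := by
          calc _ ≤ ∑ v ∈ Bx d H, Cz z0 ^ k := sum_le_sum fun v _ => RR_le z0 h G v n
            _ = _ := by rw [sum_const, nsmul_eq_mul]
        have a4 := (abs_le.1 a1).2
        have a5 := (abs_le.1 a2).1
        linarith
    _ = _ := by
        rw [sum_const, Nat.card_Icc, Nat.add_sub_cancel, nsmul_eq_mul]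
        ring

open Classical in
lemma cheb {V : Type} (S : Finset V) (T : V → ℝ) (hT : ∀ v, 0 ≤ T v) (a b : ℝ) (ha : 0 < a)
    (h : ∑ v ∈ S, T v ≤ a * b * S.card) : ((S.filter (fun v => a < T v)).card : ℝ) ≤ b * S.card := by
  have h1 : a * ((S.filter (fun v => a < T v)).card : ℝ) ≤ ∑ v ∈ S, T v := by
    calc a * ((S.filter (fun v => a < T v)).card : ℝ) = ∑ v ∈ S.filter (fun v => a < T v), a := by
          rw [sum_const, nsmul_eq_mul, mul_comm]
      _ ≤ ∑ v ∈ S.filter (fun v => a < T v), T v := sum_le_sum fun v hv => (mem_filter.1 hv).2.le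
      _ ≤ ∑ v ∈ S, T v := sum_le_sum_of_subset_of_nonneg (filter_subset _ _) fun v _ _ => hT v
  have h2 : a * ((S.filter (fun v => a < T v)).card : ℝ) ≤ a * (b * S.card) := by linarith
  exact le_of_mul_le_mul_left h2 ha

open Classical in
/-- weights and offsets -/
theorem almostW (k : ℕ) (hk : 1 ≤ k) (h : Fin k → ℕ) (hh : Function.Injective h) (d : ℕ) (hd : 2 * k ≤ d + 1) (B0 : ℕ)
    (C ε : ℝ) (hε : 0 < ε) : ∃ z0 : ℕ, 1 ≤ z0 ∧ ∀ z : ℕ, z0 ≤ z → ∃ A : ℕ, 3 ≤ A ∧ ∀ H : ℕ, A ≤ H → ∀ x : ℕ,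
    A * Real.log H ^ k ≤ x → (x : ℝ) ≤ Real.log H ^ B0 → ∀ G : ℕ → Fin k → ℤ,
    (∀ n ∈ Icc 1 x, ∀ i, |(G n i : ℝ)| ≤ C * H * ((n + h i : ℕ) : ℝ) ^ d) → ∀ w : ℕ → ℂ, (∀ n, ‖w n‖ ≤ 1) →
    (((Bx d H).filter (fun v => ε * x < ‖∑ n ∈ Icc 1 x, w n * ((FF (Real.log H) h G v n - RR z h G v n : ℝ) : ℂ)‖)).card : ℝ) ≤
      ε * (Bx d H).card := by
  obtain ⟨z0, hz0, hs⟩ := second k hk h hh d hd B0 C (ε ^ 3) (by positivity)
  refine ⟨z0, hz0, fun z hz => ?_⟩
  obtain ⟨A, hA3, hA⟩ := hs z hz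
  refine ⟨A, hA3, fun H hH x hAx hxB G hG w hw => ?_⟩
  have h1 := hA H hH x hAx hxB G hG w hw
  have hH3 : 3 ≤ H := hA3.trans hH
  have hL : 0 < Real.log H := Real.log_pos (by exact_mod_cast (by omega : 1 < H))
  have hA0 : (0 : ℝ) < A := by exact_mod_cast (by omega : 0 < A)
  have hx0 : (0 : ℝ) < x := lt_of_lt_of_le (by positivity) hAx
  have h2 := cheb (Bx d H) (fun v => ‖∑ n ∈ Icc 1 x, w n * ((FF (Real.log H) h G v n - RR z h G v n : ℝ) : ℂ)‖ ^ 2)
    (fun v => by positivity) ((ε * x) ^ 2) ε (by positivity) (h1.trans (le_of_eq (by ring)))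
  refine le_trans ?_ h2
  apply Nat.cast_le.2
  apply card_le_card
  intro v hv
  rw [mem_filter] at hv ⊢
  exact ⟨hv.1, pow_lt_pow_left₀ hv.2 (by positivity) (by norm_num)⟩

open Classical in
/-- the asymptotic formula at all places -/
theorem almostS (k : ℕ) (hk : 1 ≤ k) (h : Fin k → ℕ) (hh : Function.Injective h) (d : ℕ) (hd : 2 * k ≤ d + 1) (B0 : ℕ)
    (ε : ℝ) (hε : 0 < ε) : ∃ z0 : ℕ, 1 ≤ z0 ∧ ∀ z : ℕ, z0 ≤ z → ∃ A : ℕ, 3 ≤ A ∧ ∀ H : ℕ, A ≤ H → ∀ x : ℕ,
    A * Real.log H ^ k ≤ x → (x : ℝ) ≤ Real.log H ^ B0 →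
    (((Bx d H).filter (fun v => ∃ y ≤ x, ε * x < |∑ n ∈ Icc 1 y, FF (Real.log H) h (fun _ _ => 0) v n - SS z h v * y|)).card : ℝ) ≤
      ε * (Bx d H).card := by
  obtain ⟨K, hK1, z1, hmean⟩ := meanRR k h hh d (by omega) B0 0
  set S0 : ℝ := 2 * K / ε + 1 with hS0
  have hS00 : 0 < S0 := by positivity
  obtain ⟨J, hJ⟩ := exists_nat_ge (8 * S0 / ε + 1)
  have hJ1 : (1 : ℝ) ≤ J := by
    have : 0 ≤ 8 * S0 / ε := by positivity
    linarith
  have hJ0 : 0 < J := by exact_mod_cast lt_of_lt_of_le one_pos hJ1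
  obtain ⟨z2, hz2, hs⟩ := second k hk h hh d hd B0 0 ((ε / 4) ^ 2 * (ε / (2 * (J + 2)))) (by positivity)
  refine ⟨max z1 z2, hz2.trans (le_max_right _ _), fun z hz => ?_⟩
  obtain ⟨H0, hm⟩ := hmean z ((le_max_left _ _).trans hz)
  obtain ⟨A1, hA13, hA1⟩ := hs z ((le_max_right _ _).trans hz)
  have hCz := Cz_ge z
  obtain ⟨A2, hA2⟩ := exists_nat_ge (16 * (Cz z ^ k * primorial z) / ε + (Cz z ^ k * primorial z) + 16 * S0 / ε)
  refine ⟨max (max A1 A2) H0, (hA13.trans (le_max_left _ _)).trans (le_max_left _ _), fun H hH x hAx hxB => ?_⟩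
  have hHA1 : A1 ≤ H := ((le_max_left _ _).trans (le_max_left _ _)).trans hH
  have hH3 : 3 ≤ H := hA13.trans hHA1
  set L := Real.log H with hL
  have hL1 : 1 ≤ L := by
    rw [hL, Real.le_log_iff_exp_le (by exact_mod_cast (by omega : 0 < H))]
    have h3 : (3 : ℝ) ≤ H := by exact_mod_cast hH3
    have := Real.exp_one_lt_d9
    linarith
  have hLk : 1 ≤ L ^ k := one_le_pow₀ hL1
  have hxm : ((max (max A1 A2) H0 : ℕ) : ℝ) ≤ x := by
    refine le_trans ?_ hAx
    exact le_mul_of_one_le_right (Nat.cast_nonneg _) hLk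
  have hxA1 : A1 * L ^ k ≤ x := by
    refine le_trans ?_ hAx
    apply mul_le_mul_of_nonneg_right _ (by positivity)
    exact_mod_cast (le_max_left _ _).trans (le_max_left _ _)
  have hxA2 : 16 * (Cz z ^ k * primorial z) / ε + (Cz z ^ k * primorial z) + 16 * S0 / ε ≤ x := by
    refine hA2.trans (le_trans ?_ hxm)
    exact_mod_cast (le_max_right _ _).trans (le_max_left _ _)
  have hW : (0 : ℝ) < primorial z := by exact_mod_cast primorial_pos z
  set R := Cz z ^ k * (primorial z : ℝ) with hR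
  have hR0 : 0 < R := by positivity
  have hx1 : (1 : ℝ) ≤ x := by
    have : (3 : ℝ) ≤ ((max (max A1 A2) H0 : ℕ) : ℝ) := by exact_mod_cast (hA13.trans (le_max_left _ _)).trans (le_max_left _ _)
    linarith
  have hx0 : (0 : ℝ) < x := by linarith
  have hxn : 1 ≤ x := by exact_mod_cast hx1
  have hRx : R ≤ ε / 16 * x := by
    have h1 : 16 * R / ε ≤ x := by
      have : 0 ≤ 16 * S0 / ε := by positivity
      linarith
    rw [div_le_iff₀ hε] at h1
    linarith
  have hRx1 : R ≤ x := by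
    have h1 : 0 ≤ 16 * R / ε := by positivity
    have h2 : 0 ≤ 16 * S0 / ε := by positivity
    linarith
  have hSx : S0 ≤ ε / 16 * x := by
    have h1 : 16 * S0 / ε ≤ x := by
      have : 0 ≤ 16 * R / ε := by positivity
      linarith
    rw [div_le_iff₀ hε] at h1
    linarith
  set yy : ℕ → ℕ := fun j => min x (j * x / J) with hyy
  set N : ℝ := ((Bx d H).card : ℝ) with hN
  have hN0 : 0 ≤ N := Nat.cast_nonneg _
  -- the exceptional sets
  set E : ℕ → Finset (Fin (d + 1) → ℤ) := fun j => (Bx d H).filter (fun v => (ε / 4 * x) ^ 2 <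
    ‖∑ n ∈ Icc 1 x, (if n ≤ yy j then (1 : ℂ) else 0) * ((FF L h (fun _ _ => 0) v n - RR z h (fun _ _ => 0) v n : ℝ) : ℂ)‖ ^ 2)
    with hE
  set E' : Finset (Fin (d + 1) → ℤ) := (Bx d H).filter (fun v => 2 * K / ε * x < ∑ n ∈ Icc 1 x, RR z h (fun _ _ => 0) v n)
    with hE'
  have hEc : ∀ j, ((E j).card : ℝ) ≤ ε / (2 * (J + 2)) * N := by
    intro j
    have h1 := hA1 H hHA1 x hxA1 hxB (fun _ _ => 0) (fun n _ i => by simp) (fun n => if n ≤ yy j then (1 : ℂ) else 0)
      (fun n => by split_ifs <;> simp)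
    exact cheb (Bx d H) (fun v => ‖∑ n ∈ Icc 1 x, (if n ≤ yy j then (1 : ℂ) else 0) *
      ((FF L h (fun _ _ => 0) v n - RR z h (fun _ _ => 0) v n : ℝ) : ℂ)‖ ^ 2) (fun v => by positivity)
      ((ε / 4 * x) ^ 2) (ε / (2 * (J + 2))) (by positivity) (h1.trans (le_of_eq (by ring)))
  have hE'c : (E'.card : ℝ) ≤ ε / 2 * N := by
    have h1 := hm H ((le_max_right _ _).trans hH) x hxn hxB (fun _ _ => 0) (fun n _ i => by simp)
    refine cheb (Bx d H) (fun v => ∑ n ∈ Icc 1 x, RR z h (fun _ _ => 0) v n)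
      (fun v => sum_nonneg fun n _ => RR_nonneg z h _ v n) (2 * K / ε * x) (ε / 2) (by positivity) (h1.trans (le_of_eq ?_))
    field_simp
  have hsub : (Bx d H).filter (fun v => ∃ y ≤ x, ε * x < |∑ n ∈ Icc 1 y, FF L h (fun _ _ => 0) v n - SS z h v * y|) ⊆
      (range (J + 2)).biUnion E ∪ E' := by
    intro v hv
    rw [mem_filter] at hv
    obtain ⟨hvB, y, hyx, hy⟩ := hv
    by_contra hcon
    rw [mem_union, mem_biUnion] at hcon
    push Not at hcon
    obtain ⟨hc1, hc2⟩ := hcon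
    have hRRx : ∑ n ∈ Icc 1 x, RR z h (fun _ _ => 0) v n ≤ 2 * K / ε * x := by
      by_contra hlt
      push Not at hlt
      exact hc2 (mem_filter.2 ⟨hvB, hlt⟩)
    have hRRy := RR_sum z h v
    have hSS0 : 0 ≤ SS z h v := by
      unfold SS
      apply prod_nonneg
      intro p hp
      have hpp := (mem_filter.1 hp).2
      have hp0 : (0 : ℝ) < p := by exact_mod_cast hpp.pos
      have h1 : (2 : ℝ) ≤ p := by exact_mod_cast hpp.two_le
      have h2 : 1 / (p : ℝ) ≤ 1 / 2 := by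
        apply one_div_le_one_div_of_le (by norm_num) h1
      have h3 : (nu h v p : ℝ) / p ≤ 1 := by
        rw [div_le_one hp0]
        unfold nu
        exact_mod_cast (card_filter_le _ _).trans (le_of_eq (card_range p))
      apply div_nonneg
      · linarith
      · apply pow_nonneg; linarith
    have hSSS0 : SS z h v ≤ S0 := by
      have h1 := (abs_le.1 (hRRy x)).1
      have h2 : SS z h v * x ≤ S0 * x := by
        rw [hS0]
        nlinarith
      exact le_of_mul_le_mul_right h2 hx0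
    have hpt : ∀ j ∈ range (J + 2), |∑ n ∈ Icc 1 (yy j), FF L h (fun _ _ => 0) v n -
        ∑ n ∈ Icc 1 (yy j), RR z h (fun _ _ => 0) v n| ≤ ε / 4 * x := by
      intro j hj
      have h1 := hc1 j hj
      have h2 : ‖∑ n ∈ Icc 1 x, (if n ≤ yy j then (1 : ℂ) else 0) *
          ((FF L h (fun _ _ => 0) v n - RR z h (fun _ _ => 0) v n : ℝ) : ℂ)‖ ^ 2 ≤ (ε / 4 * x) ^ 2 := by
        by_contra hlt
        push Not at hlt
        exact h1 (mem_filter.2 ⟨hvB, hlt⟩)
      have h3 := abs_le_of_sq_le_sq h2 (by positivity)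
      rw [abs_norm] at h3
      have e1 : ∑ n ∈ Icc 1 x, (if n ≤ yy j then (1 : ℂ) else 0) *
          ((FF L h (fun _ _ => 0) v n - RR z h (fun _ _ => 0) v n : ℝ) : ℂ) =
          ((∑ n ∈ Icc 1 (yy j), FF L h (fun _ _ => 0) v n - ∑ n ∈ Icc 1 (yy j), RR z h (fun _ _ => 0) v n : ℝ) : ℂ) := by
        rw [← sum_sub_distrib]
        push_cast
        have e2 : Icc 1 (yy j) = (Icc 1 x).filter (fun n => n ≤ yy j) := by
          ext n
          rw [mem_filter, mem_Icc, mem_Icc]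
          have : yy j ≤ x := min_le_left _ _
          omega
        rw [e2, sum_filter]
        apply sum_congr rfl
        intro n _
        split_ifs <;> simp
      rw [e1, Complex.norm_real, Real.norm_eq_abs] at h3
      exact h3
    -- the two places
    set j := y * J / x with hj
    have hjJ : j ≤ J := by
      rw [hj]
      calc y * J / x ≤ x * J / x := Nat.div_le_div_right (Nat.mul_le_mul_right _ hyx)
        _ = J := Nat.mul_div_cancel_left _ (by omega)
    have hj1 : yy j ≤ y := by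
      have h1 : j * x ≤ y * J := Nat.div_mul_le_self _ _
      have h2 : j * x / J ≤ y := by
        calc j * x / J ≤ y * J / J := Nat.div_le_div_right h1
          _ = y := Nat.mul_div_cancel _ hJ0
      exact (min_le_right _ _).trans h2
    have hj2 : y ≤ yy (j + 1) := by
      apply le_min hyx
      rw [Nat.le_div_iff_mul_le hJ0]
      have := Nat.lt_mul_div_succ (y * J) (by omega : 0 < x)
      rw [← hj] at this
      calc y * J ≤ x * (j + 1) := this.le
        _ = (j + 1) * x := by ring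
    have hj3 : (yy (j + 1) : ℝ) - yy j ≤ x / J + 1 := by
      have h1 : (j + 1) * x / J ≤ j * x / J + (x / J + 1) := by
        rw [add_mul, one_mul]
        have h4 := Nat.add_div hJ0 (a := j * x) (b := x)
        rw [h4]
        split_ifs <;> omega
      have h2 : yy (j + 1) ≤ yy j + (x / J + 1) := by
        show min x ((j + 1) * x / J) ≤ min x (j * x / J) + (x / J + 1)
        rcases le_total x (j * x / J) with h | h
        · rw [min_eq_left h]; exact (min_le_left _ _).trans (Nat.le_add_right _ _)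
        · rw [min_eq_right h]; exact (min_le_right _ _).trans h1
      have h3 : ((yy (j + 1) : ℕ) : ℝ) ≤ yy j + ((x / J : ℕ) + 1) := by exact_mod_cast h2
      have h4 : ((x / J : ℕ) : ℝ) ≤ x / J := Nat.cast_div_le
      linarith
    have hJx : S0 * (x / J + 1) ≤ 3 * ε / 16 * x := by
      have h1 : 8 * S0 / ε ≤ J := by linarith
      rw [div_le_iff₀ hε] at h1
      have h2 : S0 * (x / J) ≤ ε / 8 * x := by
        rw [← mul_div_assoc, div_le_iff₀ (by linarith)]
        nlinarith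
      linarith
    have p1 := hpt j (mem_range.2 (by omega))
    have p2 := hpt (j + 1) (mem_range.2 (by omega))
    have q1 := hRRy (yy j)
    have q2 := hRRy (yy (j + 1))
    have hFFm : ∀ a b : ℕ, a ≤ b → ∑ n ∈ Icc 1 a, FF L h (fun _ _ => 0) v n ≤ ∑ n ∈ Icc 1 b, FF L h (fun _ _ => 0) v n := by
      intro a b hab
      apply sum_le_sum_of_subset_of_nonneg
      · exact Icc_subset_Icc_right hab
      · intro n _ _
        exact FF_nonneg (by linarith) h _ v n
    have m1 := hFFm _ _ hj1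
    have m2 := hFFm _ _ hj2
    have hy1 : (yy j : ℝ) ≤ y := by exact_mod_cast hj1
    have hy2 : (y : ℝ) ≤ yy (j + 1) := by exact_mod_cast hj2
    have r1 : SS z h v * (yy (j + 1) - y) ≤ S0 * (x / J + 1) := by
      apply mul_le_mul hSSS0 (by linarith) (by linarith) hS00.le
    have r2 : SS z h v * (y - yy j) ≤ S0 * (x / J + 1) := by
      apply mul_le_mul hSSS0 (by linarith) (by linarith) hS00.le
    obtain ⟨p11, p12⟩ := abs_le.1 p1
    obtain ⟨p21, p22⟩ := abs_le.1 p2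
    obtain ⟨q11, q12⟩ := abs_le.1 q1
    obtain ⟨q21, q22⟩ := abs_le.1 q2
    have hεx : 0 < ε * x := by positivity
    have : |∑ n ∈ Icc 1 y, FF L h (fun _ _ => 0) v n - SS z h v * y| ≤ ε * x := by
      rw [abs_le]
      constructor
      · nlinarith
      · nlinarith
    linarith
  calc (((Bx d H).filter (fun v => ∃ y ≤ x, ε * x < |∑ n ∈ Icc 1 y, FF L h (fun _ _ => 0) v n - SS z h v * y|)).card : ℝ)
      ≤ (((range (J + 2)).biUnion E ∪ E').card : ℝ) := by exact_mod_cast card_le_card hsub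
    _ ≤ (((range (J + 2)).biUnion E).card : ℝ) + (E'.card : ℝ) := by exact_mod_cast card_union_le _ _
    _ ≤ ∑ j ∈ range (J + 2), ((E j).card : ℝ) + (E'.card : ℝ) := by
        have := card_biUnion_le (s := range (J + 2)) (t := E)
        have h2 : (((range (J + 2)).biUnion E).card : ℝ) ≤ ∑ j ∈ range (J + 2), ((E j).card : ℝ) := by exact_mod_cast this
        linarith
    _ ≤ ∑ j ∈ range (J + 2), ε / (2 * (J + 2)) * N + ε / 2 * N := add_le_add (sum_le_sum fun j _ => hEc j) hE'c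
    _ = ε * N := by
        rw [sum_const, card_range, nsmul_eq_mul]
        push_cast
        have : (J : ℝ) + 2 ≠ 0 := by positivity
        field_simp
        ring

end Pool.Agent.Helper82K9.PR
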