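import Pool.Agent.Helper82K9.PR.PR9

set_option autoImplicit false

/-! The expected values in classes against those modulo the product of the small primes, with relative errors. -/

namespace Pool.Agent.Helper82K9.PR

open Finset Filter

lemma prod_model' {ι : Type} [Fintype ι] [DecidableEq ι] (z : ℕ) (t : ι → ℕ) (ht : Function.Injective t) (s : Finset ι)
    (u : ι → ℤ) :
    |PB (primorial z) t s (fun _ => MM (primorial z)) u - ∏ a, MM (primorial z) (u a)| ≤
      (∏ a, MM (primorial z) (u a)) * ((∏ a, GG z (wd t a) - 1) + ∑ a, ∑ p ∈ LP z (wd t a), dv p (u a)) := by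
  classical
  set x : ℝ := ∏ a, (if a ∈ s then GG z (wd t a) * JJ z (wd t a) (u a) else 1) with hx
  have e1 : PB (primorial z) t s (fun _ => MM (primorial z)) u = (∏ a, MM (primorial z) (u a)) * x := by
    unfold PB
    rw [hx, ← prod_mul_distrib]
    apply prod_congr rfl
    intro a _
    by_cases ha : a ∈ s
    · rw [if_pos ha, if_pos ha]
      exact mm_eq z (wd t a) (wd_ne t ht a) (u a)
    · rw [if_neg ha, if_neg ha, mul_one]
  have hP0 : 0 ≤ ∏ a, MM (primorial z) (u a) := prod_nonneg fun a _ => MM_nonneg _ _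
  have hG1 : 1 ≤ ∏ a, GG z (wd t a) := by
    calc (1 : ℝ) = ∏ a : ι, 1 := by rw [prod_const_one]
      _ ≤ _ := Finset.prod_le_prod (fun _ _ => by norm_num) (fun a _ => one_le_GG z _)
  have hS0 : ∀ a : ι, 0 ≤ ∑ p ∈ LP z (wd t a), dv p (u a) := fun a => sum_nonneg fun p _ => dv_nonneg p _
  have hS1 : 0 ≤ ∑ a, ∑ p ∈ LP z (wd t a), dv p (u a) := sum_nonneg fun a _ => hS0 a
  have key : |x - 1| ≤ (∏ a, GG z (wd t a) - 1) + ∑ a, ∑ p ∈ LP z (wd t a), dv p (u a) := by
    by_cases h : ∀ a ∈ s, ∀ p ∈ LP z (wd t a), ¬ (p : ℤ) ∣ u a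
    · have h1 : 1 ≤ x := by
        rw [hx]
        calc (1 : ℝ) = ∏ a : ι, 1 := by rw [prod_const_one]
          _ ≤ _ := by
            apply Finset.prod_le_prod (fun _ _ => by norm_num)
            intro a _
            split_ifs with ha
            · unfold JJ
              rw [if_pos (h a ha), mul_one]
              exact one_le_GG z _
            · exact le_rfl
      have h2 : x ≤ ∏ a, GG z (wd t a) := by
        rw [hx]
        apply Finset.prod_le_prod
        · intro a _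
          split_ifs with ha
          · unfold JJ
            rw [if_pos (h a ha), mul_one]
            exact zero_le_one.trans (one_le_GG z _)
          · norm_num
        · intro a _
          split_ifs with ha
          · unfold JJ
            rw [if_pos (h a ha), mul_one]
          · exact one_le_GG z _
      rw [abs_of_nonneg (by linarith)]
      linarith
    · push Not at h
      obtain ⟨a, ha, p, hp, hpu⟩ := h
      have h1 : x = 0 := by
        rw [hx]
        apply prod_eq_zero (mem_univ a)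
        rw [if_pos ha]
        unfold JJ
        rw [if_neg (fun h => h p hp hpu), mul_zero]
      have h2 : 1 ≤ ∑ a, ∑ p ∈ LP z (wd t a), dv p (u a) := by
        calc (1 : ℝ) = dv p (u a) := by unfold dv; rw [if_pos hpu]
          _ ≤ ∑ p ∈ LP z (wd t a), dv p (u a) := single_le_sum (f := fun p => dv p (u a)) (fun p _ => dv_nonneg p _) hp
          _ ≤ _ := single_le_sum (f := fun a => ∑ p ∈ LP z (wd t a), dv p (u a)) (fun a _ => hS0 a) (mem_univ a)
      rw [h1, zero_sub, abs_neg, abs_one]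
      linarith
  have e2 : PB (primorial z) t s (fun _ => MM (primorial z)) u - ∏ a, MM (primorial z) (u a) =
      (∏ a, MM (primorial z) (u a)) * (x - 1) := by rw [e1]; ring
  rw [e2, abs_mul, abs_of_nonneg hP0]
  exact mul_le_mul_of_nonneg_left key hP0

/-- shifting a nonnegative function -/
lemma shift_real (d H : ℕ) (F : (Fin (d + 1) → ℤ) → ℝ) (K : ℝ) (hK : 0 < K) (hF0 : ∀ v, 0 ≤ F v) (hF : ∀ v, F v ≤ K)
    (σ : Fin (d + 1) → ℤ) (B : ℝ) (hσ : ∀ i, |(σ i : ℝ)| ≤ B) :
    |∑ v ∈ Bx d H, F v - ∑ v ∈ Bx d H, F (v + σ)| ≤ K * (2 * ((d + 1) * B * (2 * H + 1) ^ d)) := by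
  have h1 := box_shift d H (fun v => ((F v / K : ℝ) : ℂ)) (by
    intro v
    rw [Complex.norm_real, Real.norm_of_nonneg (div_nonneg (hF0 v) hK.le), div_le_one hK]
    exact hF v) σ B hσ
  rw [← Complex.ofReal_sum, ← Complex.ofReal_sum, ← Complex.ofReal_sub, ← sum_div, ← sum_div, ← sub_div,
    Complex.norm_real, Real.norm_eq_abs, abs_div, abs_of_pos hK, div_le_iff₀ hK] at h1
  linarith

/-- an average over shifts by multiples of a fixed polynomial -/
lemma shift_avg (d H q : ℕ) (hq : 1 ≤ q) (F : (Fin (d + 1) → ℤ) → ℝ) (K : ℝ) (hK : 0 < K) (hF0 : ∀ v, 0 ≤ F v)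
    (hF : ∀ v, F v ≤ K) (r : Fin (d + 1) → ℤ) (B : ℝ) (hB : 0 ≤ B) (hr : ∀ i, |(r i : ℝ)| ≤ B) :
    |q * ∑ v ∈ Bx d H, F v - ∑ v ∈ Bx d H, ∑ c ∈ Icc 1 q, F (v + (c : ℤ) • r)| ≤
      q * (K * (2 * ((d + 1) * (q * B) * (2 * H + 1) ^ d))) := by
  have h1 : ∀ c ∈ Icc 1 q, |∑ v ∈ Bx d H, F v - ∑ v ∈ Bx d H, F (v + (c : ℤ) • r)| ≤
      K * (2 * ((d + 1) * (q * B) * (2 * H + 1) ^ d)) := by
    intro c hc
    rw [mem_Icc] at hc
    apply shift_real d H F K hK hF0 hF
    intro i
    rw [Pi.smul_apply, smul_eq_mul]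
    push_cast
    rw [abs_mul, abs_of_nonneg (by positivity : (0:ℝ) ≤ c)]
    have h2 : (c : ℝ) ≤ q := by exact_mod_cast hc.2
    exact mul_le_mul h2 (hr i) (abs_nonneg _) (by positivity)
  have e1 : q * ∑ v ∈ Bx d H, F v - ∑ v ∈ Bx d H, ∑ c ∈ Icc 1 q, F (v + (c : ℤ) • r) =
      ∑ c ∈ Icc 1 q, (∑ v ∈ Bx d H, F v - ∑ v ∈ Bx d H, F (v + (c : ℤ) • r)) := by
    rw [sum_sub_distrib, sum_const, Nat.card_Icc, Nat.add_sub_cancel, nsmul_eq_mul, sum_comm]
  rw [e1]
  refine (abs_sum_le_sum_abs _ _).trans ((sum_le_sum h1).trans (le_of_eq ?_))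
  rw [sum_const, Nat.card_Icc, Nat.add_sub_cancel, nsmul_eq_mul]

/-- the divisibility of an arithmetic progression with difference prime to `p` -/
lemma dv_prog (p : ℕ) (hp : 1 ≤ p) (m : ℤ) (hm : IsCoprime m (p : ℤ)) (u : ℤ) :
    ∑ c ∈ Icc 1 p, dv p (u + c * m) = 1 := by
  classical
  unfold dv
  rw [← sum_filter, sum_const, nsmul_eq_mul, mul_one]
  have hp0 : (0 : ℤ) < p := by exact_mod_cast hp
  have hex : ∃ c ∈ Icc 1 p, (p : ℤ) ∣ u + c * m := by
    obtain ⟨a, b, hab⟩ := hm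
    set c0 : ℤ := (-u * a) % p with hc0
    have h1 := Int.emod_nonneg (-u * a) hp0.ne'
    have h2 := Int.emod_lt_of_pos (-u * a) hp0
    have h3 : (p : ℤ) ∣ u + c0 * m := by
      have h4 : (p : ℤ) ∣ (-u * a) - c0 := Int.dvd_self_sub_emod
      obtain ⟨e, he⟩ := h4
      refine ⟨u * b - e * m, ?_⟩
      have h5 : c0 = -u * a - p * e := by linarith
      rw [h5]
      linear_combination u * hab.symm
    by_cases h0 : c0 = 0
    · refine ⟨p, mem_Icc.2 ⟨hp, le_rfl⟩, ?_⟩
      rw [h0, zero_mul, add_zero] at h3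
      exact dvd_add h3 (dvd_mul_right _ _)
    · refine ⟨c0.toNat, mem_Icc.2 ⟨by omega, by omega⟩, ?_⟩
      have h6 : ((c0.toNat : ℕ) : ℤ) = c0 := Int.toNat_of_nonneg h1
      rw [h6]; exact h3
  have hle : ((Icc 1 p).filter (fun c : ℕ => (p : ℤ) ∣ u + c * m)).card ≤ 1 := by
    apply card_le_one.2
    intro a ha b hb
    rw [mem_filter, mem_Icc] at ha hb
    have h4 := dvd_sub ha.2 hb.2
    have h5 : (u + (a : ℤ) * m) - (u + b * m) = ((a : ℤ) - b) * m := by ring
    rw [h5] at h4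
    have h6 := hm.symm.dvd_of_dvd_mul_right h4
    by_contra hab
    have h7 := Int.le_of_dvd (a := (p : ℤ)) (b := |(a : ℤ) - b|) (abs_pos.2 (by omega)) ((dvd_abs _ _).2 h6)
    have h8 : |(a : ℤ) - b| < p := by
      rw [abs_lt]; omega
    omega
  have hge : 1 ≤ ((Icc 1 p).filter (fun c : ℕ => (p : ℤ) ∣ u + c * m)).card := by
    apply card_pos.2
    obtain ⟨c, hc, h⟩ := hex
    exact ⟨c, mem_filter.2 ⟨hc, h⟩⟩
  have : ((Icc 1 p).filter (fun c : ℕ => (p : ℤ) ∣ u + c * m)).card = 1 := le_antisymm hle hge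
  exact_mod_cast this

/-- the model is periodic -/
lemma MM_add (W : ℕ) (u c : ℤ) : MM W (u + c * W) = MM W u := by
  unfold MM
  have : Int.gcd (u + c * W) W = Int.gcd u W := by
    rw [Int.gcd_comm, mul_comm c, Int.gcd_add_mul_left_right, Int.gcd_comm]
  rw [this]

/-- divisibility by a large prime is nearly independent of the model -/
lemma cnt2 {ι : Type} [Fintype ι] [DecidableEq ι] (d H z p : ℕ) (hp : p.Prime) (hpz : z < p) (t : ι → ℕ) (g : ι → ℤ) (b : ι) :
    ∑ v ∈ Bx d H, (∏ a, MM (primorial z) (pv v (t a) + g a)) * dv p (pv v (t b) + g b) ≤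
      1 / p * ∑ v ∈ Bx d H, ∏ a, MM (primorial z) (pv v (t a) + g a) +
      Cz z ^ Fintype.card ι * (2 * ((d + 1) * (p * primorial z) * (2 * H + 1) ^ d)) := by
  have hCz := Cz_ge z
  have hpr : (0 : ℝ) < p := by exact_mod_cast hp.pos
  have hPle : ∀ v : Fin (d + 1) → ℤ, ∏ a, MM (primorial z) (pv v (t a) + g a) ≤ Cz z ^ Fintype.card ι := by
    intro v
    calc _ ≤ ∏ a : ι, Cz z := Finset.prod_le_prod (fun a _ => MM_nonneg _ _) (fun a _ => MM_le_Cz z _)
      _ = _ := by rw [prod_const, card_univ]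
  have hP0 : ∀ v : Fin (d + 1) → ℤ, 0 ≤ ∏ a, MM (primorial z) (pv v (t a) + g a) :=
    fun v => prod_nonneg fun a _ => MM_nonneg _ _
  have hdv1 : ∀ u : ℤ, dv p u ≤ 1 := by intro u; unfold dv; split_ifs <;> norm_num
  have h1 := shift_avg d H p hp.one_le
    (fun v => (∏ a, MM (primorial z) (pv v (t a) + g a)) * dv p (pv v (t b) + g b)) (Cz z ^ Fintype.card ι) (by positivity)
    (fun v => mul_nonneg (hP0 v) (dv_nonneg _ _))
    (fun v => by
      calc _ ≤ Cz z ^ Fintype.card ι * 1 := mul_le_mul (hPle v) (hdv1 _) (dv_nonneg _ _) (by positivity)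
        _ = _ := mul_one _)
    (Pi.single 0 (primorial z : ℤ)) (primorial z) (Nat.cast_nonneg _) (by
      intro i
      by_cases hi : i = 0
      · subst hi
        rw [Pi.single_eq_same, Int.cast_natCast, abs_of_nonneg (by positivity)]
      · rw [Pi.single_eq_of_ne hi, Int.cast_zero, abs_zero]
        positivity)
  have e0 : ∀ t0 : ℕ, pv (Pi.single (0 : Fin (d + 1)) (primorial z : ℤ)) t0 = primorial z := by
    intro t0
    unfold pv
    rw [sum_eq_single 0]
    · rw [Pi.single_eq_same]; simp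
    · intro i _ hi
      rw [Pi.single_eq_of_ne hi, zero_mul]
    · intro h; exact absurd (mem_univ _) h
  have e1 : ∀ v : Fin (d + 1) → ℤ, ∑ c ∈ Icc 1 p,
      (∏ a, MM (primorial z) (pv (v + (c : ℤ) • Pi.single 0 (primorial z : ℤ)) (t a) + g a)) *
        dv p (pv (v + (c : ℤ) • Pi.single 0 (primorial z : ℤ)) (t b) + g b) =
      ∏ a, MM (primorial z) (pv v (t a) + g a) := by
    intro v
    have e2 : ∀ c : ℕ, (∏ a, MM (primorial z) (pv (v + (c : ℤ) • Pi.single 0 (primorial z : ℤ)) (t a) + g a)) *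
        dv p (pv (v + (c : ℤ) • Pi.single 0 (primorial z : ℤ)) (t b) + g b) =
        (∏ a, MM (primorial z) (pv v (t a) + g a)) * dv p ((pv v (t b) + g b) + c * primorial z) := by
      intro c
      congr 1
      · apply prod_congr rfl
        intro a _
        rw [pv_smul, e0]
        have : pv v (t a) + (c : ℤ) * (primorial z : ℤ) + g a = (pv v (t a) + g a) + (c : ℤ) * (primorial z : ℤ) := by ring
        rw [this, MM_add]
      · rw [pv_smul, e0]
        congr 1
        ring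
    rw [sum_congr rfl (fun c _ => e2 c), ← mul_sum, dv_prog p hp.one_le, mul_one]
    rw [Int.isCoprime_iff_gcd_eq_one, Int.gcd_natCast_natCast]
    apply Nat.Coprime.symm
    rw [hp.coprime_iff_not_dvd, hp.dvd_primorial_iff]
    omega
  simp only [e1] at h1
  have h2 := (abs_le.1 h1).2
  have h3 : p * ∑ v ∈ Bx d H, (∏ a, MM (primorial z) (pv v (t a) + g a)) * dv p (pv v (t b) + g b) ≤
      p * (1 / p * ∑ v ∈ Bx d H, ∏ a, MM (primorial z) (pv v (t a) + g a) +
      Cz z ^ Fintype.card ι * (2 * ((d + 1) * (p * primorial z) * (2 * H + 1) ^ d))) := by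
    have e3 : (p : ℝ) * (1 / p * ∑ v ∈ Bx d H, ∏ a, MM (primorial z) (pv v (t a) + g a) +
      Cz z ^ Fintype.card ι * (2 * ((d + 1) * (p * primorial z) * (2 * H + 1) ^ d))) =
      ∑ v ∈ Bx d H, ∏ a, MM (primorial z) (pv v (t a) + g a) +
      p * (Cz z ^ Fintype.card ι * (2 * ((d + 1) * (p * primorial z) * (2 * H + 1) ^ d))) := by
      field_simp
    rw [e3]
    linarith
  exact le_of_mul_le_mul_left h3 hpr

/-- the comparison with relative errors, uniformly in `z` -/
theorem combU (d B0 : ℕ) (C η : ℝ) (hη : 0 < η) : ∃ H0 : ℕ, 3 ≤ H0 ∧ ∀ H : ℕ, H0 ≤ H → ∀ z : ℕ,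
    (primorial z : ℝ) ≤ Real.log H →
    ∀ (ι : Type) [Fintype ι] [DecidableEq ι], Fintype.card ι ≤ d + 1 → ∀ X : ℕ,
    1 ≤ X → (X : ℝ) ≤ Real.log H ^ B0 → ∀ t : ι → ℕ, Function.Injective t → (∀ a, 1 ≤ t a ∧ t a ≤ X) →
    ∀ g : ι → ℤ, (∀ a, |(g a : ℝ)| ≤ C * H * (t a : ℝ) ^ d) → Real.exp (2 * Sg z t) - 1 ≤ 1 → ∀ s : Finset ι,
    |∑ v ∈ Bx d H, PA (Real.log H) s (fun _ => MM (primorial z)) (fun a => pv v (t a) + g a) -
      ∑ v ∈ Bx d H, ∏ a, MM (primorial z) (pv v (t a) + g a)| ≤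
      (3 * η + 2 * (Real.exp (2 * Sg z t) - 1)) * ∑ v ∈ Bx d H, ∏ a, MM (primorial z) (pv v (t a) + g a) +
      η * (Bx d H).card := by
  obtain ⟨δ, hδ0, hδ1, hδη⟩ : ∃ δ : ℝ, 0 < δ ∧ δ ≤ 1 ∧ (1 + δ) ^ (d + 1) - 1 ≤ min η 1 := by
    have h1 : Tendsto (fun δ : ℝ => (1 + δ) ^ (d + 1) - 1) (nhds 0) (nhds 0) := by
      have : ContinuousAt (fun δ : ℝ => (1 + δ) ^ (d + 1) - 1) 0 := by fun_prop
      have h2 := this.tendsto
      simp only [add_zero, one_pow, sub_self] at h2
      exact h2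
    have h2 := (h1.eventually (gt_mem_nhds (lt_min hη one_pos)))
    have h3 := h2.filter_mono (nhdsWithin_le_nhds (s := Set.Ioi 0))
    have h4 : ∀ᶠ δ : ℝ in nhdsWithin 0 (Set.Ioi 0), δ ∈ Set.Ioo (0:ℝ) 1 := Ioo_mem_nhdsGT one_pos
    obtain ⟨δ, h5, h6⟩ := (h3.and h4).exists
    exact ⟨δ, h6.1, h6.2.le, h5.le⟩
  obtain ⟨H1, hH1, hmul⟩ := multi d B0 1 C δ hδ0 hδ1
  have hlog : Tendsto (fun n : ℕ => Real.log n) atTop atTop := Real.tendsto_log_atTop.comp tendsto_natCast_atTop_atTop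
  have e5 := hlog.eventually_ge_atTop (max 1 (2 ^ (d + 1) / (η / 2)))
  have e6 := (tendsto_natCast_atTop_atTop (R := ℝ)).eventually
    ((Real.isLittleO_pow_log_id_atTop (n := (d + 1) + 2 * (B0 * d) + 1)).def (show (0 : ℝ) < η / (8 * (d + 1) ^ 2) by positivity))
  obtain ⟨H2, h0⟩ := (e5.and e6).exists_forall_of_atTop
  refine ⟨max H1 H2, hH1.trans (le_max_left _ _), fun H hH z hLW ι _ _ hcard X hX1 hXH t hinj ht g hg hSg s => ?_⟩
  obtain ⟨h1, h2⟩ := h0 H ((le_max_right _ _).trans hH)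
  have hW := primorial_pos z
  have hm := hmul H ((le_max_left _ _).trans hH) ι hcard (primorial z) X hW hLW hX1 hXH t hinj ht
    g hg s (fun _ => MM (primorial z)) (fun _ u => MM_nonneg _ _) (by
      intro _ u
      have h4 : (1 : ℝ) ≤ Real.log H := le_trans (by exact_mod_cast hW) hLW
      exact (MM_le _ _).trans (hLW.trans (le_self_pow₀ h4 (by omega))))
  have hH3 : 3 ≤ H := hH1.trans ((le_max_left _ _).trans hH)
  set L := Real.log H with hL
  have hL1 : 1 ≤ L := (le_max_left _ _).trans h1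
  have hL0 : 0 < L := by linarith
  have hLη : 2 ^ (d + 1) / (η / 2) ≤ L := (le_max_right _ _).trans h1
  have hHr : (0 : ℝ) < H := by exact_mod_cast (by omega : 0 < H)
  have hLH : L ^ ((d + 1) + 2 * (B0 * d) + 1) ≤ η / (8 * (d + 1) ^ 2) * H := by
    simp only [id, Real.norm_eq_abs] at h2
    rw [abs_of_nonneg (by positivity), abs_of_nonneg hHr.le] at h2
    exact h2
  set N : ℝ := ((Bx d H).card : ℝ) with hN
  have hN0 : 0 ≤ N := Nat.cast_nonneg _
  have hCz := Cz_ge z
  have hCzL : Cz z ≤ L := by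
    unfold Cz
    refine le_trans (div_le_self (by positivity) ?_) hLW
    exact_mod_cast Nat.totient_pos.2 hW
  set S := Sg z t with hS
  have hS0 : 0 ≤ S := sum_nonneg fun a _ => sg_nonneg z _
  set T0 := ∑ v ∈ Bx d H, ∏ a, MM (primorial z) (pv v (t a) + g a) with hT0
  have hT00 : 0 ≤ T0 := sum_nonneg fun v _ => prod_nonneg fun a _ => MM_nonneg _ _
  set T1 := ∑ v ∈ Bx d H, PB (primorial z) t s (fun _ => MM (primorial z)) (fun a => pv v (t a) + g a) with hT1
  have hPB0 : 0 ≤ T1 := by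
    apply sum_nonneg
    intro v _
    unfold PB
    apply prod_nonneg
    intro a _
    split_ifs <;> exact MM_nonneg _ _
  set E := Real.exp (2 * S) - 1 with hE
  have hE0 : 0 ≤ E := by
    have := Real.add_one_le_exp (2 * S)
    linarith
  -- the errors
  set Q : ℝ := L ^ (d + 1) * (2 * ((d + 1) * (L ^ (B0 * d) * L) * (2 * H + 1) ^ d)) with hQ
  have hQ0 : 0 ≤ Q := by positivity
  have hwd : ∀ a, wd t a ≤ X ^ d := by
    intro a
    have := mo_le d 1 X t (fun a => (ht a).2) hX1 hcard a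
    unfold mo at this
    rw [one_mul, one_mul] at this
    exact this
  have hXd : ((X ^ d : ℕ) : ℝ) ≤ L ^ (B0 * d) := by
    push_cast
    rw [pow_mul]
    exact pow_le_pow_left₀ (by positivity) hXH d
  have hcnt : ∀ a, ∀ p ∈ LP z (wd t a), ∑ v ∈ Bx d H, (∏ a, MM (primorial z) (pv v (t a) + g a)) * dv p (pv v (t a) + g a) ≤
      1 / p * T0 + Q := by
    intro a p hp
    unfold LP at hp
    rw [mem_filter] at hp
    refine (cnt2 d H z p (Nat.prime_of_mem_primeFactors hp.1) hp.2 t g a).trans ?_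
    have h3 : (p : ℝ) ≤ L ^ (B0 * d) := by
      refine le_trans ?_ hXd
      exact_mod_cast (Nat.le_of_mem_primeFactors hp.1).trans (hwd a)
    have h4 : Cz z ^ Fintype.card ι ≤ L ^ (d + 1) :=
      (pow_le_pow_right₀ hCz hcard).trans (pow_le_pow_left₀ (by linarith) hCzL _)
    rw [hQ]
    gcongr
  have hLPc : ∀ a, ((LP z (wd t a)).card : ℝ) ≤ L ^ (B0 * d) := by
    intro a
    refine le_trans ?_ hXd
    have h3 : (LP z (wd t a)).card ≤ wd t a := by
      have : LP z (wd t a) ⊆ Ioc 0 (wd t a) := by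
        intro p hp
        unfold LP at hp
        rw [mem_filter] at hp
        rw [mem_Ioc]
        exact ⟨(Nat.prime_of_mem_primeFactors hp.1).pos, Nat.le_of_mem_primeFactors hp.1⟩
      refine (card_le_card this).trans ?_
      rw [Nat.card_Ioc]; omega
    exact_mod_cast h3.trans (hwd a)
  have hmodel : |T1 - T0| ≤ 2 * E * T0 + (d + 1) * (L ^ (B0 * d) * Q) := by
    calc |T1 - T0| ≤ ∑ v ∈ Bx d H, |PB (primorial z) t s (fun _ => MM (primorial z)) (fun a => pv v (t a) + g a) -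
          ∏ a, MM (primorial z) (pv v (t a) + g a)| := by
          rw [hT1, hT0, ← sum_sub_distrib]
          exact abs_sum_le_sum_abs _ _
      _ ≤ ∑ v ∈ Bx d H, ((∏ a, MM (primorial z) (pv v (t a) + g a)) * ((∏ a, GG z (wd t a) - 1) +
          ∑ a, ∑ p ∈ LP z (wd t a), dv p (pv v (t a) + g a))) :=
          sum_le_sum fun v _ => prod_model' z t hinj s (fun a => pv v (t a) + g a)
      _ = (∏ a, GG z (wd t a) - 1) * T0 +
          ∑ a, ∑ p ∈ LP z (wd t a), ∑ v ∈ Bx d H, (∏ a, MM (primorial z) (pv v (t a) + g a)) * dv p (pv v (t a) + g a) := by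
          simp only [mul_add, sum_add_distrib, mul_sum]
          congr 1
          · rw [hT0, mul_sum]
            apply sum_congr rfl
            intro v _
            ring
          · rw [sum_comm]
            apply sum_congr rfl
            intro a _
            rw [sum_comm]
      _ ≤ E * T0 + ∑ a, ∑ p ∈ LP z (wd t a), (1 / p * T0 + Q) := by
          have h3 := prod_GG_le z t
          rw [← hS] at h3
          apply add_le_add
          · apply mul_le_mul_of_nonneg_right _ hT00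
            linarith
          · exact sum_le_sum fun a _ => sum_le_sum fun p hp => hcnt a p hp
      _ = E * T0 + (S * T0 + ∑ a : ι, (LP z (wd t a)).card * Q) := by
          congr 1
          rw [hS]
          unfold Sg sg
          simp only [sum_add_distrib, sum_const, nsmul_eq_mul, ← sum_mul]
      _ ≤ E * T0 + (E * T0 + ∑ a : ι, L ^ (B0 * d) * Q) := by
          have h4 := Real.add_one_le_exp (2 * S)
          gcongr with a _
          · linarith
          · exact hLPc a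
      _ ≤ _ := by
          rw [sum_const, card_univ, nsmul_eq_mul]
          have h5 : (Fintype.card ι : ℝ) ≤ d + 1 := by exact_mod_cast hcard
          have h6 : (Fintype.card ι : ℝ) * (L ^ (B0 * d) * Q) ≤ (d + 1) * (L ^ (B0 * d) * Q) :=
            mul_le_mul_of_nonneg_right h5 (by positivity)
          linarith
  have hQN : (d + 1) * (L ^ (B0 * d) * Q) ≤ η / 8 * N := by
    rw [hN, card_Bx, hQ, pow_succ (2 * (H : ℝ) + 1) d]
    have h3 : ((d : ℝ) + 1) * (L ^ (B0 * d) * (L ^ (d + 1) * (2 * ((d + 1) * (L ^ (B0 * d) * L) * (2 * H + 1) ^ d)))) =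
        (2 * ((d : ℝ) + 1) ^ 2 * L ^ ((d + 1) + 2 * (B0 * d) + 1)) * (2 * H + 1) ^ d := by ring
    rw [h3]
    have h4 : 2 * ((d : ℝ) + 1) ^ 2 * L ^ ((d + 1) + 2 * (B0 * d) + 1) ≤ η / 8 * (2 * H + 1) := by
      calc 2 * ((d : ℝ) + 1) ^ 2 * L ^ ((d + 1) + 2 * (B0 * d) + 1) ≤ 2 * ((d : ℝ) + 1) ^ 2 * (η / (8 * (d + 1) ^ 2) * H) := by
            gcongr
        _ = η / 8 * (2 * H) := by field_simp
        _ ≤ _ := by
            have : 0 ≤ η / 8 := by positivity
            nlinarith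
    calc _ ≤ (η / 8 * (2 * H + 1)) * (2 * H + 1) ^ d := mul_le_mul_of_nonneg_right h4 (by positivity)
      _ = _ := by ring
  have hsc : s.card ≤ d + 1 := (card_le_univ s).trans hcard
  have hpow1 : (1 + δ) ^ s.card - 1 ≤ min η 1 := by
    refine le_trans ?_ hδη
    have : (1 + δ) ^ s.card ≤ (1 + δ) ^ (d + 1) := pow_le_pow_right₀ (by linarith) hsc
    linarith
  have hpow2 : ((2 : ℝ) ^ s.card - 1) * (N / L ^ 1) ≤ N * (η / 2) := by
    have h3 : (2 : ℝ) ^ s.card - 1 ≤ 2 ^ (d + 1) := by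
      have : (2 : ℝ) ^ s.card ≤ 2 ^ (d + 1) := pow_le_pow_right₀ (by norm_num) hsc
      linarith
    rw [pow_one]
    calc ((2 : ℝ) ^ s.card - 1) * (N / L) ≤ 2 ^ (d + 1) * (N / L) := by gcongr
      _ ≤ N * (η / 2) := by
          rw [div_le_iff₀ (by positivity)] at hLη
          rw [← mul_div_assoc, div_le_iff₀ hL0]
          nlinarith
  have hEE : E ≤ 1 := hSg
  have h10 : T1 ≤ 3 * T0 + η / 8 * N := by
    have := (abs_le.1 hmodel).2
    have h11 : 2 * E * T0 ≤ 2 * 1 * T0 := by gcongr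
    linarith
  have h12 : ((1 + δ) ^ s.card - 1) * T1 ≤ 3 * η * T0 + η / 8 * N := by
    calc ((1 + δ) ^ s.card - 1) * T1 ≤ min η 1 * T1 := mul_le_mul_of_nonneg_right hpow1 hPB0
      _ ≤ min η 1 * (3 * T0 + η / 8 * N) := mul_le_mul_of_nonneg_left h10 (by positivity)
      _ = 3 * min η 1 * T0 + min η 1 * (η / 8 * N) := by ring
      _ ≤ 3 * η * T0 + 1 * (η / 8 * N) := by
          have := min_le_left η 1
          have := min_le_right η 1
          gcongr
      _ = _ := by ring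
  calc _ ≤ |_ - T1| + |T1 - T0| := abs_sub_le _ _ _
    _ ≤ (((1 + δ) ^ s.card - 1) * T1 + (2 ^ s.card - 1) * (N / L ^ 1)) + (2 * E * T0 + (d + 1) * (L ^ (B0 * d) * Q)) :=
        add_le_add hm hmodel
    _ ≤ (3 * η * T0 + η / 8 * N + N * (η / 2)) + (2 * E * T0 + η / 8 * N) := by
        gcongr
    _ ≤ _ := by
        have : 0 ≤ η * N := by positivity
        nlinarith

end Pool.Agent.Helper82K9.PR
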