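import Pool.Agent.Helper82K9.PR.PU1

set_option autoImplicit false

/-! The mean value of the model: the values of a polynomial at points in different classes are independent modulo the
small primes. -/

namespace Pool.Agent.Helper82K9.PR

open Finset Filter

lemma dv_add (p : ℕ) (u e : ℤ) (he : (p : ℤ) ∣ e) : dv p (u + e) = dv p u := by
  unfold dv
  by_cases h : (p : ℤ) ∣ u
  · rw [if_pos h, if_pos (dvd_add h he)]
  · rw [if_neg h, if_neg]
    intro h2
    exact h ((dvd_add_left he).1 h2)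

lemma dv_le_one (p : ℕ) (u : ℤ) : dv p u ≤ 1 := by unfold dv; split_ifs <;> norm_num

lemma loc {ι : Type} [Fintype ι] [DecidableEq ι] (d H z X : ℕ) (t : ι → ℕ) (ht : ∀ a, t a ≤ X)
    (hcard : Fintype.card ι ≤ d + 1) (g : ι → ℤ) (S : Finset (ℕ × ι)) (hS : ∀ q ∈ S, q.1.Prime ∧ q.1 ≤ z)
    (hinj : ∀ a ∈ S, ∀ b ∈ S, a.1 = b.1 → t a.2 % a.1 = t b.2 % b.1 → a = b) :
    |∑ v ∈ Bx d H, ∏ q ∈ S, (1 - dv q.1 (pv v (t q.2) + g q.2)) - (Bx d H).card * ∏ q ∈ S, (1 - 1 / (q.1 : ℝ))| ≤
      S.card * (2 * ((d + 1) * (primorial z * (1 + (X : ℝ)) ^ d) * (2 * H + 1) ^ d)) := by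
  classical
  induction S using Finset.induction_on with
  | empty => simp
  | insert qb S hqb ih =>
    obtain ⟨q, b⟩ := qb
    have ih' := ih (fun q hq => hS q (mem_insert_of_mem hq)) (fun a ha b hb => hinj a (mem_insert_of_mem ha) b (mem_insert_of_mem hb))
    obtain ⟨hq, hqz⟩ := hS (q, b) (mem_insert_self _ _)
    simp only at hq hqz
    have hqr : (0 : ℝ) < q := by exact_mod_cast hq.pos
    have hqr1 : (1 : ℝ) ≤ q := by exact_mod_cast hq.one_le
    set W := primorial z with hW
    have hW0 : 0 < W := primorial_pos z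
    have hqW : q ∣ W := hq.dvd_primorial_iff.2 hqz
    obtain ⟨W', hW'⟩ := hqW
    have hW'0 : 0 < W' := by
      rcases Nat.eq_zero_or_pos W' with h | h
      · rw [h, mul_zero] at hW'; omega
      · exact h
    have hqW' : ¬ q ∣ W' := by
      intro h
      have h1 : q * q ∣ W := by rw [hW']; exact Nat.mul_dvd_mul_left q h
      exact hq.one_lt.ne' (Nat.isUnit_iff.1 (squarefree_primorial z q h1))
    have hpW' : ∀ p : ℕ, p.Prime → p ≤ z → p ≠ q → p ∣ W' := by
      intro p hp hpz hpq
      have h1 : p ∣ W := hp.dvd_primorial_iff.2 hpz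
      rw [hW'] at h1
      rcases hp.dvd_mul.1 h1 with h2 | h2
      · exact absurd ((Nat.prime_dvd_prime_iff_eq hp hq).1 h2) hpq
      · exact h2
    -- the points with the same prime
    set Sq := (S.filter (fun a => a.1 = q)).image Prod.snd with hSq
    have hbSq : b ∉ Sq := by
      intro h
      rw [hSq, mem_image] at h
      obtain ⟨a, ha, hab⟩ := h
      rw [mem_filter] at ha
      apply hqb
      have : a = (q, b) := Prod.ext ha.2 hab
      rw [← this]; exact ha.1
    have hSqc : Sq.card ≤ d := by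
      have h1 : (insert b Sq).card ≤ Fintype.card ι := card_le_univ _
      rw [card_insert_of_notMem hbSq] at h1
      omega
    obtain ⟨r, hr1, hr2⟩ := vanish d Sq hSqc (fun a => (t a : ℤ)) X (fun i _ => by
      rw [abs_of_nonneg (Int.natCast_nonneg _)]; exact_mod_cast ht i)
    set F : (Fin (d + 1) → ℤ) → ℝ := fun v => ∏ q ∈ S, (1 - dv q.1 (pv v (t q.2) + g q.2)) with hF
    have hF0 : ∀ v, 0 ≤ F v := fun v => prod_nonneg fun a _ => by
      have := dv_le_one a.1 (pv v (t a.2) + g a.2)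
      linarith
    have hF1 : ∀ v, F v ≤ 1 := fun v => by
      rw [hF]
      apply prod_le_one
      · intro a _
        have := dv_le_one a.1 (pv v (t a.2) + g a.2)
        linarith
      · intro a _
        have := dv_nonneg a.1 (pv v (t a.2) + g a.2)
        linarith
    set m : ℤ := W' * ∏ a ∈ Sq, ((t b : ℤ) - t a) with hm
    have hpvr : ∀ n : ℕ, pv ((W' : ℤ) • r) n = W' * ∏ a ∈ Sq, ((n : ℤ) - t a) := by
      intro n
      have h1 := pv_smul (0 : Fin (d + 1) → ℤ) r W' n
      rw [zero_add, hr2] at h1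
      rw [h1]
      unfold pv
      simp
    have hmq : IsCoprime m (q : ℤ) := by
      rw [hm]
      apply IsCoprime.mul_left
      · rw [Int.isCoprime_iff_gcd_eq_one, Int.gcd_natCast_natCast]
        exact ((hq.coprime_iff_not_dvd).2 hqW').symm
      · apply IsCoprime.prod_left
        intro a ha
        have hne : ¬ (q : ℤ) ∣ (t b : ℤ) - t a := by
          intro h
          rw [hSq, mem_image] at ha
          obtain ⟨a', ha', haa'⟩ := ha
          rw [mem_filter] at ha'
          have h2 : t a ≡ t b [MOD q] := by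
            rw [← Int.natCast_modEq_iff, Int.modEq_iff_dvd]
            exact h
          have h3 := hinj (q, b) (mem_insert_self _ _) a' (mem_insert_of_mem ha'.1) ha'.2.symm (by
            simp only
            rw [haa', ha'.2]
            exact h2.symm)
          apply hqb
          rw [h3]; exact ha'.1
        rw [isCoprime_comm, Int.isCoprime_iff_gcd_eq_one, Int.gcd_def, Int.natAbs_natCast]
        exact (hq.coprime_iff_not_dvd).2 (fun h => hne (Int.natCast_dvd.2 h))
    have hshift := shift_avg d H q hq.one_le (fun v => F v * dv q (pv v (t b) + g b)) 1 one_pos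
      (fun v => mul_nonneg (hF0 v) (dv_nonneg _ _))
      (fun v => mul_le_one₀ (hF1 v) (dv_nonneg _ _) (dv_le_one _ _)) ((W' : ℤ) • r) (W' * (1 + (X : ℝ)) ^ d) (by positivity) (by
        intro i
        rw [Pi.smul_apply, smul_eq_mul]
        push_cast
        rw [abs_mul, abs_of_nonneg (by positivity : (0 : ℝ) ≤ W')]
        apply mul_le_mul_of_nonneg_left _ (by positivity)
        refine (hr1 i).trans ?_
        exact pow_le_pow_right₀ (by have : (0 : ℝ) ≤ X := Nat.cast_nonneg _
                                    linarith) hSqc)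
    have hinv : ∀ v : Fin (d + 1) → ℤ, ∀ c : ℕ, F (v + (c : ℤ) • ((W' : ℤ) • r)) = F v := by
      intro v c
      rw [hF]
      apply prod_congr rfl
      intro a ha
      congr 1
      rw [pv_smul, add_right_comm]
      apply dv_add
      rw [hpvr]
      apply Dvd.dvd.mul_left
      obtain ⟨ha1, ha2⟩ := hS a (mem_insert_of_mem ha)
      by_cases haq : a.1 = q
      · apply Dvd.dvd.mul_left
        have : a.2 ∈ Sq := mem_image.2 ⟨a, mem_filter.2 ⟨ha, haq⟩, rfl⟩
        rw [prod_eq_zero this (sub_self _)]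
        exact dvd_zero _
      · apply Dvd.dvd.mul_right
        exact Int.natCast_dvd_natCast.2 (hpW' a.1 ha1 ha2 haq)
    have e1 : ∀ v ∈ Bx d H, ∑ c ∈ Icc 1 q, F (v + (c : ℤ) • ((W' : ℤ) • r)) *
        dv q (pv (v + (c : ℤ) • ((W' : ℤ) • r)) (t b) + g b) = F v := by
      intro v _
      have e2 : ∀ c ∈ Icc 1 q, F (v + (c : ℤ) • ((W' : ℤ) • r)) *
        dv q (pv (v + (c : ℤ) • ((W' : ℤ) • r)) (t b) + g b) = F v * dv q ((pv v (t b) + g b) + c * m) := by
        intro c _
        rw [hinv, pv_smul, hpvr, add_right_comm]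
      rw [sum_congr rfl e2, ← mul_sum, dv_prog q hq.one_le m hmq, mul_one]
    rw [sum_congr rfl e1] at hshift
    set E : ℝ := 2 * ((d + 1) * (W * (1 + (X : ℝ)) ^ d) * (2 * H + 1) ^ d) with hE
    have hE0 : 0 ≤ E := by positivity
    have hshift' : |∑ v ∈ Bx d H, F v * dv q (pv v (t b) + g b) - 1 / q * ∑ v ∈ Bx d H, F v| ≤ E := by
      have e3 : (q : ℝ) * ∑ v ∈ Bx d H, F v * dv q (pv v (t b) + g b) - ∑ v ∈ Bx d H, F v =
          q * (∑ v ∈ Bx d H, F v * dv q (pv v (t b) + g b) - 1 / q * ∑ v ∈ Bx d H, F v) := by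
        field_simp
      rw [e3, abs_mul, abs_of_pos hqr] at hshift
      have e4 : (q : ℝ) * (1 * (2 * ((d + 1) * (q * (W' * (1 + (X : ℝ)) ^ d)) * (2 * H + 1) ^ d))) = q * E := by
        rw [hE, hW']; push_cast; ring
      rw [e4] at hshift
      exact le_of_mul_le_mul_left hshift hqr
    have e5 : ∑ v ∈ Bx d H, ∏ q ∈ insert (q, b) S, (1 - dv q.1 (pv v (t q.2) + g q.2)) =
        ∑ v ∈ Bx d H, F v - ∑ v ∈ Bx d H, F v * dv q (pv v (t b) + g b) := by
      rw [← sum_sub_distrib]
      apply sum_congr rfl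
      intro v _
      rw [prod_insert hqb]
      ring
    rw [e5, prod_insert hqb, card_insert_of_notMem hqb]
    simp only
    set T := ∑ v ∈ Bx d H, F v with hT
    set Y := ∑ v ∈ Bx d H, F v * dv q (pv v (t b) + g b) with hY
    set P0 := ∏ q ∈ S, (1 - 1 / (q.1 : ℝ)) with hP0
    have hq1 : 0 ≤ 1 - 1 / (q : ℝ) := by
      have : 1 / (q : ℝ) ≤ 1 := by rw [div_le_one hqr]; exact hqr1
      linarith
    have hq2 : 1 - 1 / (q : ℝ) ≤ 1 := by
      have : 0 < 1 / (q : ℝ) := by positivity
      linarith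
    have e6 : T - Y - (Bx d H).card * ((1 - 1 / (q : ℝ)) * P0) =
        (1 - 1 / (q : ℝ)) * (T - (Bx d H).card * P0) - (Y - 1 / q * T) := by ring
    rw [e6]
    refine (abs_sub _ _).trans ?_
    rw [abs_mul, abs_of_nonneg hq1]
    calc (1 - 1 / (q : ℝ)) * |T - (Bx d H).card * P0| + |Y - 1 / q * T| ≤
        1 * (S.card * E) + E := by
          apply add_le_add _ hshift'
          exact mul_le_mul hq2 ih' (abs_nonneg _) zero_le_one
      _ = _ := by push_cast; ring


lemma MM_prime (z : ℕ) (u : ℤ) (h : MM (primorial z) u ≠ 0) (p : ℕ) (hp : p.Prime) (hpz : p ≤ z) : ¬ (p : ℤ) ∣ u := by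
  intro hpu
  apply h
  unfold MM
  rw [if_neg]
  intro h1
  rw [Int.gcd_def, Int.natAbs_natCast] at h1
  have h2 : p ∣ primorial z := hp.dvd_primorial_iff.2 hpz
  have h3 : p ∣ Nat.gcd u.natAbs (primorial z) := Nat.dvd_gcd (Int.natCast_dvd.1 hpu) h2
  rw [h1] at h3
  exact hp.one_lt.ne' (Nat.dvd_one.1 h3)

/-- the mean value of the model from representatives of the classes of the points -/
lemma T0_le {ι : Type} [Fintype ι] [DecidableEq ι] (d H z X : ℕ) (t : ι → ℕ) (ht : ∀ a, t a ≤ X)
    (hcard : Fintype.card ι ≤ d + 1) (g : ι → ℤ) (R : ℕ → Finset ι)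
    (hR : ∀ p, ∀ a ∈ R p, ∀ b ∈ R p, t a % p = t b % p → a = b) :
    ∑ v ∈ Bx d H, ∏ a, MM (primorial z) (pv v (t a) + g a) ≤ Cz z ^ Fintype.card ι *
      ((Bx d H).card * ∏ p ∈ Nat.primesLE z, (1 - 1 / (p : ℝ)) ^ (R p).card +
      (z * Fintype.card ι) * (2 * ((d + 1) * (primorial z * (1 + (X : ℝ)) ^ d) * (2 * H + 1) ^ d))) := by
  classical
  set S : Finset (ℕ × ι) := ((Nat.primesLE z) ×ˢ (univ : Finset ι)).filter (fun q => q.2 ∈ R q.1) with hS
  have hSm : ∀ q ∈ S, q.1.Prime ∧ q.1 ≤ z := by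
    intro q hq
    rw [hS, mem_filter, mem_product, Nat.mem_primesLE] at hq
    exact ⟨hq.1.1.2, hq.1.1.1⟩
  have hSi : ∀ a ∈ S, ∀ b ∈ S, a.1 = b.1 → t a.2 % a.1 = t b.2 % b.1 → a = b := by
    intro a ha b hb hab h1
    have ha2 := (mem_filter.1 ha).2
    have hb2 := (mem_filter.1 hb).2
    rw [← hab] at hb2 h1
    exact Prod.ext hab (hR a.1 a.2 ha2 b.2 hb2 h1)
  have h1 := loc d H z X t ht hcard g S hSm hSi
  have hSc : (S.card : ℝ) ≤ z * Fintype.card ι := by
    have h2 : S.card ≤ z * Fintype.card ι := by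
      refine (card_filter_le _ _).trans ?_
      rw [card_product, card_univ]
      apply Nat.mul_le_mul_right
      rw [← primes_eq]
      refine (card_filter_le _ _).trans ?_
      rw [Nat.card_Icc]; omega
    exact_mod_cast h2
  have hprod : ∀ f : ℕ × ι → ℝ, ∏ q ∈ S, f q = ∏ p ∈ Nat.primesLE z, ∏ a ∈ R p, f (p, a) := by
    intro f
    rw [hS, prod_filter, prod_product]
    apply prod_congr rfl
    intro p _
    rw [← prod_filter]
    apply prod_congr _ (fun _ _ => rfl)
    ext a
    simp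
  have h2 : ∑ v ∈ Bx d H, ∏ a, MM (primorial z) (pv v (t a) + g a) ≤
      Cz z ^ Fintype.card ι * ∑ v ∈ Bx d H, ∏ q ∈ S, (1 - dv q.1 (pv v (t q.2) + g q.2)) := by
    rw [mul_sum]
    apply sum_le_sum
    intro v _
    have hCz := Cz_ge z
    have hnn : 0 ≤ ∏ q ∈ S, (1 - dv q.1 (pv v (t q.2) + g q.2)) := prod_nonneg fun a _ => by
      have := dv_le_one a.1 (pv v (t a.2) + g a.2)
      linarith
    by_cases h0 : ∃ a, MM (primorial z) (pv v (t a) + g a) = 0
    · obtain ⟨a, ha⟩ := h0
      rw [prod_eq_zero (mem_univ a) ha]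
      positivity
    · push Not at h0
      have e1 : ∏ q ∈ S, (1 - dv q.1 (pv v (t q.2) + g q.2)) = 1 := by
        apply prod_eq_one
        intro q hq
        obtain ⟨hq1, hq2⟩ := hSm q hq
        unfold dv
        rw [if_neg (MM_prime z _ (h0 q.2) q.1 hq1 hq2), sub_zero]
      rw [e1, mul_one]
      calc ∏ a, MM (primorial z) (pv v (t a) + g a) ≤ ∏ a : ι, Cz z :=
            Finset.prod_le_prod (fun a _ => MM_nonneg _ _) (fun a _ => MM_le_Cz z _)
        _ = _ := by rw [prod_const, card_univ]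
  refine h2.trans ?_
  apply mul_le_mul_of_nonneg_left _ (by have := Cz_ge z; positivity)
  have e2 : ∏ q ∈ S, (1 - 1 / (q.1 : ℝ)) = ∏ p ∈ Nat.primesLE z, (1 - 1 / (p : ℝ)) ^ (R p).card := by
    rw [hprod (fun q => 1 - 1 / (q.1 : ℝ))]
    apply prod_congr rfl
    intro p _
    show ∏ a ∈ R p, (1 - 1 / (p : ℝ)) = _
    rw [prod_const]
  rw [e2] at h1
  have h3 := (abs_le.1 h1).2
  have h4 : (S.card : ℝ) * (2 * ((d + 1) * (primorial z * (1 + (X : ℝ)) ^ d) * (2 * H + 1) ^ d)) ≤
      (z * Fintype.card ι) * (2 * ((d + 1) * (primorial z * (1 + (X : ℝ)) ^ d) * (2 * H + 1) ^ d)) :=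
    mul_le_mul_of_nonneg_right hSc (by positivity)
  linarith

/-- representatives of the classes modulo `p` -/
def Rep {k : ℕ} (h : Fin k → ℕ) (p : ℕ) : Finset (Fin k) := univ.filter (fun i => ∀ j, j < i → h j % p ≠ h i % p)

/-- the number of the classes modulo `p` -/
def nuh {k : ℕ} (h : Fin k → ℕ) (p : ℕ) : ℕ := (univ.image (fun i => h i % p)).card

lemma Rep_inj {k : ℕ} (h : Fin k → ℕ) (p : ℕ) (i j : Fin k) (hi : i ∈ Rep h p) (hj : j ∈ Rep h p)
    (hij : h i % p = h j % p) : i = j := by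
  unfold Rep at hi hj
  rw [mem_filter] at hi hj
  rcases lt_trichotomy i j with h1 | h1 | h1
  · exact absurd hij (hj.2 i h1)
  · exact h1
  · exact absurd hij.symm (hi.2 j h1)

lemma Rep_card {k : ℕ} (h : Fin k → ℕ) (p : ℕ) : (Rep h p).card = nuh h p := by
  unfold nuh
  have h1 : univ.image (fun i => h i % p) = (Rep h p).image (fun i => h i % p) := by
    ext c
    rw [mem_image, mem_image]
    constructor
    · rintro ⟨i, _, rfl⟩
      obtain ⟨j, hj, hmin⟩ := (univ.filter (fun j : Fin k => h j % p = h i % p)).exists_min_image id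
        ⟨i, mem_filter.2 ⟨mem_univ _, rfl⟩⟩
      rw [mem_filter] at hj
      refine ⟨j, ?_, hj.2⟩
      unfold Rep
      rw [mem_filter]
      refine ⟨mem_univ _, fun l hl h2 => ?_⟩
      have h3 := hmin l (mem_filter.2 ⟨mem_univ _, h2.trans hj.2⟩)
      simp only [id] at h3
      exact absurd hl (not_lt.2 h3)
    · rintro ⟨i, _, rfl⟩
      exact ⟨i, mem_univ _, rfl⟩
  rw [h1, card_image_of_injOn]
  intro i hi j hj hij
  exact Rep_inj h p i j (mem_coe.1 hi) (mem_coe.1 hj) hij

lemma nuh_le {k : ℕ} (h : Fin k → ℕ) (p : ℕ) : nuh h p ≤ k := by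
  unfold nuh
  refine card_image_le.trans (le_of_eq ?_)
  rw [card_univ, Fintype.card_fin]

/-- the mean value of the main term -/
noncomputable def kap {k : ℕ} (z : ℕ) (h : Fin k → ℕ) : ℝ := ∏ p ∈ Nat.primesLE z, ((1 - 1 / (p : ℝ)) ^ (k - nuh h p))⁻¹

lemma one_sub_pos (p : ℕ) (hp : p.Prime) : 0 < 1 - 1 / (p : ℝ) ∧ 1 - 1 / (p : ℝ) ≤ 1 := by
  have h1 : (2 : ℝ) ≤ p := by exact_mod_cast hp.two_le
  have h0 : 0 < 1 / (p : ℝ) := by positivity
  have h2 : 1 / (p : ℝ) ≤ 1 / 2 := by
    apply one_div_le_one_div_of_le (by norm_num) h1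
  constructor <;> linarith

lemma one_le_kap {k : ℕ} (z : ℕ) (h : Fin k → ℕ) : 1 ≤ kap z h := by
  unfold kap
  calc (1 : ℝ) = ∏ p ∈ Nat.primesLE z, 1 := by rw [prod_const_one]
    _ ≤ _ := by
      apply Finset.prod_le_prod (fun _ _ => by norm_num)
      intro p hp
      obtain ⟨h1, h2⟩ := one_sub_pos p (Nat.prime_of_mem_primesLE hp)
      rw [one_le_inv₀ (by positivity)]
      exact pow_le_one₀ h1.le h2

lemma Cz_eq' (z : ℕ) : Cz z = ∏ p ∈ Nat.primesLE z, (1 - 1 / (p : ℝ))⁻¹ := by
  rw [Cz_eq, primes_eq]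

/-- one point -/
lemma T0_single (k : ℕ) (h : Fin k → ℕ) (d H z X n : ℕ) (hX : ∀ i, n + h i ≤ X) (hk : k ≤ d + 1) (g : Fin k → ℤ) :
    ∑ v ∈ Bx d H, ∏ i, MM (primorial z) (pv v (n + h i) + g i) ≤ (Bx d H).card * kap z h +
      Cz z ^ k * ((z * k) * (2 * ((d + 1) * (primorial z * (1 + (X : ℝ)) ^ d) * (2 * H + 1) ^ d))) := by
  have h1 := T0_le d H z X (fun i => n + h i) hX (by rw [Fintype.card_fin]; exact hk) g (fun p => Rep h p) (by
    intro p i hi j hj hij
    apply Rep_inj h p i j hi hj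
    exact Nat.ModEq.add_left_cancel' n hij)
  rw [Fintype.card_fin] at h1
  refine h1.trans (le_of_eq ?_)
  rw [mul_add]
  congr 1
  rw [mul_left_comm]
  congr 1
  unfold kap
  rw [Cz_eq', ← prod_pow, ← prod_mul_distrib]
  apply prod_congr rfl
  intro p hp
  obtain ⟨h1, h2⟩ := one_sub_pos p (Nat.prime_of_mem_primesLE hp)
  rw [Rep_card, inv_pow]
  have h3 := nuh_le h p
  have e1 : (1 - 1 / (p : ℝ)) ^ k = (1 - 1 / (p : ℝ)) ^ (k - nuh h p) * (1 - 1 / (p : ℝ)) ^ nuh h p := by
    rw [← pow_add]; congr 1; omega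
  rw [e1]
  field_simp

/-- two points -/
lemma T0_pair (k : ℕ) (h : Fin k → ℕ) (d H z X n m : ℕ) (hX : ∀ i, n + h i ≤ X) (hX' : ∀ i, m + h i ≤ X)
    (hk : 2 * k ≤ d + 1) (hg : Good h n m) (g : Fin k ⊕ Fin k → ℤ) :
    ∑ v ∈ Bx d H, ∏ a, MM (primorial z) (pv v (pts h n m a) + g a) ≤
      (Bx d H).card * (kap z h ^ 2 * Real.exp (∑ i, ∑ j, 2 * sg 1 ((n + h i : ℤ) - (m + h j)).natAbs)) +
      Cz z ^ (2 * k) * ((z * (2 * k)) * (2 * ((d + 1) * (primorial z * (1 + (X : ℝ)) ^ d) * (2 * H + 1) ^ d))) := by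
  classical
  have hcard : Fintype.card (Fin k ⊕ Fin k) = 2 * k := by rw [Fintype.card_sum, Fintype.card_fin]; ring
  set Q : ℕ → Finset (Fin k) := fun p => (Rep h p).filter (fun j => ∀ i ∈ Rep h p, (n + h i) % p ≠ (m + h j) % p) with hQ
  have h1 := T0_le d H z X (pts h n m) (by
    intro a
    rcases a with i | j
    · exact hX i
    · exact hX' j) (by rw [hcard]; exact hk) g (fun p => (Rep h p).disjSum (Q p)) (by
    intro p a ha b hb hab
    rcases a with i | i <;> rcases b with j | j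
    · rw [Finset.inl_mem_disjSum] at ha hb
      congr 1
      apply Rep_inj h p i j ha hb
      exact Nat.ModEq.add_left_cancel' n hab
    · rw [Finset.inl_mem_disjSum] at ha
      rw [Finset.inr_mem_disjSum] at hb
      exact absurd hab ((mem_filter.1 hb).2 i ha)
    · rw [Finset.inr_mem_disjSum] at ha
      rw [Finset.inl_mem_disjSum] at hb
      exact absurd hab.symm ((mem_filter.1 ha).2 j hb)
    · rw [Finset.inr_mem_disjSum] at ha hb
      congr 1
      apply Rep_inj h p i j (mem_filter.1 ha).1 (mem_filter.1 hb).1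
      exact Nat.ModEq.add_left_cancel' m hab)
  rw [hcard] at h1
  refine h1.trans ?_
  rw [mul_add]
  push_cast
  apply add_le_add_left
  rw [mul_left_comm]
  apply mul_le_mul_of_nonneg_left _ (Nat.cast_nonneg _)
  -- the primes one by one
  set c : ℕ → ℕ := fun p => ((Rep h p).filter (fun j => ¬ ∀ i ∈ Rep h p, (n + h i) % p ≠ (m + h j) % p)).card with hc
  have hcQ : ∀ p, (Q p).card + c p = nuh h p := by
    intro p
    rw [← Rep_card]
    exact card_filter_add_card_filter_not _
  have e1 : Cz z ^ (2 * k) * ∏ p ∈ Nat.primesLE z, (1 - 1 / (p : ℝ)) ^ ((Rep h p).disjSum (Q p)).card =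
      kap z h ^ 2 * ∏ p ∈ Nat.primesLE z, ((1 - 1 / (p : ℝ)) ^ c p)⁻¹ := by
    unfold kap
    rw [Cz_eq', ← prod_pow, ← prod_mul_distrib, ← prod_pow, ← prod_mul_distrib]
    apply prod_congr rfl
    intro p hp
    obtain ⟨h1, h2⟩ := one_sub_pos p (Nat.prime_of_mem_primesLE hp)
    have h3 := nuh_le h p
    have h4 := hcQ p
    rw [card_disjSum, Rep_card, inv_pow]
    have e1 : (1 - 1 / (p : ℝ)) ^ (2 * k) = ((1 - 1 / (p : ℝ)) ^ (k - nuh h p)) ^ 2 *
        ((1 - 1 / (p : ℝ)) ^ (nuh h p + (Q p).card) * (1 - 1 / (p : ℝ)) ^ c p) := by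
      rw [← pow_mul, ← pow_add, ← pow_add]; congr 1; omega
    rw [e1]
    field_simp
  rw [e1]
  apply mul_le_mul_of_nonneg_left _ (by positivity)
  have h5 : ∀ p ∈ Nat.primesLE z, ((1 - 1 / (p : ℝ)) ^ c p)⁻¹ ≤ Real.exp (2 * (c p * (1 / (p : ℝ)))) := by
    intro p hp
    have hpp := Nat.prime_of_mem_primesLE hp
    obtain ⟨h1, h2⟩ := one_sub_pos p hpp
    have h3 : (1 - 1 / (p : ℝ))⁻¹ ≤ Real.exp (2 * (1 / (p : ℝ))) := by
      have h4 := Real.add_one_le_exp (2 * (1 / (p : ℝ)))
      refine le_trans ?_ h4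
      rw [inv_le_iff_one_le_mul₀ h1]
      have h1 : (2 : ℝ) ≤ p := by exact_mod_cast hpp.two_le
      have h0 : 0 < 1 / (p : ℝ) := by positivity
      have h2 : 1 / (p : ℝ) ≤ 1 / 2 := by
        apply one_div_le_one_div_of_le (by norm_num) h1
      nlinarith
    calc ((1 - 1 / (p : ℝ)) ^ c p)⁻¹ = ((1 - 1 / (p : ℝ))⁻¹) ^ c p := by rw [inv_pow]
      _ ≤ (Real.exp (2 * (1 / (p : ℝ)))) ^ c p := pow_le_pow_left₀ (by positivity) h3 _
      _ = _ := by rw [← Real.exp_nat_mul]; congr 1; ring
  calc ∏ p ∈ Nat.primesLE z, ((1 - 1 / (p : ℝ)) ^ c p)⁻¹ ≤ ∏ p ∈ Nat.primesLE z, Real.exp (2 * (c p * (1 / (p : ℝ)))) := by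
        apply Finset.prod_le_prod _ h5
        intro p hp
        obtain ⟨h1, h2⟩ := one_sub_pos p (Nat.prime_of_mem_primesLE hp)
        positivity
    _ = Real.exp (∑ p ∈ Nat.primesLE z, 2 * (c p * (1 / (p : ℝ)))) := by rw [Real.exp_sum]
    _ ≤ _ := by
        apply Real.exp_le_exp.2
        have h6 : ∀ p, (c p : ℝ) ≤ ∑ i : Fin k, ∑ j : Fin k, if (p : ℤ) ∣ (n + h i : ℤ) - (m + h j) then (1 : ℝ) else 0 := by
          intro p
          rw [sum_comm]
          have h7 : (c p : ℝ) = ∑ j : Fin k, if (j ∈ (Rep h p).filter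
              (fun j => ¬ ∀ i ∈ Rep h p, (n + h i) % p ≠ (m + h j) % p)) then (1 : ℝ) else 0 := by
            rw [hc]
            simp only
            rw [← sum_filter, sum_const, nsmul_eq_mul, mul_one]
            congr 2
            ext j
            simp
          rw [h7]
          apply sum_le_sum
          intro j _
          split_ifs with hj
          · rw [mem_filter] at hj
            obtain ⟨_, hj2⟩ := hj
            push Not at hj2
            obtain ⟨i, _, hi⟩ := hj2
            have h8 : (p : ℤ) ∣ (n + h i : ℤ) - (m + h j) := by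
              have h9 : m + h j ≡ n + h i [MOD p] := hi.symm
              rw [← Int.natCast_modEq_iff, Int.modEq_iff_dvd] at h9
              push_cast at h9
              exact h9
            calc (1 : ℝ) = if (p : ℤ) ∣ (n + h i : ℤ) - (m + h j) then (1 : ℝ) else 0 := by rw [if_pos h8]
              _ ≤ _ := single_le_sum (f := fun i : Fin k => if (p : ℤ) ∣ (n + h i : ℤ) - (m + h j) then (1 : ℝ) else 0)
                (fun i _ => by split_ifs <;> norm_num) (mem_univ i)
          · exact sum_nonneg fun i _ => by split_ifs <;> norm_num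
        calc ∑ p ∈ Nat.primesLE z, 2 * (c p * (1 / (p : ℝ))) ≤ ∑ p ∈ Nat.primesLE z, 2 * ((∑ i : Fin k, ∑ j : Fin k,
              if (p : ℤ) ∣ (n + h i : ℤ) - (m + h j) then (1 : ℝ) else 0) * (1 / (p : ℝ))) := by
              apply sum_le_sum
              intro p _
              have := h6 p
              gcongr
          _ = ∑ i : Fin k, ∑ j : Fin k, 2 * ∑ p ∈ Nat.primesLE z,
              (if (p : ℤ) ∣ (n + h i : ℤ) - (m + h j) then (1 : ℝ) else 0) * (1 / (p : ℝ)) := by
              simp only [sum_mul, mul_sum]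
              rw [sum_comm]
              apply sum_congr rfl
              intro i _
              rw [sum_comm]
          _ ≤ _ := by
              apply sum_le_sum
              intro i _
              apply sum_le_sum
              intro j _
              apply mul_le_mul_of_nonneg_left _ (by norm_num)
              unfold sg
              have hne : (n + h i : ℤ) - (m + h j) ≠ 0 := by
                have := hg i j
                omega
              calc ∑ p ∈ Nat.primesLE z, (if (p : ℤ) ∣ (n + h i : ℤ) - (m + h j) then (1 : ℝ) else 0) * (1 / (p : ℝ)) =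
                    ∑ p ∈ (Nat.primesLE z).filter (fun p : ℕ => (p : ℤ) ∣ (n + h i : ℤ) - (m + h j)), 1 / (p : ℝ) := by
                    rw [sum_filter]
                    apply sum_congr rfl
                    intro p _
                    split_ifs <;> ring
                _ ≤ _ := by
                    apply sum_le_sum_of_subset_of_nonneg
                    · intro p hp
                      rw [mem_filter] at hp
                      have hpp := Nat.prime_of_mem_primesLE hp.1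
                      unfold LP
                      rw [mem_filter, Nat.mem_primeFactors]
                      exact ⟨⟨hpp, Int.natCast_dvd.1 hp.2, Int.natAbs_ne_zero.2 hne⟩, hpp.one_lt⟩
                    · intro p _ _
                      positivity

end Pool.Agent.Helper82K9.PR
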