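import Pool.Agent.Helper82K9.PR.PU2

set_option autoImplicit false

/-! The second moment over the box of polynomials, uniformly in the shifts. -/

namespace Pool.Agent.Helper82K9.PR

open Finset Filter

/-- the bound for the small primes -/
noncomputable def zH (H : ℕ) : ℕ := ⌊Real.log (Real.log H) / 2⌋₊

lemma sg_le (z u : ℕ) (hz : 2 ≤ z) (hu : 1 ≤ u) : sg z u ≤ Real.log u / (z * Real.log z) := by
  have hz0 : (0 : ℝ) < z := by exact_mod_cast (by omega : 0 < z)
  have hlz : 0 < Real.log z := Real.log_pos (by exact_mod_cast (by omega : 1 < z))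
  have h1 : ∏ p ∈ LP z u, p ≤ u := by
    have h2 : ∏ p ∈ LP z u, p ∣ ∏ p ∈ u.primeFactors, p := prod_dvd_prod_of_subset _ _ _ (filter_subset _ _)
    exact Nat.le_of_dvd hu (h2.trans (Nat.prod_primeFactors_dvd u))
  have h2 : z ^ (LP z u).card ≤ ∏ p ∈ LP z u, p := by
    rw [← prod_const]
    apply prod_le_prod'
    intro p hp
    unfold LP at hp
    exact (mem_filter.1 hp).2.le
  have h3 : ((LP z u).card : ℝ) * Real.log z ≤ Real.log u := by
    rw [← Real.log_pow]
    apply Real.log_le_log (by positivity)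
    exact_mod_cast h2.trans h1
  unfold sg
  calc ∑ p ∈ LP z u, 1 / (p : ℝ) ≤ ∑ p ∈ LP z u, 1 / (z : ℝ) := by
        apply sum_le_sum
        intro p hp
        unfold LP at hp
        apply one_div_le_one_div_of_le hz0
        exact_mod_cast (mem_filter.1 hp).2.le
    _ = (LP z u).card * (1 / (z : ℝ)) := by rw [sum_const, nsmul_eq_mul]
    _ ≤ Real.log u / Real.log z * (1 / z) := by
        apply mul_le_mul_of_nonneg_right _ (by positivity)
        rw [le_div_iff₀ hlz]
        exact h3
    _ = _ := by field_simp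

lemma Sg_le {ι : Type} [Fintype ι] [DecidableEq ι] (d z X : ℕ) (hz : 2 ≤ z) (hX : 1 ≤ X) (t : ι → ℕ)
    (hinj : Function.Injective t) (ht : ∀ a, t a ≤ X) (hcard : Fintype.card ι ≤ d + 1) :
    Sg z t ≤ (d + 1) * (d * Real.log X / (z * Real.log z)) := by
  have hlz : 0 < Real.log z := Real.log_pos (by exact_mod_cast (by omega : 1 < z))
  have hX0 : (1 : ℝ) ≤ X := by exact_mod_cast hX
  unfold Sg
  calc ∑ a, sg z (wd t a) ≤ ∑ a : ι, d * Real.log X / (z * Real.log z) := by
        apply sum_le_sum
        intro a _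
        have h1 : wd t a ≤ X ^ d := by
          have := mo_le d 1 X t ht hX hcard a
          unfold mo at this
          rw [one_mul, one_mul] at this
          exact this
        have h2 : 1 ≤ wd t a := by
          have := wd_ne t hinj a
          omega
        refine (sg_le z _ hz h2).trans ?_
        gcongr
        rw [← Real.log_pow]
        apply Real.log_le_log (by exact_mod_cast h2)
        exact_mod_cast h1
    _ = Fintype.card ι * (d * Real.log X / (z * Real.log z)) := by rw [sum_const, card_univ, nsmul_eq_mul]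
    _ ≤ _ := by
        have h3 : (Fintype.card ι : ℝ) ≤ d + 1 := by exact_mod_cast hcard
        have h4 : 0 ≤ Real.log X := Real.log_nonneg hX0
        gcongr

lemma zH_facts (d B0 k : ℕ) (δ : ℝ) (hδ : 0 < δ) : ∃ H0 : ℕ, 3 ≤ H0 ∧ ∀ H : ℕ, H0 ≤ H → 2 ≤ Real.log H ∧ 2 ≤ zH H ∧
    (primorial (zH H) : ℝ) ≤ Real.log H ∧ (zH H : ℝ) ≤ Real.log H ∧
    (∀ X : ℕ, 1 ≤ X → (X : ℝ) ≤ Real.log H ^ B0 → (d + 1) * (d * Real.log X / (zH H * Real.log (zH H))) ≤ δ) ∧
    Cz (zH H) ^ k * primorial (zH H) ≤ δ * Real.log H := by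
  obtain ⟨C, hC, hCz⟩ := Cz_le
  have hlog : Tendsto (fun n : ℕ => Real.log n) atTop atTop := Real.tendsto_log_atTop.comp tendsto_natCast_atTop_atTop
  have hll : Tendsto (fun n : ℕ => Real.log (Real.log n)) atTop atTop := Real.tendsto_log_atTop.comp hlog
  have hlll : Tendsto (fun n : ℕ => Real.log (Real.log (Real.log n) / 4)) atTop atTop :=
    Real.tendsto_log_atTop.comp (hll.atTop_div_const (by norm_num))
  have e1 := hll.eventually ((isLittleO_pow_exp_pos_mul_atTop (k := 2 * k) (b := 3 / 10) (by norm_num)).def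
    (show (0 : ℝ) < δ / C ^ k by positivity))
  obtain ⟨H0, hH0⟩ := ((((hlog.eventually_ge_atTop 2).and (hll.eventually_ge_atTop 12)).and e1).and
    (hlll.eventually_ge_atTop ((d + 1) * (d * B0) * 4 / δ + 1))).exists_forall_of_atTop
  refine ⟨max H0 3, le_max_right _ _, fun H hH => ?_⟩
  obtain ⟨⟨⟨h1, h2⟩, h3⟩, h4⟩ := hH0 H ((le_max_left _ _).trans hH)
  set L := Real.log H with hL
  set l := Real.log L with hl
  have hL0 : 0 < L := by linarith
  have hLl : Real.exp l = L := Real.exp_log hL0
  set z := zH H with hz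
  have hz1 : (z : ℝ) ≤ l / 2 := Nat.floor_le (by linarith)
  have hz2 : l / 2 < z + 1 := Nat.lt_floor_add_one _
  have hz3 : l / 4 ≤ z := by linarith
  have hz4 : 2 ≤ z := by
    have : (2 : ℝ) ≤ z := by linarith
    exact_mod_cast this
  have hz0 : (0 : ℝ) < z := by linarith
  have hlL : l ≤ L := by
    have := Real.log_le_sub_one_of_pos hL0
    linarith
  have hprim : (primorial z : ℝ) ≤ Real.exp (7 / 10 * l) := by
    have h5 : (primorial z : ℝ) ≤ 4 ^ z := by exact_mod_cast primorial_le_four_pow z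
    refine h5.trans ?_
    have h6 : ((4 : ℝ)) ^ z = Real.exp (z * (2 * Real.log 2)) := by
      rw [Real.exp_nat_mul]
      congr 1
      rw [two_mul, Real.exp_add, Real.exp_log (by norm_num)]
      norm_num
    rw [h6]
    apply Real.exp_le_exp.2
    have h7 := Real.log_two_lt_d9
    have h8 : 2 * Real.log 2 ≤ 14 / 10 := by linarith
    calc (z : ℝ) * (2 * Real.log 2) ≤ l / 2 * (14 / 10) := by
          apply mul_le_mul hz1 h8 (by have := Real.log_two_gt_d9; linarith) (by linarith)
      _ = _ := by ring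
  refine ⟨h1, hz4, ?_, by linarith, ?_, ?_⟩
  · refine hprim.trans ?_
    rw [← hLl]
    apply Real.exp_le_exp.2
    linarith
  · intro X hX1 hXL
    have hX0 : (0 : ℝ) < X := by exact_mod_cast hX1
    have h5 : Real.log X ≤ B0 * l := by
      have := Real.log_le_log hX0 hXL
      rwa [Real.log_pow] at this
    have h6 : (d + 1) * (d * B0) * 4 / δ + 1 ≤ Real.log z := by
      refine h4.trans ?_
      exact Real.log_le_log (by linarith) hz3
    have h7 : 0 < Real.log z := by
      have : 0 ≤ ((d : ℝ) + 1) * (d * B0) * 4 / δ := by positivity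
      linarith
    rw [← mul_div_assoc, div_le_iff₀ (by positivity)]
    have h8 : (d + 1) * (d * B0) * 4 ≤ δ * Real.log z := by
      have : (d + 1) * (d * B0) * 4 / δ ≤ Real.log z := by linarith
      rw [div_le_iff₀ hδ] at this
      linarith
    calc ((d : ℝ) + 1) * (d * Real.log X) ≤ (d + 1) * (d * (B0 * l)) := by gcongr
      _ = ((d + 1) * (d * B0) * 4) * (l / 4) := by ring
      _ ≤ (δ * Real.log z) * z := by
          apply mul_le_mul h8 hz3 (by linarith) (by positivity)
      _ = _ := by ring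
  · have h5 : Cz z ≤ C * (z : ℝ) ^ 2 := hCz z z (by omega) (Nat.lt_two_pow_self).le
    have h6 : Cz z ≤ C * l ^ 2 := by
      refine h5.trans ?_
      apply mul_le_mul_of_nonneg_left _ hC.le
      exact pow_le_pow_left₀ hz0.le (by linarith) 2
    have h7 : l ^ (2 * k) ≤ δ / C ^ k * Real.exp (3 / 10 * l) := by
      simp only [Real.norm_eq_abs] at h3
      rw [abs_of_nonneg (by positivity), abs_of_nonneg (Real.exp_pos _).le] at h3
      exact h3
    calc Cz z ^ k * primorial z ≤ (C * l ^ 2) ^ k * Real.exp (7 / 10 * l) := by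
          apply mul_le_mul _ hprim (Nat.cast_nonneg _) (by positivity)
          exact pow_le_pow_left₀ (zero_le_one.trans (Cz_ge z)) h6 k
      _ = C ^ k * l ^ (2 * k) * Real.exp (7 / 10 * l) := by rw [mul_pow, ← pow_mul]
      _ ≤ C ^ k * (δ / C ^ k * Real.exp (3 / 10 * l)) * Real.exp (7 / 10 * l) := by gcongr
      _ = δ * (Real.exp (3 / 10 * l) * Real.exp (7 / 10 * l)) := by field_simp
      _ = δ * L := by
          rw [← Real.exp_add, ← hLl]
          congr 2
          ring

end Pool.Agent.Helper82K9.PR
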