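import Pool.Agent.Helper82K9.PR.PU3

set_option autoImplicit false

/-! The second moment over the box of polynomials, uniformly in the shifts. -/

namespace Pool.Agent.Helper82K9.PR

open Finset Filter

/-- the error term of the model -/
lemma err_le (d B0 k : ℕ) : ∃ H0 : ℕ, 3 ≤ H0 ∧ ∀ H : ℕ, H0 ≤ H → ∀ z : ℕ, (primorial z : ℝ) ≤ Real.log H →
    (z : ℝ) ≤ Real.log H → ∀ X : ℕ, (X : ℝ) ≤ Real.log H ^ B0 → ∀ j ≤ k,
    Cz z ^ j * ((z * (j : ℕ)) * (2 * ((d + 1) * (primorial z * (1 + (X : ℝ)) ^ d) * (2 * H + 1) ^ d))) ≤ (Bx d H).card := by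
  have hlog : Tendsto (fun n : ℕ => Real.log n) atTop atTop := Real.tendsto_log_atTop.comp tendsto_natCast_atTop_atTop
  have e6 := (tendsto_natCast_atTop_atTop (R := ℝ)).eventually
    ((Real.isLittleO_pow_log_id_atTop (n := k + 2 + (B0 + 1) * d)).def (show (0 : ℝ) < 1 / (2 * (d + 1) * (k + 1)) by positivity))
  obtain ⟨H0, h0⟩ := ((hlog.eventually_ge_atTop 2).and e6).exists_forall_of_atTop
  refine ⟨max H0 3, le_max_right _ _, fun H hH z hz1 hz2 X hX j hj => ?_⟩
  obtain ⟨h1, h2⟩ := h0 H ((le_max_left _ _).trans hH)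
  have hH3 : 3 ≤ H := (le_max_right _ _).trans hH
  set L := Real.log H with hL
  have hL1 : 1 ≤ L := by linarith
  have hL0 : 0 < L := by linarith
  have hHr : (0 : ℝ) < H := by exact_mod_cast (by omega : 0 < H)
  have hLH : L ^ (k + 2 + (B0 + 1) * d) ≤ 1 / (2 * (d + 1) * (k + 1)) * H := by
    simp only [id, Real.norm_eq_abs] at h2
    rw [abs_of_nonneg (by positivity), abs_of_nonneg hHr.le] at h2
    exact h2
  have hCz := Cz_ge z
  have hCzL : Cz z ≤ L := by
    unfold Cz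
    refine le_trans (div_le_self (by positivity) ?_) hz1
    exact_mod_cast Nat.totient_pos.2 (primorial_pos z)
  have hX1 : 1 + (X : ℝ) ≤ L ^ (B0 + 1) := by
    have h3 : 1 ≤ L ^ B0 := one_le_pow₀ hL1
    rw [pow_succ]
    nlinarith
  rw [card_Bx, pow_succ (2 * (H : ℝ) + 1) d]
  have hj' : (j : ℝ) ≤ k + 1 := by
    have : (j : ℝ) ≤ k := by exact_mod_cast hj
    linarith
  calc Cz z ^ j * ((z * (j : ℕ)) * (2 * ((d + 1) * (primorial z * (1 + (X : ℝ)) ^ d) * (2 * H + 1) ^ d))) ≤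
        L ^ k * ((L * (k + 1)) * (2 * ((d + 1) * (L * (L ^ (B0 + 1)) ^ d) * (2 * H + 1) ^ d))) := by
        gcongr
        · exact (pow_le_pow_left₀ (by linarith) hCzL j).trans (pow_le_pow_right₀ hL1 hj)
    _ = 2 * (d + 1) * (k + 1) * L ^ (k + 2 + (B0 + 1) * d) * (2 * H + 1) ^ d := by
        rw [← pow_mul]; ring
    _ ≤ 2 * (d + 1) * (k + 1) * (1 / (2 * (d + 1) * (k + 1)) * H) * (2 * H + 1) ^ d := by gcongr
    _ = H * (2 * H + 1) ^ d := by field_simp
    _ ≤ (2 * H + 1) * (2 * H + 1) ^ d := by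
        apply mul_le_mul_of_nonneg_right _ (by positivity)
        linarith
    _ = _ := by ring

/-- the mean value of the model at one point -/
lemma RR_mean (k d B0 : ℕ) (hk : k ≤ d + 1) : ∃ H0 : ℕ, 3 ≤ H0 ∧ ∀ H : ℕ, H0 ≤ H → ∀ X : ℕ, (X : ℝ) ≤ Real.log H ^ B0 →
    ∀ h : Fin k → ℕ, ∀ G : ℕ → Fin k → ℤ, ∀ n : ℕ, (∀ i, n + h i ≤ X) →
    ∑ v ∈ Bx d H, RR (zH H) h G v n ≤ 2 * kap (zH H) h * (Bx d H).card := by
  obtain ⟨H1, hH1, h1⟩ := err_le d B0 k
  obtain ⟨H2, hH2, h2⟩ := zH_facts d B0 k 1 one_pos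
  refine ⟨max H1 H2, hH1.trans (le_max_left _ _), fun H hH X hX h G n hn => ?_⟩
  obtain ⟨a1, a2, a3, a4, a5, a6⟩ := h2 H ((le_max_right _ _).trans hH)
  have b1 := h1 H ((le_max_left _ _).trans hH) (zH H) a3 a4 X hX k le_rfl
  have c1 := T0_single k h d H (zH H) X n hn hk (G n)
  have hkap := one_le_kap (zH H) h
  have hN : (0 : ℝ) ≤ (Bx d H).card := Nat.cast_nonneg _
  unfold RR
  nlinarith

theorem secondU (k : ℕ) (hk : 1 ≤ k) (d : ℕ) (hd : 2 * k ≤ d + 1) (B0 : ℕ) (C ε : ℝ) (hε : 0 < ε) :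
    ∃ A : ℕ, 3 ≤ A ∧ ∀ H : ℕ, A ≤ H → ∀ x : ℕ,
    A * Real.log H ^ k ≤ x → (x : ℝ) ≤ Real.log H ^ B0 → ∀ h : Fin k → ℕ, Function.Injective h → (∀ i, h i ≤ x) →
    ∀ G : ℕ → Fin k → ℤ,
    (∀ n ∈ Icc 1 x, ∀ i, |(G n i : ℝ)| ≤ C * H * ((n + h i : ℕ) : ℝ) ^ d) → ∀ w : ℕ → ℂ, (∀ n, ‖w n‖ ≤ 1) →
    ∑ v ∈ Bx d H, ‖∑ n ∈ Icc 1 x, w n * ((FF (Real.log H) h G v n - RR (zH H) h G v n : ℝ) : ℂ)‖ ^ 2 ≤
      ε * kap (zH H) h ^ 2 * x ^ 2 * (Bx d H).card := by
  have hkr : (1 : ℝ) ≤ k := by exact_mod_cast hk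
  set ζ := Real.exp (2 * k ^ 2 * Real.exp (2 * k ^ 2) / (1 : ℕ)) - 1 with hζ
  have hζ0 : 0 ≤ ζ := by
    have h4 : 0 ≤ 2 * (k : ℝ) ^ 2 * Real.exp (2 * k ^ 2) / (1 : ℕ) := by positivity
    have := Real.add_one_le_exp (2 * (k : ℝ) ^ 2 * Real.exp (2 * k ^ 2) / (1 : ℕ))
    linarith
  set η := min 1 (ε / (2 * (33 + 60 * k ^ 2 * ζ))) with hη
  have hη0 : 0 < η := lt_min one_pos (by positivity)
  have hη1 : η ≤ 1 := min_le_left _ _
  have hηε : η * (33 + 60 * k ^ 2 * ζ) ≤ ε / 2 := by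
    have h1 : η ≤ ε / (2 * (33 + 60 * k ^ 2 * ζ)) := min_le_right _ _
    rw [le_div_iff₀ (by positivity)] at h1
    linarith
  obtain ⟨δ, hδ0, hδ⟩ : ∃ δ : ℝ, 0 < δ ∧ Real.exp (2 * δ) - 1 ≤ η := by
    refine ⟨Real.log (1 + η) / 2, by have := Real.log_pos (by linarith : 1 < 1 + η); positivity, ?_⟩
    rw [mul_div_cancel₀ _ (by norm_num), Real.exp_log (by linarith)]
    linarith
  obtain ⟨H1, hH1, hc⟩ := combU d (B0 + 1) C η hη0
  obtain ⟨H2, hH2, hz⟩ := zH_facts d (B0 + 1) k δ hδ0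
  obtain ⟨H3, hH3, he⟩ := err_le d (B0 + 1) (2 * k)
  obtain ⟨H4, hH4, hm⟩ := RR_mean k d (B0 + 1) (by omega)
  obtain ⟨A1, hA1⟩ := exists_nat_ge (30 * k ^ 2 / ε)
  refine ⟨max (max (max H1 H2) (max H3 H4)) (max A1 3), (le_max_right _ _).trans (le_max_right _ _),
    fun H hH x hAx hxB h hh hhx G hG w hw => ?_⟩
  have hHH : max (max H1 H2) (max H3 H4) ≤ H := (le_max_left _ _).trans hH
  have hHH1 : H1 ≤ H := ((le_max_left _ _).trans (le_max_left _ _)).trans hHH
  have hHH2 : H2 ≤ H := ((le_max_right _ _).trans (le_max_left _ _)).trans hHH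
  have hHH3 : H3 ≤ H := ((le_max_left _ _).trans (le_max_right _ _)).trans hHH
  have hHH4 : H4 ≤ H := ((le_max_right _ _).trans (le_max_right _ _)).trans hHH
  have hA1m : (A1 : ℝ) ≤ ((max (max (max H1 H2) (max H3 H4)) (max A1 3) : ℕ) : ℝ) := by
    exact_mod_cast (le_max_left _ _).trans (le_max_right _ _)
  have hA1m' : (1 : ℝ) ≤ ((max (max (max H1 H2) (max H3 H4)) (max A1 3) : ℕ) : ℝ) := by
    exact_mod_cast (by norm_num : 1 ≤ 3).trans ((le_max_right _ _).trans (le_max_right _ _))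
  have hc' := hc H hHH1
  obtain ⟨hL2, hz2, hzp, hzL, hzS, -⟩ := hz H hHH2
  have he' := he H hHH3 (zH H) hzp hzL
  have hm' := hm H hHH4
  set z := zH H with hzdef
  set L := Real.log H with hL
  have hL1 : 1 ≤ L := by linarith
  have hL0 : 0 < L := by linarith
  have hLk : 1 ≤ L ^ k := one_le_pow₀ hL1
  have hxA : 30 * k ^ 2 / ε * L ^ k ≤ x := by
    refine le_trans ?_ hAx
    apply mul_le_mul_of_nonneg_right (hA1.trans hA1m) (by positivity)
  have hx1' : (1 : ℝ) ≤ x := by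
    refine le_trans ?_ hAx
    nlinarith
  have hx0 : (0 : ℝ) < x := by linarith
  have hx1 : 1 ≤ x := by exact_mod_cast hx1'
  set X := 2 * x with hX
  have hX1 : 1 ≤ X := by omega
  have hXL : (X : ℝ) ≤ L ^ (B0 + 1) := by
    rw [hX, pow_succ]
    push_cast
    nlinarith
  have hnX : ∀ n ∈ Icc 1 x, ∀ i, 1 ≤ n + h i ∧ n + h i ≤ X := by
    intro n hn i
    rw [mem_Icc] at hn
    have := hhx i
    omega
  set N : ℝ := ((Bx d H).card : ℝ) with hN
  have hN0 : 0 ≤ N := Nat.cast_nonneg _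
  set κ := kap z h with hκ
  have hκ1 : 1 ≤ κ := one_le_kap z h
  have hκ0 : 0 < κ := by linarith
  have hCz := Cz_ge z
  have hCzL : Cz z ≤ L := by
    unfold Cz
    refine le_trans (div_le_self (by positivity) ?_) hzp
    exact_mod_cast Nat.totient_pos.2 (primorial_pos z)
  -- the small quantities
  have hE : ∀ (ι : Type) [Fintype ι] [DecidableEq ι] (t : ι → ℕ), Function.Injective t → (∀ a, t a ≤ X) →
      Fintype.card ι ≤ d + 1 → Real.exp (2 * Sg z t) - 1 ≤ η := by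
    intro ι _ _ t ht htX hcard
    refine le_trans ?_ hδ
    have h1 := (Sg_le d z X hz2 hX1 t ht htX hcard).trans (hzS X hX1 hXL)
    have h2 : Real.exp (2 * Sg z t) ≤ Real.exp (2 * δ) := Real.exp_le_exp.2 (by linarith)
    linarith
  -- the squares
  have hQ : ∀ n ∈ Icc 1 x, ∑ v ∈ Bx d H, (FF L h G v n - RR z h G v n) ^ 2 ≤ N * (L ^ k * (15 * κ)) := by
    intro n hn
    have hRn := hm' X hXL h G n (fun i => (hnX n hn i).2)
    have hSgn := hE (Fin k) (fun i => n + h i) (fun a b hab => hh (by simpa using hab)) (fun i => (hnX n hn i).2)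
      (by rw [Fintype.card_fin]; omega)
    have h1 := hc' z hzp (Fin k) (by rw [Fintype.card_fin]; omega) X hX1 hXL (fun i => n + h i)
      (fun a b hab => hh (by simpa using hab)) (hnX n hn) (G n) (hG n hn) (hSgn.trans hη1) univ
    have e1 : ∀ v : Fin (d + 1) → ℤ, PA L univ (fun _ => MM (primorial z)) (fun i => pv v (n + h i) + G n i) =
        FF L h G v n := by
      intro v
      unfold PA FF
      simp
    have e2 : ∀ v : Fin (d + 1) → ℤ, ∏ i, MM (primorial z) (pv v (n + h i) + G n i) = RR z h G v n := fun v => rfl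
    simp only [e1, e2] at h1
    set T := ∑ v ∈ Bx d H, RR z h G v n with hT
    have hT0 : 0 ≤ T := sum_nonneg fun v _ => RR_nonneg z h G v n
    have h2 : ∑ v ∈ Bx d H, FF L h G v n ≤ 13 * κ * N := by
      have h3 := (abs_le.1 h1).2
      have h4 : (3 * η + 2 * (Real.exp (2 * Sg z fun i => n + h i) - 1)) * T ≤ 5 * T := by
        apply mul_le_mul_of_nonneg_right _ hT0
        linarith
      have h5 : η * N ≤ κ * N := by
        apply mul_le_mul_of_nonneg_right _ hN0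
        linarith
      linarith
    calc ∑ v ∈ Bx d H, (FF L h G v n - RR z h G v n) ^ 2 ≤ ∑ v ∈ Bx d H, (L ^ k * FF L h G v n + L ^ k * RR z h G v n) := by
          apply sum_le_sum
          intro v _
          have h5 := FF_sq L h G v n
          have h6 := FF_nonneg hL0.le h G v n
          have h7 := RR_nonneg z h G v n
          have h8 := RR_le z h G v n
          have h9 : RR z h G v n ^ 2 ≤ L ^ k * RR z h G v n := by
            rw [pow_two]
            apply mul_le_mul_of_nonneg_right _ h7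
            exact h8.trans (pow_le_pow_left₀ (by linarith) hCzL k)
          have h10 := mul_nonneg h6 h7
          rw [← h5]
          nlinarith
      _ = L ^ k * ∑ v ∈ Bx d H, FF L h G v n + L ^ k * T := by
          rw [sum_add_distrib, ← mul_sum, ← mul_sum]
      _ ≤ L ^ k * (13 * κ * N) + L ^ k * (2 * κ * N) := by gcongr
      _ = _ := by ring
  have hbad : ∀ n ∈ Icc 1 x, ∀ m ∈ Icc 1 x,
      |∑ v ∈ Bx d H, (FF L h G v n - RR z h G v n) * (FF L h G v m - RR z h G v m)| ≤ N * (L ^ k * (15 * κ)) := by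
    intro n hn m hm
    calc _ ≤ ∑ v ∈ Bx d H, |(FF L h G v n - RR z h G v n) * (FF L h G v m - RR z h G v m)| := abs_sum_le_sum_abs _ _
      _ ≤ ∑ v ∈ Bx d H, (1 / 2 * (FF L h G v n - RR z h G v n) ^ 2 + 1 / 2 * (FF L h G v m - RR z h G v m) ^ 2) := by
          apply sum_le_sum
          intro v _
          rw [abs_mul]
          have := sq_nonneg (|FF L h G v n - RR z h G v n| - |FF L h G v m - RR z h G v m|)
          rw [sub_sq, sq_abs, sq_abs] at this
          linarith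
      _ = 1 / 2 * ∑ v ∈ Bx d H, (FF L h G v n - RR z h G v n) ^ 2 + 1 / 2 * ∑ v ∈ Bx d H, (FF L h G v m - RR z h G v m) ^ 2 := by
          rw [sum_add_distrib, mul_sum, mul_sum]
      _ ≤ _ := by
          have h4 := hQ n hn
          have h5 := hQ m hm
          linarith
  have hgood : ∀ n ∈ Icc 1 x, ∀ m ∈ Icc 1 x, Good h n m →
      |∑ v ∈ Bx d H, (FF L h G v n - RR z h G v n) * (FF L h G v m - RR z h G v m)| ≤
        N * κ ^ 2 * η * (33 + 15 * ∑ i, ∑ j, (Real.exp (2 * k ^ 2 * sg 1 ((n + h i : ℤ) - (m + h j)).natAbs) - 1)) := by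
    intro n hn m hm hgd
    have hcard : Fintype.card (Fin k ⊕ Fin k) ≤ d + 1 := by rw [Fintype.card_sum, Fintype.card_fin]; omega
    have hptsX : ∀ a, 1 ≤ pts h n m a ∧ pts h n m a ≤ X := by
      intro a
      rcases a with i | j
      · exact hnX n hn i
      · exact hnX m hm j
    have hSgn := hE (Fin k ⊕ Fin k) (pts h n m) (pts_inj h hh n m hgd) (fun a => (hptsX a).2) hcard
    have hgen := hc' z hzp (Fin k ⊕ Fin k) hcard X hX1 hXL (pts h n m)
      (pts_inj h hh n m hgd) hptsX (Sum.elim (G n) (G m)) (by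
        intro a
        rcases a with i | j
        · exact hG n hn i
        · exact hG m hm j) (hSgn.trans hη1)
    have g1 := hgen univ
    have g2 := hgen (univ.filter (fun a : Fin k ⊕ Fin k => a.isLeft))
    have g3 := hgen (univ.filter (fun a : Fin k ⊕ Fin k => a.isRight))
    simp only [(prods L z h G _ n m).1, (prods L z h G _ n m).2.2.2] at g1
    simp only [(prods L z h G _ n m).2.1, (prods L z h G _ n m).2.2.2] at g2
    simp only [(prods L z h G _ n m).2.2.1, (prods L z h G _ n m).2.2.2] at g3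
    have hT := T0_pair k h d H z X n m (fun i => (hnX n hn i).2) (fun i => (hnX m hm i).2) hd hgd (Sum.elim (G n) (G m))
    simp only [(prods L z h G _ n m).2.2.2] at hT
    have hXX := he' X hXL (2 * k) le_rfl
    push_cast at hXX
    set T := ∑ v ∈ Bx d H, RR z h G v n * RR z h G v m with hTdef
    have hT0 : 0 ≤ T := sum_nonneg fun v _ => mul_nonneg (RR_nonneg z h G v n) (RR_nonneg z h G v m)
    set Y := ∑ i, ∑ j, (Real.exp (2 * k ^ 2 * sg 1 ((n + h i : ℤ) - (m + h j)).natAbs) - 1) with hY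
    have hY0 : 0 ≤ Y := by
      apply sum_nonneg
      intro i _
      apply sum_nonneg
      intro j _
      have h4 : 0 ≤ 2 * (k : ℝ) ^ 2 * sg 1 ((n + h i : ℤ) - (m + h j)).natAbs := by
        have := sg_nonneg 1 ((n + h i : ℤ) - (m + h j)).natAbs
        positivity
      have := Real.add_one_le_exp (2 * (k : ℝ) ^ 2 * sg 1 ((n + h i : ℤ) - (m + h j)).natAbs)
      linarith
    have hTY : T ≤ N * κ ^ 2 * (2 + Y) := by
      have h5 := exp_sum_le (fun i j => 2 * sg 1 ((n + h i : ℤ) - (m + h j)).natAbs) (fun i j => by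
        have := sg_nonneg 1 ((n + h i : ℤ) - (m + h j)).natAbs
        positivity)
      have h7 : ∀ i j : Fin k, (k : ℝ) ^ 2 * (2 * sg 1 ((n + h i : ℤ) - (m + h j)).natAbs) =
          2 * k ^ 2 * sg 1 ((n + h i : ℤ) - (m + h j)).natAbs := fun i j => by ring
      simp only [h7] at h5
      rw [← hY] at h5
      have h8 : N * (κ ^ 2 * Real.exp (∑ i, ∑ j, 2 * sg 1 ((n + h i : ℤ) - (m + h j)).natAbs)) ≤ N * (κ ^ 2 * (1 + Y)) := by
        gcongr
        linarith
      have h9 : N ≤ N * κ ^ 2 := le_mul_of_one_le_right hN0 (one_le_pow₀ hκ1)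
      linarith
    have e1 : ∑ v ∈ Bx d H, (FF L h G v n - RR z h G v n) * (FF L h G v m - RR z h G v m) =
        (∑ v ∈ Bx d H, FF L h G v n * FF L h G v m - T) -
        (∑ v ∈ Bx d H, FF L h G v n * RR z h G v m - T) -
        (∑ v ∈ Bx d H, RR z h G v n * FF L h G v m - T) := by
      rw [hTdef]
      simp only [← sum_sub_distrib]
      apply sum_congr rfl
      intro v _
      ring
    rw [e1]
    refine (abs_sub _ _).trans ?_
    refine (add_le_add_left (abs_sub _ _) _).trans ?_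
    refine (add_le_add (add_le_add g1 g2) g3).trans ?_
    have h8 : (3 * η + 2 * (Real.exp (2 * Sg z (pts h n m)) - 1)) * T ≤ (5 * η) * (N * κ ^ 2 * (2 + Y)) := by
      apply mul_le_mul _ hTY hT0 (by positivity)
      linarith
    have h9 : η * N ≤ η * (N * κ ^ 2) := by
      apply mul_le_mul_of_nonneg_left _ hη0.le
      exact le_mul_of_one_le_right hN0 (one_le_pow₀ hκ1)
    calc _ ≤ 3 * ((5 * η) * (N * κ ^ 2 * (2 + Y)) + η * (N * κ ^ 2)) := by
          linarith
      _ = _ := by ring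
  -- the double sum
  have hexp0 : ∀ u : ℕ, 0 ≤ Real.exp (2 * k ^ 2 * sg 1 u) - 1 := by
    intro u
    have h4 : 0 ≤ 2 * (k : ℝ) ^ 2 * sg 1 u := by have := sg_nonneg 1 u; positivity
    have := Real.add_one_le_exp (2 * (k : ℝ) ^ 2 * sg 1 u)
    linarith
  have hdist : ∀ i j : Fin k, ∑ n ∈ Icc 1 x, ∑ m ∈ Icc 1 x,
      (Real.exp (2 * k ^ 2 * sg 1 ((n + h i : ℤ) - (m + h j)).natAbs) - 1) ≤ x * (2 * (2 * x * ζ)) := by
    intro i j
    calc _ ≤ ∑ n ∈ Icc 1 x, 2 * (2 * x * ζ) := by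
          apply sum_le_sum
          intro n hn
          refine (sum_dist (fun u => Real.exp (2 * k ^ 2 * sg 1 u) - 1) hexp0 ?_ x x le_rfl n (h i) (h j) hn (hhx i) (hhx j)).trans ?_
          · rw [sg_small 1 0 (Nat.zero_le _), mul_zero, Real.exp_zero, sub_self]
          · have h4 := sum_exp_sg' (2 * k ^ 2) (by positivity) 1 (2 * x) le_rfl
            apply mul_le_mul_of_nonneg_left _ (by norm_num)
            refine h4.trans (le_of_eq ?_)
            push_cast
            rw [hζ]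
            push_cast
            rfl
      _ = _ := by rw [sum_const, Nat.card_Icc, Nat.add_sub_cancel, nsmul_eq_mul]
  refine (sq_sum (Bx d H) (Icc 1 x) w hw (fun v n => FF L h G v n - RR z h G v n)).trans ?_
  calc ∑ n ∈ Icc 1 x, ∑ m ∈ Icc 1 x, |∑ v ∈ Bx d H, (FF L h G v n - RR z h G v n) * (FF L h G v m - RR z h G v m)|
      ≤ ∑ n ∈ Icc 1 x, ∑ m ∈ Icc 1 x, ((N * κ ^ 2 * η * 33 + N * κ ^ 2 * η * 15 * ∑ i, ∑ j,
          (Real.exp (2 * k ^ 2 * sg 1 ((n + h i : ℤ) - (m + h j)).natAbs) - 1)) +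
          (if ¬ Good h n m then N * (L ^ k * (15 * κ)) else 0)) := by
        apply sum_le_sum
        intro n hn
        apply sum_le_sum
        intro m hm
        by_cases hgd : Good h n m
        · rw [if_neg (not_not.2 hgd), add_zero]
          refine (hgood n hn m hm hgd).trans (le_of_eq ?_)
          ring
        · rw [if_pos hgd]
          have h4 := hbad n hn m hm
          have h5 : 0 ≤ N * κ ^ 2 * η * 33 + N * κ ^ 2 * η * 15 * ∑ i, ∑ j,
              (Real.exp (2 * k ^ 2 * sg 1 ((n + h i : ℤ) - (m + h j)).natAbs) - 1) := by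
            have h6 : 0 ≤ ∑ i, ∑ j, (Real.exp (2 * k ^ 2 * sg 1 ((n + h i : ℤ) - (m + h j)).natAbs) - 1) :=
              sum_nonneg fun i _ => sum_nonneg fun j _ => hexp0 _
            positivity
          linarith
    _ = x * (x * (N * κ ^ 2 * η * 33)) + N * κ ^ 2 * η * 15 * ∑ i, ∑ j, ∑ n ∈ Icc 1 x, ∑ m ∈ Icc 1 x,
          (Real.exp (2 * k ^ 2 * sg 1 ((n + h i : ℤ) - (m + h j)).natAbs) - 1) +
          ∑ n ∈ Icc 1 x, ∑ m ∈ Icc 1 x, (if ¬ Good h n m then N * (L ^ k * (15 * κ)) else 0) := by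
        simp only [sum_add_distrib, sum_const, Nat.card_Icc, Nat.add_sub_cancel, nsmul_eq_mul, ← mul_sum]
        congr 3
        have e5 : ∀ n ∈ Icc 1 x, ∑ m ∈ Icc 1 x, ∑ i, ∑ j, (Real.exp (2 * k ^ 2 * sg 1 ((n + h i : ℤ) - (m + h j)).natAbs) - 1) =
            ∑ i, ∑ j, ∑ m ∈ Icc 1 x, (Real.exp (2 * k ^ 2 * sg 1 ((n + h i : ℤ) - (m + h j)).natAbs) - 1) := by
          intro n _
          rw [sum_comm]
          apply sum_congr rfl
          intro i _
          rw [sum_comm]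
        rw [sum_congr rfl e5, sum_comm]
        apply sum_congr rfl
        intro i _
        rw [sum_comm]
    _ ≤ x * (x * (N * κ ^ 2 * η * 33)) + N * κ ^ 2 * η * 15 * ∑ i : Fin k, ∑ j : Fin k, x * (2 * (2 * x * ζ)) +
          ∑ n ∈ Icc 1 x, (k ^ 2 : ℝ) * (N * (L ^ k * (15 * κ))) := by
        gcongr with i _ j _ n hn
        · exact hdist i j
        · rw [← sum_filter, sum_const, nsmul_eq_mul]
          apply mul_le_mul_of_nonneg_right _ (by positivity)
          exact_mod_cast bad_card h x n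
    _ = x ^ 2 * N * κ ^ 2 * (η * (33 + 60 * k ^ 2 * ζ)) + x * N * κ * (15 * k ^ 2 * L ^ k) := by
        simp only [sum_const, card_univ, Fintype.card_fin, Nat.card_Icc, Nat.add_sub_cancel, nsmul_eq_mul]
        ring
    _ ≤ x ^ 2 * N * κ ^ 2 * (ε / 2) + x * N * κ ^ 2 * (ε / 2 * x) := by
        have h5 : 15 * k ^ 2 * L ^ k ≤ ε / 2 * x := by
          have h7 : 30 * k ^ 2 / ε * L ^ k = (30 * k ^ 2 * L ^ k) / ε := by ring
          rw [h7, div_le_iff₀ hε] at hxA
          linarith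
        have h6 : κ ≤ κ ^ 2 := by
          rw [pow_two]
          exact le_mul_of_one_le_left hκ0.le hκ1
        gcongr
    _ = _ := by ring

end Pool.Agent.Helper82K9.PR
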