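import Pool.Agent.Helper82K9.PR.PU4

set_option autoImplicit false

/-! The number of the tuples of primes for almost all polynomials of a box, uniformly in the shifts. -/

namespace Pool.Agent.Helper82K9.PR

open Finset Filter

open Classical in
/-- weights and offsets -/
theorem almostWU (k : ℕ) (hk : 1 ≤ k) (d : ℕ) (hd : 2 * k ≤ d + 1) (B0 : ℕ)
    (C ε : ℝ) (hε : 0 < ε) : ∃ A : ℕ, 3 ≤ A ∧ ∀ H : ℕ, A ≤ H → ∀ x : ℕ,
    A * Real.log H ^ k ≤ x → (x : ℝ) ≤ Real.log H ^ B0 → ∀ h : Fin k → ℕ, Function.Injective h → (∀ i, h i ≤ x) →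
    ∀ G : ℕ → Fin k → ℤ,
    (∀ n ∈ Icc 1 x, ∀ i, |(G n i : ℝ)| ≤ C * H * ((n + h i : ℕ) : ℝ) ^ d) → ∀ w : ℕ → ℂ, (∀ n, ‖w n‖ ≤ 1) →
    (((Bx d H).filter (fun v => ε * kap (zH H) h * x <
      ‖∑ n ∈ Icc 1 x, w n * ((FF (Real.log H) h G v n - RR (zH H) h G v n : ℝ) : ℂ)‖)).card : ℝ) ≤ ε * (Bx d H).card := by
  obtain ⟨A, hA3, hs⟩ := secondU k hk d hd B0 C (ε ^ 3) (by positivity)
  refine ⟨A, hA3, fun H hH x hAx hxB h hh hhx G hG w hw => ?_⟩
  have h1 := hs H hH x hAx hxB h hh hhx G hG w hw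
  have hH3 : 3 ≤ H := hA3.trans hH
  have hL : 0 < Real.log H := Real.log_pos (by exact_mod_cast (by omega : 1 < H))
  have hA0 : (0 : ℝ) < A := by exact_mod_cast (by omega : 0 < A)
  have hx0 : (0 : ℝ) < x := lt_of_lt_of_le (by positivity) hAx
  have hκ : 0 < kap (zH H) h := lt_of_lt_of_le one_pos (one_le_kap _ _)
  have h2 := cheb (Bx d H) (fun v => ‖∑ n ∈ Icc 1 x, w n * ((FF (Real.log H) h G v n - RR (zH H) h G v n : ℝ) : ℂ)‖ ^ 2)
    (fun v => by positivity) ((ε * kap (zH H) h * x) ^ 2) ε (by positivity) (h1.trans (le_of_eq (by ring)))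
  refine le_trans ?_ h2
  apply Nat.cast_le.2
  apply card_le_card
  intro v hv
  rw [mem_filter] at hv ⊢
  exact ⟨hv.1, pow_lt_pow_left₀ hv.2 (by positivity) (by norm_num)⟩

open Classical in
/-- the asymptotic formula at all places -/
theorem almostSU (k : ℕ) (hk : 1 ≤ k) (d : ℕ) (hd : 2 * k ≤ d + 1) (B0 : ℕ)
    (ε : ℝ) (hε : 0 < ε) : ∃ A : ℕ, 3 ≤ A ∧ ∀ H : ℕ, A ≤ H → ∀ x : ℕ,
    A * Real.log H ^ k ≤ x → (x : ℝ) ≤ Real.log H ^ B0 → ∀ h : Fin k → ℕ, Function.Injective h → (∀ i, h i ≤ x) →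
    (((Bx d H).filter (fun v => ∃ y ≤ x, ε * kap (zH H) h * x <
      |∑ n ∈ Icc 1 y, FF (Real.log H) h (fun _ _ => 0) v n - SS (zH H) h v * y|)).card : ℝ) ≤ ε * (Bx d H).card := by
  set s0 : ℝ := 4 / ε + 1 with hs0
  have hs00 : 0 < s0 := by positivity
  obtain ⟨J, hJ⟩ := exists_nat_ge (8 * s0 / ε + 1)
  have hJ1 : (1 : ℝ) ≤ J := by
    have : 0 ≤ 8 * s0 / ε := by positivity
    linarith
  have hJ0 : 0 < J := by exact_mod_cast lt_of_lt_of_le one_pos hJ1
  obtain ⟨A1, hA13, hA1⟩ := secondU k hk d hd B0 0 ((ε / 4) ^ 2 * (ε / (2 * (J + 2)))) (by positivity)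
  obtain ⟨H1, hH1, hm⟩ := RR_mean k d (B0 + 1) (by omega)
  obtain ⟨H2, hH2, hz⟩ := zH_facts d B0 k (min 1 (ε / 16)) (lt_min one_pos (by positivity))
  obtain ⟨A2, hA2⟩ := exists_nat_ge (16 * s0 / ε)
  refine ⟨max (max A1 A2) (max H1 H2), (hA13.trans (le_max_left _ _)).trans (le_max_left _ _),
    fun H hH x hAx hxB h hh hhx => ?_⟩
  have hHA1 : A1 ≤ H := ((le_max_left _ _).trans (le_max_left _ _)).trans hH
  have hHH1 : H1 ≤ H := ((le_max_left _ _).trans (le_max_right _ _)).trans hH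
  have hHH2 : H2 ≤ H := ((le_max_right _ _).trans (le_max_right _ _)).trans hH
  obtain ⟨hL2, -, -, -, -, hR⟩ := hz H hHH2
  have hm' := hm H hHH1
  have hA1' := hA1 H hHA1
  set z := zH H with hzdef
  set L := Real.log H with hL
  have hL1 : 1 ≤ L := by linarith
  have hLk : 1 ≤ L ^ k := one_le_pow₀ hL1
  have hxm : ((max (max A1 A2) (max H1 H2) : ℕ) : ℝ) ≤ x := by
    refine le_trans ?_ hAx
    exact le_mul_of_one_le_right (Nat.cast_nonneg _) hLk
  have hxA1 : A1 * L ^ k ≤ x := by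
    refine le_trans ?_ hAx
    apply mul_le_mul_of_nonneg_right _ (by positivity)
    exact_mod_cast (le_max_left _ _).trans (le_max_left _ _)
  have hLx : L ≤ x := by
    have h1 : (1 : ℝ) ≤ ((max (max A1 A2) (max H1 H2) : ℕ) : ℝ) := by
      exact_mod_cast (by norm_num : 1 ≤ 3).trans ((hA13.trans (le_max_left _ _)).trans (le_max_left _ _))
    have h2 : L ≤ L ^ k := le_self_pow₀ hL1 (by omega)
    refine le_trans ?_ hAx
    nlinarith
  have hSx' : s0 ≤ ε / 16 * x := by
    have h1 : (A2 : ℝ) ≤ x := by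
      refine le_trans ?_ hxm
      exact_mod_cast (le_max_right _ _).trans (le_max_left _ _)
    have h2 := hA2.trans h1
    rw [div_le_iff₀ hε] at h2
    linarith
  have hx1 : (1 : ℝ) ≤ x := by linarith
  have hx0 : (0 : ℝ) < x := by linarith
  have hxn : 1 ≤ x := by exact_mod_cast hx1
  set κ := kap z h with hκ
  have hκ1 : 1 ≤ κ := one_le_kap z h
  have hκ0 : 0 < κ := by linarith
  set R := Cz z ^ k * (primorial z : ℝ) with hRdef
  have hR0 : 0 ≤ R := by have := Cz_ge z; positivity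
  have hRx' : R ≤ ε / 16 * x := by
    calc R ≤ min 1 (ε / 16) * L := hR
      _ ≤ ε / 16 * x := mul_le_mul (min_le_right _ _) hLx (by linarith) (by positivity)
  have hRx1' : R ≤ x := by
    calc R ≤ min 1 (ε / 16) * L := hR
      _ ≤ 1 * x := mul_le_mul (min_le_left _ _) hLx (by linarith) (by positivity)
      _ = x := one_mul _
  set D := κ * x with hD
  have hD0 : 0 < D := by positivity
  have hxD : (x : ℝ) ≤ D := le_mul_of_one_le_left hx0.le hκ1
  set S0 := s0 * κ with hS0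
  have hS00 : 0 < S0 := by positivity
  have hRx : R ≤ ε / 16 * D := hRx'.trans (mul_le_mul_of_nonneg_left hxD (by positivity))
  have hRx1 : R ≤ D := hRx1'.trans hxD
  have hSx : S0 ≤ ε / 16 * D := by
    rw [hS0, hD]
    nlinarith
  set yy : ℕ → ℕ := fun j => min x (j * x / J) with hyy
  set N : ℝ := ((Bx d H).card : ℝ) with hN
  have hN0 : 0 ≤ N := Nat.cast_nonneg _
  -- the exceptional sets
  set E : ℕ → Finset (Fin (d + 1) → ℤ) := fun j => (Bx d H).filter (fun v => (ε / 4 * D) ^ 2 <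
    ‖∑ n ∈ Icc 1 x, (if n ≤ yy j then (1 : ℂ) else 0) * ((FF L h (fun _ _ => 0) v n - RR z h (fun _ _ => 0) v n : ℝ) : ℂ)‖ ^ 2)
    with hE
  set E' : Finset (Fin (d + 1) → ℤ) := (Bx d H).filter (fun v => 4 / ε * D < ∑ n ∈ Icc 1 x, RR z h (fun _ _ => 0) v n)
    with hE'
  have hEc : ∀ j, ((E j).card : ℝ) ≤ ε / (2 * (J + 2)) * N := by
    intro j
    have h1 := hA1' x hxA1 hxB h hh hhx (fun _ _ => 0) (fun n _ i => by simp) (fun n => if n ≤ yy j then (1 : ℂ) else 0)
      (fun n => by split_ifs <;> simp)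
    exact cheb (Bx d H) (fun v => ‖∑ n ∈ Icc 1 x, (if n ≤ yy j then (1 : ℂ) else 0) *
      ((FF L h (fun _ _ => 0) v n - RR z h (fun _ _ => 0) v n : ℝ) : ℂ)‖ ^ 2) (fun v => by positivity)
      ((ε / 4 * D) ^ 2) (ε / (2 * (J + 2))) (by positivity) (h1.trans (le_of_eq (by rw [hD]; ring)))
  have hE'c : (E'.card : ℝ) ≤ ε / 2 * N := by
    have hXL : ((2 * x : ℕ) : ℝ) ≤ L ^ (B0 + 1) := by
      rw [pow_succ]
      push_cast
      nlinarith
    have h1 : ∑ v ∈ Bx d H, ∑ n ∈ Icc 1 x, RR z h (fun _ _ => 0) v n ≤ 2 * D * N := by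
      rw [sum_comm]
      calc ∑ n ∈ Icc 1 x, ∑ v ∈ Bx d H, RR z h (fun _ _ => 0) v n ≤ ∑ n ∈ Icc 1 x, 2 * κ * N := by
            apply sum_le_sum
            intro n hn
            apply hm' (2 * x) hXL h (fun _ _ => 0) n
            intro i
            have := hhx i
            rw [mem_Icc] at hn
            omega
        _ = _ := by
            rw [sum_const, Nat.card_Icc, Nat.add_sub_cancel, nsmul_eq_mul, hD]
            ring
    refine cheb (Bx d H) (fun v => ∑ n ∈ Icc 1 x, RR z h (fun _ _ => 0) v n)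
      (fun v => sum_nonneg fun n _ => RR_nonneg z h _ v n) (4 / ε * D) (ε / 2) (by positivity) (h1.trans (le_of_eq ?_))
    field_simp
    ring
  have hsub : (Bx d H).filter (fun v => ∃ y ≤ x, ε * κ * x < |∑ n ∈ Icc 1 y, FF L h (fun _ _ => 0) v n - SS z h v * y|) ⊆
      (range (J + 2)).biUnion E ∪ E' := by
    intro v hv
    rw [mem_filter] at hv
    obtain ⟨hvB, y, hyx, hy⟩ := hv
    by_contra hcon
    rw [mem_union, mem_biUnion] at hcon
    push Not at hcon
    obtain ⟨hc1, hc2⟩ := hcon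
    have hRRx : ∑ n ∈ Icc 1 x, RR z h (fun _ _ => 0) v n ≤ 4 / ε * D := by
      by_contra hlt
      push Not at hlt
      exact hc2 (mem_filter.2 ⟨hvB, hlt⟩)
    have hRRy := RR_sum z h v
    have hSSS0 : SS z h v ≤ S0 := by
      have h1 := (abs_le.1 (hRRy x)).1
      have h2 : SS z h v * x ≤ S0 * x := by
        rw [hS0, hs0]
        have h3 : (4 / ε + 1) * κ * x = 4 / ε * D + D := by rw [hD]; ring
        rw [h3]
        linarith
      exact le_of_mul_le_mul_right h2 hx0
    have hpt : ∀ j ∈ range (J + 2), |∑ n ∈ Icc 1 (yy j), FF L h (fun _ _ => 0) v n -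
        ∑ n ∈ Icc 1 (yy j), RR z h (fun _ _ => 0) v n| ≤ ε / 4 * D := by
      intro j hj
      have h1 := hc1 j hj
      have h2 : ‖∑ n ∈ Icc 1 x, (if n ≤ yy j then (1 : ℂ) else 0) *
          ((FF L h (fun _ _ => 0) v n - RR z h (fun _ _ => 0) v n : ℝ) : ℂ)‖ ^ 2 ≤ (ε / 4 * D) ^ 2 := by
        by_contra hlt
        push Not at hlt
        exact h1 (mem_filter.2 ⟨hvB, hlt⟩)
      have h3 := abs_le_of_sq_le_sq h2 (by positivity)
      rw [abs_norm] at h3
      have e1 : ∑ n ∈ Icc 1 x, (if n ≤ yy j then (1 : ℂ) else 0) *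
          ((FF L h (fun _ _ => 0) v n - RR z h (fun _ _ => 0) v n : ℝ) : ℂ) =
          ((∑ n ∈ Icc 1 (yy j), FF L h (fun _ _ => 0) v n - ∑ n ∈ Icc 1 (yy j), RR z h (fun _ _ => 0) v n : ℝ) : ℂ) := by
        rw [← sum_sub_distrib]
        push_cast
        have e2 : Icc 1 (yy j) = (Icc 1 x).filter (fun n => n ≤ yy j) := by
          ext n
          rw [mem_filter, mem_Icc, mem_Icc]
          have : yy j ≤ x := min_le_left _ _
          omega
        rw [e2, sum_filter]
        apply sum_congr rfl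
        intro n _
        split_ifs <;> simp
      rw [e1, Complex.norm_real, Real.norm_eq_abs] at h3
      exact h3
    -- the two places
    set j := y * J / x with hj
    have hjJ : j ≤ J := by
      rw [hj]
      calc y * J / x ≤ x * J / x := Nat.div_le_div_right (Nat.mul_le_mul_right _ hyx)
        _ = J := Nat.mul_div_cancel_left _ (by omega)
    have hj1 : yy j ≤ y := by
      have h1 : j * x ≤ y * J := Nat.div_mul_le_self _ _
      have h2 : j * x / J ≤ y := by
        calc j * x / J ≤ y * J / J := Nat.div_le_div_right h1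
          _ = y := Nat.mul_div_cancel _ hJ0
      exact (min_le_right _ _).trans h2
    have hj2 : y ≤ yy (j + 1) := by
      apply le_min hyx
      rw [Nat.le_div_iff_mul_le hJ0]
      have := Nat.lt_mul_div_succ (y * J) (by omega : 0 < x)
      rw [← hj] at this
      calc y * J ≤ x * (j + 1) := this.le
        _ = (j + 1) * x := by ring
    have hj3 : (yy (j + 1) : ℝ) - yy j ≤ x / J + 1 := by
      have h1 : (j + 1) * x / J ≤ j * x / J + (x / J + 1) := by
        rw [add_mul, one_mul]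
        have h4 := Nat.add_div hJ0 (a := j * x) (b := x)
        rw [h4]
        split_ifs <;> omega
      have h2 : yy (j + 1) ≤ yy j + (x / J + 1) := by
        show min x ((j + 1) * x / J) ≤ min x (j * x / J) + (x / J + 1)
        rcases le_total x (j * x / J) with h | h
        · rw [min_eq_left h]; exact (min_le_left _ _).trans (Nat.le_add_right _ _)
        · rw [min_eq_right h]; exact (min_le_right _ _).trans h1
      have h3 : ((yy (j + 1) : ℕ) : ℝ) ≤ yy j + ((x / J : ℕ) + 1) := by exact_mod_cast h2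
      have h4 : ((x / J : ℕ) : ℝ) ≤ x / J := Nat.cast_div_le
      linarith
    have hJx : S0 * (x / J + 1) ≤ 3 * ε / 16 * D := by
      have h1 : 8 * s0 / ε ≤ J := by linarith
      rw [div_le_iff₀ hε] at h1
      have h2 : S0 * (x / J) ≤ ε / 8 * D := by
        rw [← mul_div_assoc, div_le_iff₀ (by linarith), hS0, hD]
        calc s0 * κ * x = (8 * s0) * (κ * x) / 8 := by ring
          _ ≤ (J * ε) * (κ * x) / 8 := by gcongr
          _ = _ := by ring
      linarith
    have p1 := hpt j (mem_range.2 (by omega))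
    have p2 := hpt (j + 1) (mem_range.2 (by omega))
    have q1 := hRRy (yy j)
    have q2 := hRRy (yy (j + 1))
    have hFFm : ∀ a b : ℕ, a ≤ b → ∑ n ∈ Icc 1 a, FF L h (fun _ _ => 0) v n ≤ ∑ n ∈ Icc 1 b, FF L h (fun _ _ => 0) v n := by
      intro a b hab
      apply sum_le_sum_of_subset_of_nonneg
      · exact Icc_subset_Icc_right hab
      · intro n _ _
        exact FF_nonneg (by linarith) h _ v n
    have m1 := hFFm _ _ hj1
    have m2 := hFFm _ _ hj2
    have hy1 : (yy j : ℝ) ≤ y := by exact_mod_cast hj1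
    have hy2 : (y : ℝ) ≤ yy (j + 1) := by exact_mod_cast hj2
    have r1 : SS z h v * (yy (j + 1) - y) ≤ S0 * (x / J + 1) := by
      apply mul_le_mul hSSS0 (by linarith) (by linarith) hS00.le
    have r2 : SS z h v * (y - yy j) ≤ S0 * (x / J + 1) := by
      apply mul_le_mul hSSS0 (by linarith) (by linarith) hS00.le
    obtain ⟨p11, p12⟩ := abs_le.1 p1
    obtain ⟨p21, p22⟩ := abs_le.1 p2
    obtain ⟨q11, q12⟩ := abs_le.1 q1
    obtain ⟨q21, q22⟩ := abs_le.1 q2
    have hεx : 0 < ε * D := by positivity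
    have e9 : ε * κ * x = ε * D := by rw [hD]; ring
    rw [e9] at hy
    have : |∑ n ∈ Icc 1 y, FF L h (fun _ _ => 0) v n - SS z h v * y| ≤ ε * D := by
      rw [abs_le]
      constructor
      · nlinarith
      · nlinarith
    linarith
  calc (((Bx d H).filter (fun v => ∃ y ≤ x, ε * κ * x < |∑ n ∈ Icc 1 y, FF L h (fun _ _ => 0) v n - SS z h v * y|)).card : ℝ)
      ≤ (((range (J + 2)).biUnion E ∪ E').card : ℝ) := by exact_mod_cast card_le_card hsub
    _ ≤ (((range (J + 2)).biUnion E).card : ℝ) + (E'.card : ℝ) := by exact_mod_cast card_union_le _ _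
    _ ≤ ∑ j ∈ range (J + 2), ((E j).card : ℝ) + (E'.card : ℝ) := by
        have := card_biUnion_le (s := range (J + 2)) (t := E)
        have h2 : (((range (J + 2)).biUnion E).card : ℝ) ≤ ∑ j ∈ range (J + 2), ((E j).card : ℝ) := by exact_mod_cast this
        linarith
    _ ≤ ∑ j ∈ range (J + 2), ε / (2 * (J + 2)) * N + ε / 2 * N := add_le_add (sum_le_sum fun j _ => hEc j) hE'c
    _ = ε * N := by
        rw [sum_const, card_range, nsmul_eq_mul]
        push_cast
        have : (J : ℝ) + 2 ≠ 0 := by positivity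
        field_simp
        ring

end Pool.Agent.Helper82K9.PR
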