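import Pool.Agent.Helper82K9.PR.PU5

set_option autoImplicit false

/-! The mean value of the main term. -/

namespace Pool.Agent.Helper82K9.PR

open Finset Filter

lemma locR {ι : Type} [Fintype ι] [DecidableEq ι] (d H z X : ℕ) (t : ι → ℕ) (ht : ∀ a, t a ≤ X)
    (hcard : Fintype.card ι ≤ d + 1) (g : ι → ℤ) (R : ℕ → Finset ι)
    (hR : ∀ p, ∀ a ∈ R p, ∀ b ∈ R p, t a % p = t b % p → a = b) :
    |∑ v ∈ Bx d H, ∏ p ∈ Nat.primesLE z, ∏ a ∈ R p, (1 - dv p (pv v (t a) + g a)) -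
      (Bx d H).card * ∏ p ∈ Nat.primesLE z, (1 - 1 / (p : ℝ)) ^ (R p).card| ≤
      (z * Fintype.card ι) * (2 * ((d + 1) * (primorial z * (1 + (X : ℝ)) ^ d) * (2 * H + 1) ^ d)) := by
  classical
  set S : Finset (ℕ × ι) := ((Nat.primesLE z) ×ˢ (univ : Finset ι)).filter (fun q => q.2 ∈ R q.1) with hS
  have hSm : ∀ q ∈ S, q.1.Prime ∧ q.1 ≤ z := by
    intro q hq
    rw [hS, mem_filter, mem_product, Nat.mem_primesLE] at hq
    exact ⟨hq.1.1.2, hq.1.1.1⟩
  have hSi : ∀ a ∈ S, ∀ b ∈ S, a.1 = b.1 → t a.2 % a.1 = t b.2 % b.1 → a = b := by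
    intro a ha b hb hab h1
    have ha2 := (mem_filter.1 ha).2
    have hb2 := (mem_filter.1 hb).2
    rw [← hab] at hb2 h1
    exact Prod.ext hab (hR a.1 a.2 ha2 b.2 hb2 h1)
  have h1 := loc d H z X t ht hcard g S hSm hSi
  have hSc : (S.card : ℝ) ≤ z * Fintype.card ι := by
    have h2 : S.card ≤ z * Fintype.card ι := by
      refine (card_filter_le _ _).trans ?_
      rw [card_product, card_univ]
      apply Nat.mul_le_mul_right
      rw [← primes_eq]
      refine (card_filter_le _ _).trans ?_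
      rw [Nat.card_Icc]; omega
    exact_mod_cast h2
  have hprod : ∀ f : ℕ × ι → ℝ, ∏ q ∈ S, f q = ∏ p ∈ Nat.primesLE z, ∏ a ∈ R p, f (p, a) := by
    intro f
    rw [hS, prod_filter, prod_product]
    apply prod_congr rfl
    intro p _
    rw [← prod_filter]
    apply prod_congr _ (fun _ _ => rfl)
    ext a
    simp
  have e2 : ∏ q ∈ S, (1 - 1 / (q.1 : ℝ)) = ∏ p ∈ Nat.primesLE z, (1 - 1 / (p : ℝ)) ^ (R p).card := by
    rw [hprod (fun q => 1 - 1 / (q.1 : ℝ))]
    apply prod_congr rfl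
    intro p _
    show ∏ a ∈ R p, (1 - 1 / (p : ℝ)) = _
    rw [prod_const]
  have e3 : ∀ v : Fin (d + 1) → ℤ, ∏ q ∈ S, (1 - dv q.1 (pv v (t q.2) + g q.2)) =
      ∏ p ∈ Nat.primesLE z, ∏ a ∈ R p, (1 - dv p (pv v (t a) + g a)) := fun v =>
    hprod (fun q => 1 - dv q.1 (pv v (t q.2) + g q.2))
  rw [e2, sum_congr rfl (fun v _ => e3 v)] at h1
  refine h1.trans ?_
  exact mul_le_mul_of_nonneg_right hSc (by positivity)

lemma RR_eq {k d : ℕ} (z : ℕ) (h : Fin k → ℕ) (v : Fin (d + 1) → ℤ) (n : ℕ) :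
    RR z h (fun _ _ => 0) v n = Cz z ^ k * ∏ p ∈ Nat.primesLE z, ∏ i ∈ Rep h p, (1 - dv p (pv v (n + h i) + 0)) := by
  unfold RR
  by_cases h0 : ∃ i, MM (primorial z) (pv v (n + h i) + 0) = 0
  · obtain ⟨i, hi⟩ := h0
    rw [prod_eq_zero (mem_univ i) hi]
    have h1 : Int.gcd (pv v (n + h i) + 0) (primorial z) ≠ 1 := by
      intro h2
      unfold MM at hi
      rw [if_pos h2] at hi
      have h3 := Cz_ge z
      unfold Cz at h3
      linarith
    rw [Int.gcd_def, Int.natAbs_natCast] at h1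
    obtain ⟨p, hp, hpd⟩ := Nat.exists_prime_and_dvd h1
    have h2 := hpd.trans (Nat.gcd_dvd_left _ _)
    have h3 := hpd.trans (Nat.gcd_dvd_right _ _)
    have h4 := hp.dvd_primorial_iff.1 h3
    have h5 : (p : ℤ) ∣ pv v (n + h i) := by
      have := Int.natCast_dvd.2 h2
      rwa [add_zero] at this
    have h6 : h i % p ∈ (Rep h p).image (fun i => h i % p) := by
      have h1 : univ.image (fun i => h i % p) = (Rep h p).image (fun i => h i % p) := by
        ext c
        rw [mem_image, mem_image]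
        constructor
        · rintro ⟨i, _, rfl⟩
          obtain ⟨j, hj, hmin⟩ := (univ.filter (fun j : Fin k => h j % p = h i % p)).exists_min_image id
            ⟨i, mem_filter.2 ⟨mem_univ _, rfl⟩⟩
          rw [mem_filter] at hj
          refine ⟨j, ?_, hj.2⟩
          unfold Rep
          rw [mem_filter]
          refine ⟨mem_univ _, fun l hl h2 => ?_⟩
          have h3 := hmin l (mem_filter.2 ⟨mem_univ _, h2.trans hj.2⟩)
          simp only [id] at h3
          exact absurd hl (not_lt.2 h3)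
        · rintro ⟨i, _, rfl⟩
          exact ⟨i, mem_univ _, rfl⟩
      rw [← h1]
      exact mem_image.2 ⟨i, mem_univ _, rfl⟩
    obtain ⟨j, hj, hji⟩ := mem_image.1 h6
    have h7 : (p : ℤ) ∣ pv v (n + h j) := by
      rw [pv_mod v p (n + h j) (n + h i) (Nat.ModEq.add_left n hji)]
      exact h5
    have h8 : ∏ i ∈ Rep h p, (1 - dv p (pv v (n + h i) + 0)) = 0 := by
      apply prod_eq_zero hj
      unfold dv
      rw [add_zero, if_pos h7, sub_self]
    rw [prod_eq_zero (Nat.mem_primesLE.2 ⟨h4, hp⟩) h8, mul_zero]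
  · push Not at h0
    have e1 : ∀ i ∈ (univ : Finset (Fin k)), MM (primorial z) (pv v (n + h i) + 0) = Cz z := by
      intro i _
      have h2 := h0 i
      unfold MM at h2 ⊢
      by_cases h3 : Int.gcd (pv v (n + h i) + 0) (primorial z) = 1
      · rw [if_pos h3]; rfl
      · rw [if_neg h3] at h2
        exact absurd rfl h2
    rw [prod_congr rfl e1, prod_const, card_univ, Fintype.card_fin]
    have e2 : ∏ p ∈ Nat.primesLE z, ∏ i ∈ Rep h p, (1 - dv p (pv v (n + h i) + 0)) = 1 := by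
      apply prod_eq_one
      intro p hp
      apply prod_eq_one
      intro i _
      unfold dv
      rw [if_neg (MM_prime z _ (h0 i) p (Nat.prime_of_mem_primesLE hp) (Nat.mem_primesLE.1 hp).1), sub_zero]
    rw [e2, mul_one]

lemma RR_two (k : ℕ) (h : Fin k → ℕ) (d H z X n : ℕ) (hX : ∀ i, n + h i ≤ X) (hk : k ≤ d + 1) :
    |∑ v ∈ Bx d H, RR z h (fun _ _ => 0) v n - (Bx d H).card * kap z h| ≤
      Cz z ^ k * ((z * k) * (2 * ((d + 1) * (primorial z * (1 + (X : ℝ)) ^ d) * (2 * H + 1) ^ d))) := by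
  have h1 := locR d H z X (fun i => n + h i) hX (by rw [Fintype.card_fin]; exact hk) (fun _ => 0) (fun p => Rep h p) (by
    intro p i hi j hj hij
    apply Rep_inj h p i j hi hj
    exact Nat.ModEq.add_left_cancel' n hij)
  rw [Fintype.card_fin] at h1
  have hCz := Cz_ge z
  have e1 : ∑ v ∈ Bx d H, RR z h (fun _ _ => 0) v n - (Bx d H).card * kap z h =
      Cz z ^ k * (∑ v ∈ Bx d H, ∏ p ∈ Nat.primesLE z, ∏ i ∈ Rep h p, (1 - dv p (pv v (n + h i) + 0)) -
      (Bx d H).card * ∏ p ∈ Nat.primesLE z, (1 - 1 / (p : ℝ)) ^ (Rep h p).card) := by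
    rw [sum_congr rfl (fun v _ => RR_eq z h v n), ← mul_sum, mul_sub]
    congr 1
    rw [mul_left_comm]
    congr 1
    unfold kap
    rw [Cz_eq', ← prod_pow, ← prod_mul_distrib]
    apply prod_congr rfl
    intro p hp
    obtain ⟨h1, h2⟩ := one_sub_pos p (Nat.prime_of_mem_primesLE hp)
    rw [Rep_card, inv_pow]
    have h3 := nuh_le h p
    have e1 : (1 - 1 / (p : ℝ)) ^ k = (1 - 1 / (p : ℝ)) ^ (k - nuh h p) * (1 - 1 / (p : ℝ)) ^ nuh h p := by
      rw [← pow_add]; congr 1; omega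
    rw [e1]
    field_simp
  rw [e1, abs_mul, abs_of_nonneg (by positivity)]
  exact mul_le_mul_of_nonneg_left h1 (by positivity)

/-- the mean value of the main term -/
theorem mean_SS (k : ℕ) (hk : 1 ≤ k) (d : ℕ) (hd : k ≤ d + 1) (B0 : ℕ) (ε : ℝ) (hε : 0 < ε) : ∃ A : ℕ, 3 ≤ A ∧ ∀ H : ℕ,
    A ≤ H → ∀ x : ℕ, Real.log H ≤ x → (x : ℝ) ≤ Real.log H ^ B0 → ∀ h : Fin k → ℕ, (∀ i, h i ≤ x) →
    |∑ v ∈ Bx d H, SS (zH H) h v - kap (zH H) h * (Bx d H).card| ≤ ε * kap (zH H) h * (Bx d H).card := by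
  obtain ⟨H1, hH1, h1⟩ := err_le d (B0 + 1) (k + 1)
  obtain ⟨H2, hH2, h2⟩ := zH_facts d B0 k (ε / 2) (by positivity)
  -- the factor `Cz z * (z * (k + 1)) / (z * k) ≥ Cz z` is not large; a further power of the logarithm
  have hlog : Tendsto (fun n : ℕ => Real.log n) atTop atTop := Real.tendsto_log_atTop.comp tendsto_natCast_atTop_atTop
  have e6 := (tendsto_natCast_atTop_atTop (R := ℝ)).eventually
    ((Real.isLittleO_pow_log_id_atTop (n := k + 2 + (B0 + 2) * d)).def (show (0 : ℝ) < ε / 2 / (2 * (d + 1) * (k + 1)) by positivity))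
  obtain ⟨H0, h0⟩ := ((hlog.eventually_ge_atTop 2).and e6).exists_forall_of_atTop
  refine ⟨max (max H1 H2) H0, (hH1.trans (le_max_left _ _)).trans (le_max_left _ _), fun H hH x hLx hxB h hhx => ?_⟩
  obtain ⟨-, hLH'⟩ := h0 H ((le_max_right _ _).trans hH)
  obtain ⟨hL2, hz2, hzp, hzL, -, hR⟩ := h2 H (((le_max_right _ _).trans (le_max_left _ _)).trans hH)
  have hH3 : 3 ≤ H := (hH1.trans ((le_max_left _ _).trans (le_max_left _ _))).trans hH
  set z := zH H with hzdef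
  set L := Real.log H with hL
  have hL1 : 1 ≤ L := by linarith
  have hL0 : 0 < L := by linarith
  have hx0 : (0 : ℝ) < x := by linarith
  have hx1 : 1 ≤ x := by exact_mod_cast hx0
  have hHr : (0 : ℝ) < H := by exact_mod_cast (by omega : 0 < H)
  have hLH : L ^ (k + 2 + (B0 + 2) * d) ≤ ε / 2 / (2 * (d + 1) * (k + 1)) * H := by
    simp only [id, Real.norm_eq_abs] at hLH'
    rw [abs_of_nonneg (by positivity), abs_of_nonneg hHr.le] at hLH'
    exact hLH'
  have hCz := Cz_ge z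
  have hCzL : Cz z ≤ L := by
    unfold Cz
    refine le_trans (div_le_self (by positivity) ?_) hzp
    exact_mod_cast Nat.totient_pos.2 (primorial_pos z)
  have hX1 : 1 + ((2 * x : ℕ) : ℝ) ≤ L ^ (B0 + 2) := by
    have h3 : 1 ≤ L ^ B0 := one_le_pow₀ hL1
    have h4 : L ^ (B0 + 2) = L ^ B0 * (L * L) := by ring
    have h5 : 4 ≤ L * L := by nlinarith
    rw [h4]
    push_cast
    nlinarith
  set N : ℝ := ((Bx d H).card : ℝ) with hN
  have hN0 : 0 ≤ N := Nat.cast_nonneg _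
  set κ := kap z h with hκ
  have hκ1 : 1 ≤ κ := one_le_kap z h
  have herr : Cz z ^ k * ((z * k) * (2 * ((d + 1) * (primorial z * (1 + ((2 * x : ℕ) : ℝ)) ^ d) * (2 * H + 1) ^ d))) ≤
      ε / 2 * N := by
    rw [hN, card_Bx, pow_succ (2 * (H : ℝ) + 1) d]
    calc Cz z ^ k * ((z * k) * (2 * ((d + 1) * (primorial z * (1 + ((2 * x : ℕ) : ℝ)) ^ d) * (2 * H + 1) ^ d))) ≤
          L ^ k * ((L * (k + 1)) * (2 * ((d + 1) * (L * (L ^ (B0 + 2)) ^ d) * (2 * H + 1) ^ d))) := by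
          gcongr
          linarith
      _ = 2 * (d + 1) * (k + 1) * L ^ (k + 2 + (B0 + 2) * d) * (2 * H + 1) ^ d := by
          rw [← pow_mul]; ring
      _ ≤ 2 * (d + 1) * (k + 1) * (ε / 2 / (2 * (d + 1) * (k + 1)) * H) * (2 * H + 1) ^ d := by gcongr
      _ = ε / 2 * (H * (2 * H + 1) ^ d) := by field_simp
      _ ≤ ε / 2 * ((2 * H + 1) * (2 * H + 1) ^ d) := by
          gcongr
          linarith
      _ = _ := by ring
  have h3 : |∑ n ∈ Icc 1 x, ∑ v ∈ Bx d H, RR z h (fun _ _ => 0) v n - x * (N * κ)| ≤ x * (ε / 2 * N) := by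
    have e1 : (x : ℝ) * (N * κ) = ∑ n ∈ Icc 1 x, N * κ := by
      rw [sum_const, Nat.card_Icc, Nat.add_sub_cancel, nsmul_eq_mul]
    rw [e1, ← sum_sub_distrib]
    refine (abs_sum_le_sum_abs _ _).trans ?_
    calc _ ≤ ∑ n ∈ Icc 1 x, ε / 2 * N := by
          apply sum_le_sum
          intro n hn
          refine (RR_two k h d H z (2 * x) n (fun i => ?_) hd).trans herr
          have := hhx i
          rw [mem_Icc] at hn
          omega
      _ = _ := by rw [sum_const, Nat.card_Icc, Nat.add_sub_cancel, nsmul_eq_mul]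
  rw [sum_comm] at h3
  have h4 : |∑ v ∈ Bx d H, ∑ n ∈ Icc 1 x, RR z h (fun _ _ => 0) v n - ∑ v ∈ Bx d H, SS z h v * x| ≤ N * (ε / 2 * x) := by
    rw [← sum_sub_distrib]
    refine (abs_sum_le_sum_abs _ _).trans ?_
    calc _ ≤ ∑ v ∈ Bx d H, ε / 2 * x := by
          apply sum_le_sum
          intro v _
          refine (RR_sum z h v x).trans (hR.trans ?_)
          gcongr
      _ = _ := by rw [sum_const, nsmul_eq_mul]
  rw [← sum_mul] at h4
  have h5 : |x * (∑ v ∈ Bx d H, SS z h v - κ * N)| ≤ x * (ε * κ * N) := by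
    have e1 : x * (∑ v ∈ Bx d H, SS z h v - κ * N) =
        (∑ v ∈ Bx d H, ∑ n ∈ Icc 1 x, RR z h (fun _ _ => 0) v n - x * (N * κ)) -
        (∑ v ∈ Bx d H, ∑ n ∈ Icc 1 x, RR z h (fun _ _ => 0) v n - (∑ v ∈ Bx d H, SS z h v) * x) := by ring
    rw [e1]
    refine (abs_sub _ _).trans ((add_le_add h3 h4).trans ?_)
    have h6 : ε * N * 1 ≤ ε * N * κ := mul_le_mul_of_nonneg_left hκ1 (by positivity)
    nlinarith
  rw [abs_mul, abs_of_pos hx0] at h5
  exact le_of_mul_le_mul_left h5 hx0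

end Pool.Agent.Helper82K9.PR
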